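import Pool.Agent.H35.XR.Stm

/-!
# XR-CORE: assembly, choice of the constants
-/

set_option autoImplicit false
set_option linter.unusedSectionVars false

open Finset Filter Topology
open scoped Classical

namespace Pool.Agent.H35.XR

open Pool.Agent.H35.RD

theorem CORE_gam (α M₀ δ : ℝ) (hα : 0 < α) (hM : 0 < M₀) (hδ : 0 < δ) :
    ∃ γ : ℝ, 0 < γ ∧ γ ≤ 1 ∧ 4 * M₀ * (2 * γ) ^ α ≤ δ := by
  have hq : 0 < δ / (4 * M₀) := by positivity
  have hp : 0 < (δ / (4 * M₀)) ^ (1 / α) := Real.rpow_pos_of_pos hq _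
  refine ⟨min 1 ((δ / (4 * M₀)) ^ (1 / α) / 2), lt_min one_pos (by positivity), min_le_left _ _, ?_⟩
  set γ := min 1 ((δ / (4 * M₀)) ^ (1 / α) / 2) with hγ
  have h0 : 0 < γ := lt_min one_pos (by positivity)
  have h1 : 2 * γ ≤ (δ / (4 * M₀)) ^ (1 / α) := by
    have := min_le_right 1 ((δ / (4 * M₀)) ^ (1 / α) / 2)
    linarith
  have h2 : (2 * γ) ^ α ≤ δ / (4 * M₀) := by
    calc (2 * γ) ^ α ≤ ((δ / (4 * M₀)) ^ (1 / α)) ^ α := Real.rpow_le_rpow (by positivity) h1 hα.le
      _ = δ / (4 * M₀) := by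
        rw [← Real.rpow_mul hq.le, one_div_mul_cancel hα.ne', Real.rpow_one]
  calc 4 * M₀ * (2 * γ) ^ α ≤ 4 * M₀ * (δ / (4 * M₀)) := by gcongr
    _ = δ := by field_simp

theorem CORE_lim (α a c A K : ℝ) (hα : 0 < α) (ha : 0 < a) (hc : 0 < c) :
    ∃ N₀ : ℕ, ∀ N : ℕ, N₀ ≤ N → 1 ≤ N ∧ A ≤ (N : ℝ) ^ α ∧
      K * Real.exp (-(a * N)) + N * Real.exp (-(c * (N : ℝ) ^ α)) < 1 := by
  have hcast : Tendsto (fun N : ℕ => (N : ℝ)) atTop atTop := tendsto_natCast_atTop_atTop
  have hpow : Tendsto (fun N : ℕ => (N : ℝ) ^ α) atTop atTop := (tendsto_rpow_atTop hα).comp hcast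
  have h1 : Tendsto (fun N : ℕ => K * Real.exp (-(a * N))) atTop (𝓝 0) := by
    have h : Tendsto (fun N : ℕ => Real.exp (-(a * N))) atTop (𝓝 0) :=
      Real.tendsto_exp_neg_atTop_nhds_zero.comp (hcast.const_mul_atTop ha)
    simpa using h.const_mul K
  have h2 : Tendsto (fun N : ℕ => (N : ℝ) * Real.exp (-(c * (N : ℝ) ^ α))) atTop (𝓝 0) := by
    have h := (tendsto_rpow_mul_exp_neg_mul_atTop_nhds_zero (1 / α) c hc).comp hpow
    refine h.congr fun N => ?_
    simp only [Function.comp]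
    rw [← Real.rpow_mul (Nat.cast_nonneg N), mul_one_div_cancel hα.ne', Real.rpow_one, neg_mul]
  have h3 : Tendsto (fun N : ℕ => K * Real.exp (-(a * N)) + N * Real.exp (-(c * (N : ℝ) ^ α))) atTop
      (𝓝 0) := by simpa using h1.add h2
  have h4 := h3.eventually (gt_mem_nhds (show (0 : ℝ) < 1 by norm_num))
  obtain ⟨N₀, hN₀⟩ := eventually_atTop.1 (((eventually_ge_atTop 1).and
    (hpow.eventually (eventually_ge_atTop A))).and h4)
  exact ⟨N₀, fun N hN => ⟨(hN₀ N hN).1.1, (hN₀ N hN).1.2, (hN₀ N hN).2⟩⟩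

section
variable {V : Type} [Fintype V]

theorem CORE_prs (G : SimpleGraph V) : prs G = ∑ v, dg G v := by
  unfold prs dg
  simp only [card_filter]
  rw [Fintype.sum_prod_type]

theorem CORE_half (G : SimpleGraph V) (col : V → Bool) (hB : Bp G col) (b : Bool) :
    ∑ v ∈ univ.filter (fun v => col v = b), (dg G v : ℝ) = prs G / 2 := by
  have h1 : ∑ v ∈ univ.filter (fun v => col v = true), dg G v =
      ∑ v ∈ univ.filter (fun v => col v = false), dg G v := by
    have e : ∀ b : Bool, ∑ v ∈ univ.filter (fun v => col v = b), dg G v =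
        ∑ x, ∑ y, if col x = b ∧ G.Adj x y then 1 else 0 := by
      intro b
      rw [sum_filter]
      refine sum_congr rfl fun x _ => ?_
      by_cases hx : col x = b
      · simp only [hx, if_true, true_and]
        unfold dg
        rw [card_filter]
      · simp [hx]
    rw [e, e, sum_comm]
    refine sum_congr rfl fun y _ => sum_congr rfl fun x _ => ?_
    by_cases h : G.Adj x y
    · have h' := hB x y h
      have h2 : G.Adj y x := h.symm
      cases hx : col x <;> cases hy : col y <;> simp_all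
    · have h2 : ¬ G.Adj y x := fun h3 => h h3.symm
      simp [h, h2]
  have h2 : prs G = ∑ v ∈ univ.filter (fun v => col v = true), dg G v +
      ∑ v ∈ univ.filter (fun v => col v = false), dg G v := by
    rw [CORE_prs, ← sum_filter_add_sum_filter_not univ (fun v => col v = true)]
    congr 1
    refine sum_congr ?_ fun _ _ => rfl
    ext v
    simp
  have h3 : (prs G : ℝ) = ((∑ v ∈ univ.filter (fun v => col v = true), dg G v : ℕ) : ℝ) +
      ((∑ v ∈ univ.filter (fun v => col v = false), dg G v : ℕ) : ℝ) := by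
    rw [h2]; push_cast; ring
  have h4 : ((∑ v ∈ univ.filter (fun v => col v = true), dg G v : ℕ) : ℝ) =
      ((∑ v ∈ univ.filter (fun v => col v = false), dg G v : ℕ) : ℝ) := by rw [h1]
  have h5 : ∑ v ∈ univ.filter (fun v => col v = b), (dg G v : ℝ) =
      ((∑ v ∈ univ.filter (fun v => col v = b), dg G v : ℕ) : ℝ) := by push_cast; rfl
  rw [h5]
  cases b <;> linarith

theorem CORE_cells {M : ℕ} (χ : V → Fin M) (col : V → Bool) (b : Bool) (h : V → ℝ) :
    ∑ v ∈ univ.filter (fun v => col v = b), h v =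
      ∑ a : Fin M, ∑ v ∈ univ.filter (fun v => χ v = a ∧ col v = b), h v := by
  rw [← sum_fiberwise _ χ]
  refine sum_congr rfl fun a _ => sum_congr ?_ fun _ _ => rfl
  ext v
  simp only [mem_filter, mem_univ, true_and]
  tauto

theorem CORE_card (W C : Finset V) : ((W ∩ C).card : ℝ) = ∑ v ∈ C, if v ∈ W then (1 : ℝ) else 0 := by
  rw [← sum_filter, sum_const, nsmul_eq_mul, mul_one]
  congr 2
  ext v
  simp only [mem_inter, mem_filter]
  tauto

theorem CORE_ee_single (G : SimpleGraph V) (x : V) (Y P : Finset V) (h : P ⊆ Y)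
    (hP : ∀ y ∈ P, G.Adj x y) : (P.card : ℝ) ≤ ee G {x} Y := by
  unfold ee
  have : P.card ≤ ((({x} : Finset V) ×ˢ Y).filter (fun z : V × V => G.Adj z.1 z.2)).card := by
    refine card_le_card_of_injOn (fun y => (x, y)) ?_ ?_
    · intro y hy
      simp only [coe_filter, mem_product, mem_singleton, Set.mem_ofPred_eq]
      exact ⟨⟨trivial, h hy⟩, hP y hy⟩
    · intro y _ y' _ hyy
      exact (Prod.mk.inj hyy).2
  exact_mod_cast this

theorem CORE_ee_mono (G : SimpleGraph V) {S S' T T' : Finset V} (hS : S' ⊆ S) (hT : T' ⊆ T) :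
    (ee G S' T' : ℝ) ≤ ee G S T := by
  unfold ee
  exact_mod_cast card_le_card (filter_subset_filter _ (product_subset_product hS hT))

end

theorem core : S_NH → S_SAMP → S_EXT → S_LARGE → S_SMALL → S_BAL → S_CORE := by
  intro hNH hSAMP hEXT hLARGE hSMALL hBAL α M₀ η R hα hM₀ hη hη1
  -- the constants
  set δ : ℝ := η ^ 3 / 8 with hδdef
  have hδ : 0 < δ := by positivity
  obtain ⟨γ, hγ, hγ1, hγ2⟩ := CORE_gam α M₀ δ hα hM₀ hδ
  set γ' : ℝ := γ / 4 with hγ'def
  have hγ' : 0 < γ' := by positivity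
  have hγ'1 : γ' ≤ 1 := by rw [hγ'def]; linarith
  set κ : ℝ := γ' * η ^ 3 / 64 with hκdef
  have hκ : 0 < κ := by positivity
  set ζ : ℝ := γ' * η ^ 4 / 32 with hζdef
  have hζ : 0 < ζ := by positivity
  set ε : ℝ := η ^ 4 * κ / 16 with hεdef
  have hε : 0 < ε := by positivity
  set M : ℕ := R ε with hMdef
  set t : ℝ := min (ζ * η ^ 2 / 28) (min (γ / 8) (η ^ 2 / 8)) with htdef
  have ht : 0 < t := lt_min (by positivity) (lt_min (by positivity) (by positivity))
  have ht1 : t ≤ ζ * η ^ 2 / 28 := min_le_left _ _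
  have ht2 : t ≤ γ / 8 := (min_le_right _ _).trans (min_le_left _ _)
  have ht3 : t ≤ η ^ 2 / 8 := (min_le_right _ _).trans (min_le_right _ _)
  have hη2 : η ^ 2 ≤ 1 := pow_le_one₀ hη.le hη1
  have hM0 : (0 : ℝ) ≤ M := Nat.cast_nonneg M
  set τ : ℝ := t / (M + 1) with hτdef
  have hτ : 0 < τ := by positivity
  have hτt : τ ≤ t := by
    rw [hτdef, div_le_iff₀ (by linarith)]
    nlinarith
  have hτ1 : τ ≤ 1 := by linarith
  have hMτ : M * τ ≤ t := by
    rw [hτdef, mul_div_assoc', div_le_iff₀ (by linarith)]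
    nlinarith
  set cr : ℝ := min (δ / 2) (η ^ 4 * κ / 8) with hcrdef
  have hcr : 0 < cr := lt_min (by positivity) (by positivity)
  have hcr1 : cr ≤ δ / 2 := min_le_left _ _
  have hcr2 : cr ≤ η ^ 4 * κ / 8 := min_le_right _ _
  obtain ⟨N₀, hN₀⟩ := CORE_lim α (τ ^ 2 / 4) (3 * η ^ 3 / 20) (2 / cr)
    (2 * ((Fintype.card (Fin M × Bool) : ℕ) : ℝ)) hα (by positivity) (by positivity)
  refine ⟨min (η ^ 2 / 8) (cr / 2), N₀, lt_min (by positivity) (by positivity), ?_⟩
  intro V _ G col D hN hD hEx hBp hsp hχ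
  obtain ⟨hN1, hNA, hNlim⟩ := hN₀ _ hN
  set N : ℝ := ((Fintype.card V : ℕ) : ℝ) with hNdef
  have hN0 : 0 < N := by rw [hNdef]; exact_mod_cast hN1
  haveI : Nonempty V := Fintype.card_pos_iff.1 (by omega)
  have hDA : 2 / cr ≤ D := hNA.trans hD
  have hD0 : 0 < D := lt_of_lt_of_le (by positivity) hDA
  obtain ⟨χ, hWR⟩ := hχ ε hε
  set e : ℝ := ε * N ^ (1 + α) with hedef
  have heD : e ≤ ε * (N * D) := by
    rw [hedef, Real.rpow_add hN0, Real.rpow_one]
    gcongr
  have hWRF : WRF G χ e := hEXT V G M χ e hWR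
  -- the probabilities
  set p : V → ℝ := fun v => η * dg G v / (2 * D) with hpdef
  have hp1 : ∀ v, η ^ 2 / 2 ≤ p v := by
    intro v
    have := hEx.lo v
    simp only [hpdef]
    rw [le_div_iff₀ (by positivity)]
    nlinarith
  have hp2 : ∀ v, p v ≤ 1 / 2 := by
    intro v
    have := hEx.hi v
    simp only [hpdef]
    rw [div_le_iff₀ (by positivity)]
    linarith
  have hp : ∀ v, 0 ≤ p v ∧ p v ≤ 1 := fun v =>
    ⟨le_trans (by positivity) (hp1 v), by linarith [hp2 v]⟩
  set cell : Fin M × Bool → Finset V := fun q => univ.filter (fun v => χ v = q.1 ∧ col v = q.2)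
    with hcell
  set Q : V → Finset V := fun v => univ.filter (fun w => G.Adj v w) with hQ
  set μ : ℝ := η ^ 3 * D / 2 with hμ
  have hμQ : ∀ v, μ ≤ ∑ u ∈ Q v, p u := by
    intro v
    have h1 : ∑ u ∈ Q v, (η ^ 2 / 2) ≤ ∑ u ∈ Q v, p u := sum_le_sum fun u _ => hp1 u
    rw [sum_const, nsmul_eq_mul] at h1
    have h2 : ((Q v).card : ℝ) = dg G v := rfl
    rw [h2] at h1
    have h3 := hEx.lo v
    refine le_trans ?_ h1
    rw [hμ]
    have h4 : η * D * (η ^ 2 / 2) ≤ dg G v * (η ^ 2 / 2) := by gcongr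
    linarith
  have hunion : 2 * ((Fintype.card (Fin M × Bool) : ℕ) : ℝ) *
      Real.exp (-(τ ^ 2 * Fintype.card V / 4)) +
      Fintype.card V * Real.exp (-(3 * μ / 10)) < 1 := by
    refine lt_of_le_of_lt (add_le_add (le_of_eq ?_) ?_) hNlim
    · congr 2
      rw [← hNdef]
      ring
    · rw [← hNdef]
      refine mul_le_mul_of_nonneg_left (Real.exp_le_exp.2 ?_) hN0.le
      rw [hμ]
      have : 3 * η ^ 3 / 20 * N ^ α ≤ 3 * η ^ 3 / 20 * D := by gcongr
      linarith
  obtain ⟨W, hW1, hW2⟩ := hSAMP V p hp (Fintype.card (Fin M × Bool))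
    (fun i => cell ((Fintype.equivFin (Fin M × Bool)).symm i)) Q τ μ hτ hτ1 (by positivity) hμQ hunion
  rw [← hNdef] at hW1
  have hWc : ∀ q : Fin M × Bool, |((W ∩ cell q).card : ℝ) - ∑ v ∈ cell q, p v| ≤ τ * N := by
    intro q
    have := hW1 (Fintype.equivFin (Fin M × Bool) q)
    simpa using this
  have hμδ : μ / 4 = δ * D := by rw [hμ, hδdef]; ring
  -- the halves
  set A : Finset V := univ.filter (fun v => col v = true) with hA
  set B : Finset V := univ.filter (fun v => col v = false) with hB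
  set m₀ : ℝ := η * prs G / (4 * D) with hm₀
  have hsum : ∀ b : Bool, ∑ v ∈ univ.filter (fun v => col v = b), p v = m₀ := by
    intro b
    have h1 := CORE_half G col hBp b
    have h2 : ∑ v ∈ univ.filter (fun v => col v = b), p v =
        η / (2 * D) * ∑ v ∈ univ.filter (fun v => col v = b), (dg G v : ℝ) := by
      rw [mul_sum]
      refine sum_congr rfl fun v _ => ?_
      simp only [hpdef]
      ring
    rw [h2, h1, hm₀]
    field_simp
    ring
  have hdev : ∀ b : Bool, |((W ∩ univ.filter (fun v => col v = b)).card : ℝ) - m₀| ≤ t * N := by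
    intro b
    rw [← hsum b, CORE_card, ← sum_sub_distrib, CORE_cells χ col b]
    refine (abs_sum_le_sum_abs _ _).trans ?_
    have h1 : ∀ a ∈ (univ : Finset (Fin M)), |∑ v ∈ univ.filter (fun v => χ v = a ∧ col v = b),
        ((if v ∈ W then (1 : ℝ) else 0) - p v)| ≤ τ * N := by
      intro a _
      have h2 := hWc (a, b)
      rw [CORE_card, ← sum_sub_distrib] at h2
      exact h2
    refine (sum_le_sum h1).trans ?_
    rw [sum_const, card_univ, Fintype.card_fin, nsmul_eq_mul, ← mul_assoc]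
    gcongr
  have hprsN : η * D * N ≤ prs G := by
    rw [CORE_prs]
    push_cast
    have h1 : ∑ v : V, η * D ≤ ∑ v : V, (dg G v : ℝ) := sum_le_sum fun v _ => hEx.lo v
    rw [sum_const, card_univ, nsmul_eq_mul, ← hNdef] at h1
    linarith
  have hm₀N : η ^ 2 / 4 * N ≤ m₀ := by
    rw [hm₀, le_div_iff₀ (by positivity)]
    have : η * (η * D * N) ≤ η * prs G := by gcongr
    linarith
  have htN : 0 ≤ t * N := by positivity
  have htm : t * N ≤ m₀ := by
    have : t * N ≤ η ^ 2 / 8 * N := by gcongr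
    have h2 : 0 ≤ η ^ 2 / 8 * N := by positivity
    linarith
  have hhalf : ∀ b : Bool, 2 * m₀ ≤ ((univ.filter (fun v => col v = b)).card : ℝ) := by
    intro b
    have h1 : ∑ v ∈ univ.filter (fun v => col v = b), p v ≤
        ∑ v ∈ univ.filter (fun v => col v = b), (1 / 2 : ℝ) := sum_le_sum fun v _ => hp2 v
    rw [hsum b, sum_const, nsmul_eq_mul] at h1
    linarith
  obtain ⟨X, Y, hX1, hX2, hY1, hY2, hXY, hXm, hXW, hYW⟩ := hBAL V A B W m₀ (t * N) htN htm
    (hhalf true) (hhalf false) (hdev true) (hdev false)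
  have hXc : ∀ x ∈ X, col x = true := fun x hx => (mem_filter.1 (hX2 hx)).2
  have hYc : ∀ y ∈ Y, col y = false := fun y hy => (mem_filter.1 (hY2 hy)).2
  have hrD : cr * D / 2 ≤ (⌊cr * D⌋₊ : ℝ) := by
    have h1 := Nat.lt_floor_add_one (cr * D)
    have h2 : 2 ≤ cr * D := by
      rw [div_le_iff₀ hcr] at hDA
      linarith
    linarith
  have hrD2 : (⌊cr * D⌋₊ : ℝ) ≤ cr * D := Nat.floor_le (by positivity)
  refine ⟨X, Y, ⌊cr * D⌋₊, hXc, hYc, hXY, ?_, ?_, ?_⟩
  · have h1 : min (η ^ 2 / 8) (cr / 2) * N ≤ η ^ 2 / 8 * N := by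
      gcongr
      exact min_le_left _ _
    have h2 : t * N ≤ η ^ 2 / 8 * N := by gcongr
    linarith
  · have h1 : min (η ^ 2 / 8) (cr / 2) * D ≤ cr / 2 * D := by
      gcongr
      exact min_le_right _ _
    linarith
  -- Hall's condition
  intro S hS T hT
  have hcardS : (S.card : ℝ) ≤ X.card := by exact_mod_cast card_le_card hS
  have hcardT : (T.card : ℝ) ≤ N := by
    rw [hNdef]; exact_mod_cast card_le_univ T
  by_cases hsmall : (S.card : ℝ) ≤ γ * Fintype.card V ∨ (T.card : ℝ) ≤ γ * Fintype.card V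
  · refine hSMALL V G X Y S T α M₀ D δ γ ⌊cr * D⌋₊ hα hM₀ hD0 hδ hγ hD hsp ?_ ?_ hXY hS hT hsmall hγ2 ?_
    · intro x hx
      rw [← hμδ]
      refine (hW2 x).trans (CORE_ee_single G x Y _ ?_ ?_)
      · intro y hy
        have h1 := mem_inter.1 hy
        have h2 : G.Adj x y := (mem_filter.1 h1.2).2
        refine hY1 (mem_inter.2 ⟨h1.1, mem_filter.2 ⟨mem_univ _, ?_⟩⟩)
        have h3 := hBp x y h2
        rw [hXc x hx] at h3
        cases hc : col y
        · rfl
        · exact absurd hc.symm h3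
      · intro y hy
        exact (mem_filter.1 (mem_inter.1 hy).2).2
    · intro y hy
      rw [← hμδ]
      refine (hW2 y).trans (CORE_ee_single G y X _ ?_ ?_)
      · intro x hx
        have h1 := mem_inter.1 hx
        have h2 : G.Adj y x := (mem_filter.1 h1.2).2
        refine hX1 (mem_inter.2 ⟨h1.1, mem_filter.2 ⟨mem_univ _, ?_⟩⟩)
        have h3 := hBp y x h2
        rw [hYc y hy] at h3
        cases hc : col x
        · exact absurd hc.symm h3
        · rfl
      · intro x hx
        exact (mem_filter.1 (mem_inter.1 hx).2).2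
    · have : cr * D ≤ δ / 2 * D := by gcongr
      linarith
  · push Not at hsmall
    rw [← hNdef] at hsmall
    obtain ⟨hS3, hT3⟩ := hsmall
    by_cases hle : S.card + T.card ≤ X.card
    · calc ⌊cr * D⌋₊ * (S.card + T.card) ≤ ⌊cr * D⌋₊ * X.card := Nat.mul_le_mul_left _ hle
        _ ≤ _ := Nat.le_add_left _ _
    · push Not at hle
      have hle' : (X.card : ℝ) < S.card + T.card := by exact_mod_cast hle
      -- the parts in the sample
      have hSW : (S.card : ℝ) - 2 * (t * N) ≤ (S ∩ W).card := by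
        have h1 : (S \ W).card ≤ (X \ W).card := card_le_card (sdiff_subset_sdiff hS (Subset.refl _))
        have h2 : (S ∩ W).card + (S \ W).card = S.card := card_inter_add_card_sdiff S W
        have h3 : ((S \ W).card : ℝ) ≤ (X \ W).card := by exact_mod_cast h1
        have h4 : ((S ∩ W).card : ℝ) + (S \ W).card = S.card := by exact_mod_cast h2
        linarith
      have hTW : (T.card : ℝ) - 2 * (t * N) ≤ (T ∩ W).card := by
        have h1 : (T \ W).card ≤ (Y \ W).card := card_le_card (sdiff_subset_sdiff hT (Subset.refl _))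
        have h2 : (T ∩ W).card + (T \ W).card = T.card := card_inter_add_card_sdiff T W
        have h3 : ((T \ W).card : ℝ) ≤ (Y \ W).card := by exact_mod_cast h1
        have h4 : ((T ∩ W).card : ℝ) + (T \ W).card = T.card := by exact_mod_cast h2
        linarith
      have hγN : (γ' + M * τ) * N ≤ γ * N - 2 * (t * N) := by
        have h1 : γ' + M * τ ≤ γ - 2 * t := by rw [hγ'def]; linarith
        calc (γ' + M * τ) * N ≤ (γ - 2 * t) * N := by gcongr
          _ = _ := by ring
      have hnh := hNH V G col D η γ' hD0 hη hη1 hγ' hγ'1 hEx hBp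
      have hL := hLARGE V G col D η κ ζ γ' τ (5 * t) e M χ W (S ∩ W) (T ∩ W) hD0 hη hη1 hγ' hτ
        (by positivity) hEx hBp hnh hWR hWRF ?_ inter_subset_right inter_subset_right ?_ ?_ ?_ ?_ ?_ ?_
      · rw [← hNdef] at hL
        have hmono := CORE_ee_mono G (inter_subset_left : S ∩ W ⊆ S) (inter_subset_left : T ∩ W ⊆ T)
        have h1 : η ^ 4 * κ / 8 * (N * D) ≤ ee G S T := by
          have h2 : 2 * e ≤ 2 * (ε * (N * D)) := by linarith
          have h3 : η ^ 4 / 4 * (κ * D * N) - 2 * (ε * (N * D)) = η ^ 4 * κ / 8 * (N * D) := by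
            rw [hεdef]; ring
          linarith
        have h4 : (⌊cr * D⌋₊ : ℝ) * N ≤ ee G S T := by
          calc (⌊cr * D⌋₊ : ℝ) * N ≤ cr * D * N := by gcongr
            _ ≤ η ^ 4 * κ / 8 * D * N := by gcongr
            _ = η ^ 4 * κ / 8 * (N * D) := by ring
            _ ≤ _ := h1
        have h5 : (S.card : ℝ) + T.card - X.card ≤ N := by linarith
        have h6 : (⌊cr * D⌋₊ : ℝ) * (S.card + T.card) ≤ ee G S T + ⌊cr * D⌋₊ * X.card := by
          have h7 : (⌊cr * D⌋₊ : ℝ) * ((S.card : ℝ) + T.card - X.card) ≤ ⌊cr * D⌋₊ * N := by gcongr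
          linarith
        exact_mod_cast h6
      · intro a b
        have h1 := hWc (a, b)
        have h2 := (abs_le.1 h1).2
        rw [← hNdef]
        have h3 : ∑ v ∈ univ.filter (fun v => χ v = a ∧ col v = b), η * dg G v / (2 * D) =
          ∑ v ∈ cell (a, b), p v := rfl
        rw [h3]
        have h4 : ((W ∩ univ.filter (fun v => χ v = a ∧ col v = b)).card : ℝ) =
          ((W ∩ cell (a, b)).card : ℝ) := rfl
        rw [h4]
        linarith
      · intro v hv
        exact hXc v (hS (mem_inter.1 hv).1)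
      · intro v hv
        exact hYc v (hT (mem_inter.1 hv).1)
      · rw [← hNdef]
        linarith
      · rw [← hNdef]
        linarith
      · rw [← hNdef]
        rw [← hm₀]
        linarith
      · have : 2 * M * τ = 2 * (M * τ) := by ring
        linarith

end Pool.Agent.H35.XR
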