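import Pool.Agent.H35.XR.Stm

/-! # XR-EXT: from sets to functions (helper56) -/

set_option autoImplicit false
set_option linter.unusedSectionVars false

open Finset
open scoped Classical

namespace Pool.Agent.H35.XR

open Pool.Agent.H35.RD

namespace EXTP

variable {V : Type} [Fintype V]

/-- a linear function on the cube is at most its value at the indicator of `{c > 0}` -/
lemma lin_le (F c : V → ℝ) (hF : ∀ v, 0 ≤ F v ∧ F v ≤ 1) :
    ∑ v, F v * c v ≤ ∑ v ∈ univ.filter (fun v => 0 < c v), c v := by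
  rw [Finset.sum_filter]
  refine Finset.sum_le_sum fun v _ => ?_
  split_ifs with h
  · nlinarith [(hF v).2]
  · push Not at h
    nlinarith [(hF v).1]

/-- the upper bound -/
lemma upper (k : V → V → ℝ) (e : ℝ) (h : ∀ S T : Finset V, ∑ x ∈ S, ∑ y ∈ T, k x y ≤ e)
    (F H : V → ℝ) (hF : ∀ v, 0 ≤ F v ∧ F v ≤ 1) (hH : ∀ v, 0 ≤ H v ∧ H v ≤ 1) :
    ∑ x, ∑ y, F x * H y * k x y ≤ e := by
  have h1 : ∑ x, ∑ y, F x * H y * k x y = ∑ x, F x * ∑ y, H y * k x y := by
    refine Finset.sum_congr rfl fun x _ => ?_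
    rw [Finset.mul_sum]
    exact Finset.sum_congr rfl fun y _ => by ring
  rw [h1]
  refine (lin_le F (fun x => ∑ y, H y * k x y) hF).trans ?_
  rw [Finset.sum_comm]
  have h2 : ∀ y, ∑ x ∈ univ.filter (fun v => 0 < ∑ y, H y * k v y), H y * k x y =
      H y * ∑ x ∈ univ.filter (fun v => 0 < ∑ y, H y * k v y), k x y := fun y => by
    rw [Finset.mul_sum]
  rw [Finset.sum_congr rfl fun y _ => h2 y]
  refine (lin_le H _ hH).trans ?_
  rw [Finset.sum_comm]
  exact h _ _

lemma both (k : V → V → ℝ) (e : ℝ) (h : ∀ S T : Finset V, |∑ x ∈ S, ∑ y ∈ T, k x y| ≤ e)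
    (F H : V → ℝ) (hF : ∀ v, 0 ≤ F v ∧ F v ≤ 1) (hH : ∀ v, 0 ≤ H v ∧ H v ≤ 1) :
    |∑ x, ∑ y, F x * H y * k x y| ≤ e := by
  rw [abs_le]
  constructor
  · have h1 := upper (fun x y => - k x y) e (fun S T => by
      simp only [Finset.sum_neg_distrib]
      exact (neg_le_abs _).trans (h S T)) F H hF hH
    simp only [mul_neg, Finset.sum_neg_distrib] at h1
    linarith
  · exact upper k e (fun S T => (le_abs_self _).trans (h S T)) F H hF hH

/-- the sum over the classes -/
lemma fib {M : ℕ} (χ : V → Fin M) (d : Fin M → Fin M → ℝ) (S T : Finset V) (F H : V → ℝ) :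
    ∑ a : Fin M, ∑ b : Fin M, d a b * (∑ x ∈ S.filter (fun x => χ x = a), F x) *
        (∑ x ∈ T.filter (fun x => χ x = b), H x) =
      ∑ x ∈ S, ∑ y ∈ T, F x * H y * d (χ x) (χ y) := by
  rw [← Finset.sum_fiberwise S χ]
  refine Finset.sum_congr rfl fun a _ => ?_
  have h1 : ∀ x ∈ S.filter (fun x => χ x = a), ∑ y ∈ T, F x * H y * d (χ x) (χ y) =
      ∑ b, ∑ y ∈ T.filter (fun x => χ x = b), F x * H y * d a b := by
    intro x hx
    rw [← Finset.sum_fiberwise T χ]
    refine Finset.sum_congr rfl fun b _ => Finset.sum_congr rfl fun y hy => ?_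
    rw [(Finset.mem_filter.1 hx).2, (Finset.mem_filter.1 hy).2]
  rw [Finset.sum_congr rfl h1, Finset.sum_comm]
  refine Finset.sum_congr rfl fun b _ => ?_
  rw [mul_assoc, Finset.sum_mul_sum, Finset.mul_sum]
  refine Finset.sum_congr rfl fun x _ => ?_
  rw [Finset.mul_sum]
  exact Finset.sum_congr rfl fun y _ => by ring

end EXTP

open EXTP in
theorem ext : S_EXT := by
  intro V _ G M χ e h F H hF hH
  obtain ⟨k, hk⟩ : ∃ k : V → V → ℝ, k = fun x y => (if G.Adj x y then (1 : ℝ) else 0) -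
    dn G χ (χ x) (χ y) := ⟨_, rfl⟩
  have hset : ∀ S T : Finset V, |∑ x ∈ S, ∑ y ∈ T, k x y| ≤ e := by
    intro S T
    have h1 := h S T
    have h2 : (ee G S T : ℝ) = ∑ x ∈ S, ∑ y ∈ T, (if G.Adj x y then (1 : ℝ) else 0) := by
      unfold ee
      rw [Finset.card_filter, Nat.cast_sum, Finset.sum_product]
      refine Finset.sum_congr rfl fun x _ => Finset.sum_congr rfl fun y _ => ?_
      split_ifs <;> simp
    have h3 : ∑ a : Fin M, ∑ b : Fin M, dn G χ a b * ((S.filter (fun x => χ x = a)).card : ℝ) *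
        ((T.filter (fun x => χ x = b)).card : ℝ) = ∑ x ∈ S, ∑ y ∈ T, dn G χ (χ x) (χ y) := by
      have := fib χ (dn G χ) S T (fun _ => 1) (fun _ => 1)
      simp only [Finset.sum_const, nsmul_eq_mul, mul_one, one_mul] at this
      exact this
    rw [h2, h3, ← Finset.sum_sub_distrib] at h1
    simp only [← Finset.sum_sub_distrib] at h1
    rw [hk]
    exact h1
  have h4 := both k e hset F H hF hH
  have h5 : fm G F H - ∑ a : Fin M, ∑ b : Fin M,
      dn G χ a b * (∑ x ∈ univ.filter (fun x => χ x = a), F x) *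
        (∑ x ∈ univ.filter (fun x => χ x = b), H x) = ∑ x, ∑ y, F x * H y * k x y := by
    rw [fib χ (dn G χ) univ univ F H]
    unfold fm
    rw [← Finset.sum_sub_distrib]
    refine Finset.sum_congr rfl fun x _ => ?_
    rw [← Finset.sum_sub_distrib]
    refine Finset.sum_congr rfl fun y _ => ?_
    rw [hk]
    simp only
    split_ifs <;> ring
  rw [h5]
  exact h4

end Pool.Agent.H35.XR
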