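import Pool.Agent.H35.XR.Stm

/-! Stub XR-ISO: the `L¹` Poincaré inequality. -/

set_option autoImplicit false

open Finset
open scoped Classical

namespace Pool.Agent.H35.XR

theorem ee_symm {V : Type} [Fintype V] (G : SimpleGraph V) (S T : Finset V) :
    ee G S T = ee G T S := by
  unfold ee
  refine card_bij' (fun z _ => (z.2, z.1)) (fun z _ => (z.2, z.1)) ?_ ?_ ?_ ?_
  · intro z hz
    rw [mem_filter, mem_product] at hz ⊢
    exact ⟨⟨hz.1.2, hz.1.1⟩, hz.2.symm⟩
  · intro z hz
    rw [mem_filter, mem_product] at hz ⊢
    exact ⟨⟨hz.1.2, hz.1.1⟩, hz.2.symm⟩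
  · intro z _
    rfl
  · intro z _
    rfl

theorem ee_sum {V : Type} [Fintype V] (G : SimpleGraph V) (S T : Finset V) :
    (ee G S T : ℝ) = ∑ x, ∑ y, if G.Adj x y then (if x ∈ S ∧ y ∈ T then (1 : ℝ) else 0) else 0 := by
  unfold ee
  rw [card_filter, sum_product]
  push_cast
  have h1 : ∀ x, ∑ y, (if G.Adj x y then (if x ∈ S ∧ y ∈ T then (1 : ℝ) else 0) else 0) =
      if x ∈ S then ∑ y ∈ T, (if G.Adj x y then (1 : ℝ) else 0) else 0 := by
    intro x
    by_cases hx : x ∈ S
    · rw [if_pos hx, ← sum_filter_add_sum_filter_not univ (fun y => y ∈ T)]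
      have e2 : ∑ y ∈ univ.filter (fun y => ¬ y ∈ T),
          (if G.Adj x y then (if x ∈ S ∧ y ∈ T then (1 : ℝ) else 0) else 0) = 0 := by
        refine sum_eq_zero fun y hy => ?_
        rw [mem_filter] at hy
        rw [if_neg (show ¬ (x ∈ S ∧ y ∈ T) from fun h => hy.2 h.2), ite_self]
      rw [e2, add_zero]
      refine sum_congr (by ext y; simp) fun y hy => ?_
      rw [if_pos (show x ∈ S ∧ y ∈ T from ⟨hx, hy⟩)]
    · rw [if_neg hx]
      refine sum_eq_zero fun y _ => ?_
      rw [if_neg (show ¬ (x ∈ S ∧ y ∈ T) from fun h => hx h.1), ite_self]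
  simp only [h1]
  rw [← sum_filter]
  refine sum_congr (by ext x; simp) fun x _ => rfl

/-- the inequality for functions with small support -/
theorem iso_pos {V : Type} [Fintype V] (G : SimpleGraph V) (c : ℝ)
    (hS : ∀ S : Finset V, 2 * S.card ≤ Fintype.card V → c * S.card ≤ ee G S Sᶜ) :
    ∀ (n : ℕ) (u : V → ℝ), (∀ v, 0 ≤ u v) → (univ.filter (fun v => 0 < u v)).card = n →
      2 * n ≤ Fintype.card V →
      2 * c * ∑ v, u v ≤ ∑ x, ∑ y, if G.Adj x y then |u x - u y| else 0 := by
  intro n
  induction n using Nat.strong_induction_on with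
  | _ n ih =>
    intro u hu hn hn2
    obtain ⟨S, hSd⟩ : ∃ S : Finset V, S = univ.filter (fun v => 0 < u v) := ⟨_, rfl⟩
    rw [← hSd] at hn
    have hmem : ∀ v, v ∈ S ↔ 0 < u v := fun v => by rw [hSd, mem_filter]; simp
    rcases S.eq_empty_or_nonempty with h0 | hne
    · have hz : ∀ v, u v = 0 := fun v => by
        have : ¬ 0 < u v := fun h => by
          rw [← hmem, h0] at h
          exact absurd h (notMem_empty v)
        exact le_antisymm (not_lt.1 this) (hu v)
      simp only [hz]
      simp
    · obtain ⟨v₁, hv₁, hmin⟩ := exists_min_image S u hne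
      obtain ⟨t, ht⟩ : ∃ t, t = u v₁ := ⟨_, rfl⟩
      rw [← ht] at hmin
      have htpos : 0 < t := by
        rw [ht]
        exact (hmem v₁).1 hv₁
      let u' : V → ℝ := fun v => if v ∈ S then u v - t else 0
      have hu' : ∀ v, 0 ≤ u' v := fun v => by
        simp only [u']
        split_ifs with h
        · linarith [hmin v h]
        · exact le_rfl
      have hsub : univ.filter (fun v => 0 < u' v) ⊂ S := by
        rw [ssubset_iff_of_subset]
        · refine ⟨v₁, hv₁, fun h => ?_⟩
          rw [mem_filter] at h
          have h1 : u' v₁ = 0 := by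
            simp only [u', if_pos hv₁, ht, sub_self]
          linarith [h.2]
        · intro v hv
          rw [mem_filter] at hv
          by_contra h
          have h1 : u' v = 0 := by simp only [u', if_neg h]
          linarith [hv.2]
      have hcard := card_lt_card hsub
      have hI := ih _ (by omega) u' hu' rfl (by omega)
      have hsum : ∑ v, u v = ∑ v, u' v + t * S.card := by
        have h1 : ∀ v, u v = u' v + (if v ∈ S then t else 0) := fun v => by
          simp only [u']
          split_ifs with h
          · ring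
          · rw [hmem] at h
            linarith [hu v, not_lt.1 h]
        have h2 : ∑ v : V, (if v ∈ S then t else 0) = t * S.card := by
          rw [sum_ite_mem, univ_inter, sum_const, nsmul_eq_mul, mul_comm]
        rw [sum_congr rfl fun v _ => h1 v, sum_add_distrib, h2]
      have hedge : ∑ x, ∑ y, (if G.Adj x y then |u x - u y| else 0) =
          ∑ x, ∑ y, (if G.Adj x y then |u' x - u' y| else 0) + t * (ee G S Sᶜ + ee G Sᶜ S) := by
        rw [ee_sum G S Sᶜ, ee_sum G Sᶜ S, ← sum_add_distrib, mul_sum, ← sum_add_distrib]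
        refine sum_congr rfl fun x _ => ?_
        rw [← sum_add_distrib, mul_sum, ← sum_add_distrib]
        refine sum_congr rfl fun y _ => ?_
        by_cases hxy : G.Adj x y
        · simp only [if_pos hxy, mem_compl]
          by_cases hx : x ∈ S <;> by_cases hy : y ∈ S
          · simp [u', hx, hy]
          · have hy0 : u y = 0 := le_antisymm (not_lt.1 fun h => hy ((hmem y).2 h)) (hu y)
            have e1 := hmin x hx
            simp only [u', if_pos hx, if_neg hy, hy0, sub_zero]
            rw [abs_of_nonneg (hu x), abs_of_nonneg (by linarith)]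
            simp [hx, hy]
          · have hx0 : u x = 0 := le_antisymm (not_lt.1 fun h => hx ((hmem x).2 h)) (hu x)
            have e1 := hmin y hy
            simp only [u', if_pos hy, if_neg hx, hx0, zero_sub]
            rw [abs_neg, abs_neg, abs_of_nonneg (hu y), abs_of_nonneg (by linarith)]
            simp [hx, hy]
          · have hx0 : u x = 0 := le_antisymm (not_lt.1 fun h => hx ((hmem x).2 h)) (hu x)
            have hy0 : u y = 0 := le_antisymm (not_lt.1 fun h => hy ((hmem y).2 h)) (hu y)
            simp [u', hx, hy, hx0, hy0]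
        · simp [hxy]
      rw [hedge, hsum, ee_symm G Sᶜ S]
      have h2 := hS S (by omega)
      have h3 := mul_le_mul_of_nonneg_left h2 htpos.le
      nlinarith

theorem iso : S_ISO := by
  intro V _ _ G D η hS h
  -- the median
  obtain ⟨vm, -, hvm⟩ := exists_min_image (univ : Finset V) h univ_nonempty
  have hne : (univ.filter (fun v => 2 * (univ.filter (fun x => h x < h v)).card ≤
      Fintype.card V)).Nonempty := by
    refine ⟨vm, ?_⟩
    rw [mem_filter]
    refine ⟨mem_univ _, ?_⟩
    have : univ.filter (fun x => h x < h vm) = ∅ := by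
      rw [filter_eq_empty_iff]
      intro x _
      exact not_lt.2 (hvm x (mem_univ x))
    rw [this]
    simp
  obtain ⟨v₀, hv₀, hmax⟩ := exists_max_image _ h hne
  rw [mem_filter] at hv₀
  have hlow := hv₀.2
  have hhigh : 2 * (univ.filter (fun x => h v₀ < h x)).card ≤ Fintype.card V := by
    by_contra hcon
    rw [not_le] at hcon
    have hPne : (univ.filter (fun x => h v₀ < h x)).Nonempty := by
      rw [← card_pos]
      omega
    obtain ⟨v₁, hv₁, hmin₁⟩ := exists_min_image _ h hPne
    rw [mem_filter] at hv₁
    have h1 : univ.filter (fun x => h x < h v₁) = (univ.filter (fun x => h v₀ < h x))ᶜ := by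
      ext x
      rw [mem_compl, mem_filter, mem_filter]
      constructor
      · rintro ⟨_, hx⟩ ⟨_, hx2⟩
        exact absurd (hmin₁ x (mem_filter.2 ⟨mem_univ _, hx2⟩)) (not_le.2 hx)
      · intro hx
        refine ⟨mem_univ _, ?_⟩
        have : h x ≤ h v₀ := not_lt.1 fun hx2 => hx ⟨mem_univ _, hx2⟩
        exact this.trans_lt hv₁.2
    have h2 := hmax v₁ (by
      rw [mem_filter]
      refine ⟨mem_univ _, ?_⟩
      rw [h1, card_compl]
      omega)
    exact absurd hv₁.2 (not_lt.2 h2)
  obtain ⟨θ, hθ⟩ : ∃ θ, θ = h v₀ := ⟨_, rfl⟩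
  refine ⟨v₀, ?_⟩
  rw [← hθ] at hlow hhigh ⊢
  let u : V → ℝ := fun v => max (h v - θ) 0
  let w : V → ℝ := fun v => max (θ - h v) 0
  have hu := iso_pos G (η * D) hS _ u (fun v => le_max_right _ _) rfl (by
    have : univ.filter (fun v => 0 < u v) = univ.filter (fun x => θ < h x) := by
      ext v
      simp only [mem_filter, mem_univ, true_and, u, lt_max_iff, lt_irrefl, or_false, sub_pos]
    rw [this]
    exact hhigh)
  have hw := iso_pos G (η * D) hS _ w (fun v => le_max_right _ _) rfl (by
    have : univ.filter (fun v => 0 < w v) = univ.filter (fun x => h x < θ) := by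
      ext v
      simp only [mem_filter, mem_univ, true_and, w, lt_max_iff, lt_irrefl, or_false, sub_pos]
    rw [this]
    exact hlow)
  have e1 : ∑ v, |h v - θ| = ∑ v, u v + ∑ v, w v := by
    rw [← sum_add_distrib]
    refine sum_congr rfl fun v _ => ?_
    simp only [u, w]
    rcases le_total θ (h v) with h1 | h1
    · rw [abs_of_nonneg (by linarith), max_eq_left (by linarith), max_eq_right (by linarith),
        add_zero]
    · rw [abs_of_nonpos (by linarith), max_eq_right (by linarith), max_eq_left (by linarith)]
      ring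
  have e2 : ∑ x, ∑ y, (if G.Adj x y then |h x - h y| else 0) =
      ∑ x, ∑ y, (if G.Adj x y then |u x - u y| else 0) +
      ∑ x, ∑ y, (if G.Adj x y then |w x - w y| else 0) := by
    rw [← sum_add_distrib]
    refine sum_congr rfl fun x _ => ?_
    rw [← sum_add_distrib]
    refine sum_congr rfl fun y _ => ?_
    by_cases hxy : G.Adj x y
    · simp only [if_pos hxy, u, w]
      rcases le_total θ (h x) with h1 | h1 <;> rcases le_total θ (h y) with h2 | h2 <;>
      rcases le_total (h x) (h y) with h3 | h3
      all_goals
        first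
          | rw [max_eq_left (show (0 : ℝ) ≤ h x - θ by linarith), max_eq_right (show θ - h x ≤ (0 : ℝ) by linarith)]
          | rw [max_eq_right (show h x - θ ≤ (0 : ℝ) by linarith), max_eq_left (show (0 : ℝ) ≤ θ - h x by linarith)]
        first
          | rw [max_eq_left (show (0 : ℝ) ≤ h y - θ by linarith), max_eq_right (show θ - h y ≤ (0 : ℝ) by linarith)]
          | rw [max_eq_right (show h y - θ ≤ (0 : ℝ) by linarith), max_eq_left (show (0 : ℝ) ≤ θ - h y by linarith)]
        simp only [abs_eq_max_neg]
        simp only [max_def]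
        split_ifs <;> linarith
    · simp [hxy]
  rw [e1, e2, mul_add]
  exact add_le_add hu hw

end Pool.Agent.H35.XR
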