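import Pool.Agent.H35.XR.Stm

/-!
# Stub XR-LARGE: many edges between large subsets of a sample
-/

set_option autoImplicit false

open Finset
open scoped Classical

namespace Pool.Agent.H35.XR

open Pool.Agent.H35.RD

namespace LARGE

variable {V : Type} [Fintype V]

theorem prs_eq (G : SimpleGraph V) : (prs G : ℝ) = ∑ v, (dg G v : ℝ) := by
  unfold prs dg
  rw [Finset.card_filter, Fintype.sum_prod_type]
  push_cast
  refine Finset.sum_congr rfl fun v _ => ?_
  rw [Finset.card_filter]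
  push_cast
  rfl

/-- the two functions of one colour -/
theorem key (G : SimpleGraph V) (col : V → Bool) (D η τ : ℝ) (M : ℕ) (χ : V → Fin M)
    (W S : Finset V) (b : Bool) (hD : 0 < D) (hη : 0 < η) (hlo : ∀ v, η * D ≤ dg G v)
    (hτ : 0 < τ)
    (hW : ∀ a : Fin M, ((W ∩ univ.filter (fun v => χ v = a ∧ col v = b)).card : ℝ) ≤
      ∑ v ∈ univ.filter (fun v => χ v = a ∧ col v = b), η * dg G v / (2 * D) +
        τ * Fintype.card V)
    (hSW : S ⊆ W) (hS : ∀ v ∈ S, col v = b) :
    ∃ f F : V → ℝ, (∀ v, 0 ≤ f v ∧ f v ≤ 1) ∧ (∀ v, 0 ≤ F v ∧ F v ≤ 1) ∧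
      (∀ v, col v ≠ b → f v = 0) ∧
      (∀ a, ∑ x ∈ univ.filter (fun x => χ x = a), F x =
        ((S.filter (fun x => χ x = a)).card : ℝ)) ∧
      ((S.card : ℝ) - M * τ * Fintype.card V ≤ ∑ v, f v * (η * dg G v / (2 * D))) ∧
      (∀ v, η ^ 2 / 2 * f v ≤ F v) := by
  obtain ⟨p, hp⟩ : ∃ p : V → ℝ, p = fun v => η * dg G v / (2 * D) := ⟨_, rfl⟩
  have hp1 : ∀ v, η ^ 2 / 2 ≤ p v := by
    intro v
    rw [hp]
    show η ^ 2 / 2 ≤ η * dg G v / (2 * D)
    rw [le_div_iff₀ (by positivity)]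
    have := mul_le_mul_of_nonneg_left (hlo v) hη.le
    nlinarith
  obtain ⟨cell, hcell⟩ : ∃ cell : Fin M → Finset V,
      cell = fun a => univ.filter (fun v => χ v = a ∧ col v = b) := ⟨_, rfl⟩
  have hcell' : ∀ a, cell a = univ.filter (fun v => χ v = a ∧ col v = b) := fun a => by rw [hcell]
  obtain ⟨s, hs⟩ : ∃ s : Fin M → ℝ, ∀ a, s a = ((S.filter (fun x => χ x = a)).card : ℝ) :=
    ⟨_, fun _ => rfl⟩
  obtain ⟨ξ, hξ⟩ : ∃ ξ : Fin M → ℝ, ∀ a, ξ a = ∑ v ∈ cell a, p v := ⟨_, fun _ => rfl⟩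
  obtain ⟨c, hc⟩ : ∃ c : Fin M → ℝ, ∀ a, c a = ((cell a).card : ℝ) := ⟨_, fun _ => rfl⟩
  have hN0 : (0 : ℝ) ≤ Fintype.card V := Nat.cast_nonneg _
  have hs0 : ∀ a, 0 ≤ s a := fun a => by rw [hs]; exact Nat.cast_nonneg _
  have hc0 : ∀ a, 0 ≤ c a := fun a => by rw [hc]; exact Nat.cast_nonneg _
  have hsub : ∀ a, S.filter (fun x => χ x = a) ⊆ cell a := by
    intro a x hx
    rw [Finset.mem_filter] at hx
    rw [hcell', Finset.mem_filter]
    exact ⟨mem_univ _, hx.2, hS x hx.1⟩
  have hsc : ∀ a, s a ≤ c a := fun a => by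
    rw [hs, hc]; exact_mod_cast Finset.card_le_card (hsub a)
  have hsx : ∀ a, s a ≤ ξ a + τ * Fintype.card V := by
    intro a
    have h1 := hW a
    rw [← hcell' a] at h1
    have h2 : ξ a = ∑ v ∈ cell a, η * dg G v / (2 * D) := by rw [hξ, hp]
    rw [← h2] at h1
    refine le_trans ?_ h1
    have h3 : S.filter (fun x => χ x = a) ⊆ W ∩ cell a := fun x hx =>
      mem_inter.2 ⟨hSW (mem_filter.1 hx).1, hsub a hx⟩
    rw [hs]
    exact_mod_cast Finset.card_le_card h3
  have hξc : ∀ a, η ^ 2 / 2 * c a ≤ ξ a := by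
    intro a
    calc η ^ 2 / 2 * c a = ∑ _v ∈ cell a, η ^ 2 / 2 := by
          rw [Finset.sum_const, nsmul_eq_mul, hc]; ring
      _ ≤ ∑ v ∈ cell a, p v := Finset.sum_le_sum fun v _ => hp1 v
      _ = ξ a := (hξ a).symm
  have hξ0 : ∀ a, 0 ≤ ξ a := fun a => le_trans (mul_nonneg (by positivity) (hc0 a)) (hξc a)
  refine ⟨fun v => if col v = b then min 1 (s (χ v) / ξ (χ v)) else 0,
    fun v => if col v = b then s (χ v) / c (χ v) else 0, ?_, ?_, ?_, ?_, ?_, ?_⟩
  · intro v
    dsimp only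
    split_ifs with h
    · exact ⟨le_min zero_le_one (div_nonneg (hs0 _) (hξ0 _)), min_le_left _ _⟩
    · exact ⟨le_rfl, zero_le_one⟩
  · intro v
    dsimp only
    split_ifs with h
    · exact ⟨div_nonneg (hs0 _) (hc0 _), div_le_one_of_le₀ (hsc _) (hc0 _)⟩
    · exact ⟨le_rfl, zero_le_one⟩
  · intro v hv
    dsimp only
    rw [if_neg hv]
  · intro a
    dsimp only
    have h1 : ∑ x ∈ univ.filter (fun x => χ x = a),
        (if col x = b then s (χ x) / c (χ x) else 0) = ∑ x ∈ cell a, s a / c a := by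
      rw [← Finset.sum_filter, Finset.filter_filter, hcell']
      refine Finset.sum_congr rfl fun x hx => ?_
      rw [(Finset.mem_filter.1 hx).2.1]
    rw [h1, Finset.sum_const, nsmul_eq_mul, ← hc, ← hs]
    rcases eq_or_lt_of_le (hc0 a) with h | h
    · have h2 : s a = 0 := le_antisymm (by rw [h]; exact hsc a) (hs0 a)
      rw [h2, zero_div, mul_zero]
    · field_simp
  · dsimp only
    have h1 : ∑ v, (if col v = b then min 1 (s (χ v) / ξ (χ v)) else 0) *
        (η * dg G v / (2 * D)) = ∑ a, min 1 (s a / ξ a) * ξ a := by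
      rw [← Finset.sum_fiberwise univ χ]
      refine Finset.sum_congr rfl fun a _ => ?_
      simp only [ite_mul, zero_mul]
      rw [← Finset.sum_filter, Finset.filter_filter, ← hcell', hξ, Finset.mul_sum]
      refine Finset.sum_congr rfl fun x hx => ?_
      rw [hcell'] at hx
      rw [(Finset.mem_filter.1 hx).2.1, hp, hξ, hp]
    have h2 : (S.card : ℝ) = ∑ a, s a := by
      rw [Finset.card_eq_sum_card_fiberwise (f := χ) (t := univ) (fun x _ => by simp)]
      push_cast
      exact Finset.sum_congr rfl fun a _ => (hs a).symm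
    have h3 : ∀ a, s a - τ * Fintype.card V ≤ min 1 (s a / ξ a) * ξ a := by
      intro a
      have h5 : 0 ≤ τ * Fintype.card V := mul_nonneg hτ.le hN0
      rcases eq_or_lt_of_le (hξ0 a) with h | h
      · have h4 := hsx a
        rw [← h] at h4 ⊢
        rw [mul_zero]
        linarith
      · rw [min_mul_of_nonneg _ _ h.le, one_mul, div_mul_cancel₀ _ h.ne']
        exact le_min (by linarith [hsx a]) (by linarith)
    calc (S.card : ℝ) - M * τ * Fintype.card V
        = ∑ a : Fin M, (s a - τ * Fintype.card V) := by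
          rw [Finset.sum_sub_distrib, Finset.sum_const, card_univ, Fintype.card_fin, nsmul_eq_mul,
            h2]
          ring
      _ ≤ ∑ a, min 1 (s a / ξ a) * ξ a := Finset.sum_le_sum fun a _ => h3 a
      _ = _ := h1.symm
  · intro v
    dsimp only
    split_ifs with h
    · have hv : v ∈ cell (χ v) := by rw [hcell']; simp [h]
      have hcp : 0 < c (χ v) := by
        rw [hc]; exact_mod_cast Finset.card_pos.2 ⟨v, hv⟩
      have hξp : 0 < ξ (χ v) := lt_of_lt_of_le (by positivity) (hξc _)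
      calc η ^ 2 / 2 * min 1 (s (χ v) / ξ (χ v)) ≤ η ^ 2 / 2 * (s (χ v) / ξ (χ v)) :=
            mul_le_mul_of_nonneg_left (min_le_right _ _) (by positivity)
        _ ≤ s (χ v) / c (χ v) := by
            rw [mul_div_assoc', div_le_div_iff₀ hξp hcp]
            have := mul_le_mul_of_nonneg_left (hξc (χ v)) (hs0 (χ v))
            nlinarith
    · simp

end LARGE

theorem large : S_LARGE := by
  intro V _ _ G col D η κ ζ γ τ s₀ e M χ W S T hD hη hη1 hγ hτ hs₀ hEx hBp hNH hWR hWRF hW hSW hTW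
    hS hT hSγ hTγ hST hζ
  obtain ⟨f, F, hf1, hF1, hf0, hFs, hfp, hfF⟩ := LARGE.key G col D η τ M χ W S true hD hη hEx.lo
    hτ (fun a => hW a true) hSW hS
  obtain ⟨g, H, hg1, hH1, hg0, hHs, hgp, hgH⟩ := LARGE.key G col D η τ M χ W T false hD hη hEx.lo
    hτ (fun a => hW a false) hTW hT
  have hN : (0 : ℝ) < Fintype.card V := by exact_mod_cast Fintype.card_pos
  have hp : ∀ v, η * dg G v / (2 * D) ≤ 1 := by
    intro v
    rw [div_le_one (by positivity)]
    linarith [hEx.hi v]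
  have hff : ∑ v, f v * (η * dg G v / (2 * D)) ≤ ∑ v, f v :=
    Finset.sum_le_sum fun v _ => mul_le_of_le_one_right (hf1 v).1 (hp v)
  have hgg : ∑ v, g v * (η * dg G v / (2 * D)) ≤ ∑ v, g v :=
    Finset.sum_le_sum fun v _ => mul_le_of_le_one_right (hg1 v).1 (hp v)
  have hprs : η * D * Fintype.card V ≤ prs G := by
    rw [LARGE.prs_eq]
    calc η * D * Fintype.card V = ∑ _v : V, η * D := by
          rw [Finset.sum_const, card_univ, nsmul_eq_mul]; ring
      _ ≤ _ := Finset.sum_le_sum fun v _ => hEx.lo v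
  have hM0 : (0 : ℝ) ≤ M := Nat.cast_nonneg _
  have hMτ : (0 : ℝ) ≤ M * τ := mul_nonneg hM0 hτ.le
  have hζ0 : 0 ≤ ζ := by
    by_contra hneg
    push Not at hneg
    have : ζ * η ^ 2 < 0 := mul_neg_of_neg_of_pos hneg (by positivity)
    nlinarith
  have h1 : κ * D * Fintype.card V ≤ fm G f g := by
    refine hNH f g hf1 hg1 (fun v hv => hf0 v (by rw [hv]; decide))
      (fun v hv => hg0 v (by rw [hv]; decide)) ?_ ?_ ?_
    · nlinarith
    · nlinarith
    · have hsum : ∑ v, (f v + g v) * dg G v = (2 * D / η) *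
          (∑ v, f v * (η * dg G v / (2 * D)) + ∑ v, g v * (η * dg G v / (2 * D))) := by
        rw [← Finset.sum_add_distrib, Finset.mul_sum]
        refine Finset.sum_congr rfl fun v _ => ?_
        field_simp
      rw [hsum]
      have h3 : η * prs G / (4 * D) - (s₀ + 2 * M * τ) * Fintype.card V ≤
          ∑ v, f v * (η * dg G v / (2 * D)) + ∑ v, g v * (η * dg G v / (2 * D)) := by
        nlinarith
      have h4 := mul_le_mul_of_nonneg_left h3 (show 0 ≤ 2 * D / η by positivity)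
      refine le_trans ?_ h4
      have h5 : 2 * D / η * (η * prs G / (4 * D) - (s₀ + 2 * M * τ) * Fintype.card V) =
          prs G / 2 - 2 * D / η * Fintype.card V * (s₀ + 2 * M * τ) := by
        field_simp
        ring
      rw [h5]
      have h6 : 2 * D / η * Fintype.card V * (s₀ + 2 * M * τ) ≤
          2 * D / η * Fintype.card V * (ζ * η ^ 2 / 4) :=
        mul_le_mul_of_nonneg_left (by linarith) (by positivity)
      have h7 : 2 * D / η * Fintype.card V * (ζ * η ^ 2 / 4) =
          ζ * (η * D * Fintype.card V) / 2 := by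
        field_simp
        ring
      have h8 := mul_le_mul_of_nonneg_left hprs hζ0
      linarith
  have h2 : η ^ 4 / 4 * fm G f g ≤ fm G F H := by
    unfold fm
    rw [Finset.mul_sum]
    refine Finset.sum_le_sum fun x _ => ?_
    rw [Finset.mul_sum]
    refine Finset.sum_le_sum fun y _ => ?_
    split_ifs with h
    · calc η ^ 4 / 4 * (f x * g y) = (η ^ 2 / 2 * f x) * (η ^ 2 / 2 * g y) := by ring
        _ ≤ F x * H y := mul_le_mul (hfF x) (hgH y)
            (mul_nonneg (by positivity) (hg1 y).1) (hF1 x).1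
    · simp
  have h3 := hWR S T
  have h4 := hWRF F H hF1 hH1
  rw [abs_le] at h3 h4
  simp only [hFs, hHs] at h4
  have h5 := mul_le_mul_of_nonneg_left h1 (show 0 ≤ η ^ 4 / 4 by positivity)
  linarith [h3.1, h3.2, h4.1, h4.2]

end Pool.Agent.H35.XR
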