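import Pool.Agent.H35.XR.Stm

/-! # XR-MGF (helper56) -/

set_option autoImplicit false
set_option linter.unusedSectionVars false

open Finset
open scoped Classical

namespace Pool.Agent.H35.XR

theorem mgf : S_MGF := by
  intro V _ p C z
  have h := Finset.prod_add (fun v => p v * (if v ∈ C then z else 1)) (fun v => 1 - p v)
    (Finset.univ : Finset V)
  have hL : ∏ v : V, (p v * (if v ∈ C then z else 1) + (1 - p v)) =
      ∏ v ∈ C, (1 + p v * (z - 1)) := by
    rw [← Finset.prod_subset (Finset.subset_univ C) (f := fun v =>
      (p v * (if v ∈ C then z else 1) + (1 - p v)))]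
    · refine Finset.prod_congr rfl fun v hv => ?_
      rw [if_pos hv]
      ring
    · intro v _ hv
      rw [if_neg hv]
      ring
  rw [hL] at h
  rw [h, Finset.powerset_univ]
  refine Finset.sum_congr rfl fun S _ => ?_
  rw [Finset.prod_mul_distrib]
  have h2 : ∏ v ∈ S, (if v ∈ C then z else 1) = z ^ (S ∩ C).card := by
    rw [← Finset.prod_filter, Finset.prod_const, Finset.filter_mem_eq_inter]
  rw [h2]
  ring

end Pool.Agent.H35.XR
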