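import Pool.Agent.H35.XR.Stm

/-! XR-NH (helper87): robust Hall condition for fractional sets of degree sum nearly half of the total. -/

set_option autoImplicit false
set_option linter.unusedSectionVars false

open Finset
open scoped Classical

namespace Pool.Agent.H35.XR

open Pool.Agent.H35.RD

namespace NHaux

variable {V : Type} [Fintype V] (G : SimpleGraph V) (col : V → Bool)

/-- indicator of adjacency -/
noncomputable def a (x y : V) : ℝ := if G.Adj x y then 1 else 0

/-- indicator of the colour `true` -/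
noncomputable def c (x : V) : ℝ := if col x = true then 1 else 0

lemma a_symm (x y : V) : a G x y = a G y x := by
  unfold a
  simp only [G.adj_comm x y]

lemma a_nonneg (x y : V) : 0 ≤ a G x y := by
  unfold a
  split_ifs <;> norm_num

lemma c_cases (x : V) : (col x = true ∧ c col x = 1) ∨ (col x = false ∧ c col x = 0) := by
  unfold c
  cases h : col x
  · right; simp
  · left; simp

variable {G col}

lemma a_c (h : Bp G col) (x y : V) : a G x y * c col x = a G x y * (1 - c col y) := by
  by_cases hxy : G.Adj x y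
  · have h1 := h x y hxy
    rcases c_cases col x with ⟨hx, hx'⟩ | ⟨hx, hx'⟩ <;> rcases c_cases col y with ⟨hy, hy'⟩ | ⟨hy, hy'⟩
    · exact absurd (hx.trans hy.symm) h1
    · rw [hx', hy']; ring
    · rw [hx', hy']; ring
    · exact absurd (hx.trans hy.symm) h1
  · unfold a
    rw [if_neg hxy, zero_mul, zero_mul]

lemma sum_a (x : V) : ∑ y, a G x y = dg G x := by
  unfold a dg
  rw [Finset.card_filter]
  push_cast
  rfl

lemma sum_sum_a : ∑ x, ∑ y, a G x y = prs G := by
  unfold a prs
  rw [Finset.card_filter, Fintype.sum_prod_type]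
  push_cast
  rfl

lemma L1 (u : V → ℝ) : ∑ x, ∑ y, a G x y * c col x * u x = ∑ x, c col x * u x * dg G x := by
  refine Finset.sum_congr rfl fun x _ => ?_
  rw [← sum_a, Finset.mul_sum]
  refine Finset.sum_congr rfl fun y _ => ?_
  ring

lemma L2 (h : Bp G col) (u : V → ℝ) :
    ∑ x, ∑ y, a G x y * c col x * u y = ∑ y, (1 - c col y) * u y * dg G y := by
  rw [Finset.sum_comm]
  refine Finset.sum_congr rfl fun y _ => ?_
  rw [← sum_a, Finset.mul_sum]
  refine Finset.sum_congr rfl fun x _ => ?_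
  rw [a_c h, a_symm]
  ring

lemma L3 (h : Bp G col) (F : V → V → ℝ) (hF : ∀ x y, F x y = F y x) :
    ∑ x, ∑ y, a G x y * F x y = 2 * ∑ x, ∑ y, a G x y * c col x * F x y := by
  have e1 : ∑ x, ∑ y, a G x y * F x y = ∑ x, ∑ y, a G x y * c col x * F x y +
      ∑ x, ∑ y, a G x y * (1 - c col x) * F x y := by
    rw [← Finset.sum_add_distrib]
    refine Finset.sum_congr rfl fun x _ => ?_
    rw [← Finset.sum_add_distrib]
    refine Finset.sum_congr rfl fun y _ => ?_
    ring
  have e2 : ∑ x, ∑ y, a G x y * (1 - c col x) * F x y = ∑ x, ∑ y, a G x y * c col x * F x y := by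
    rw [Finset.sum_comm]
    refine Finset.sum_congr rfl fun y _ => ?_
    refine Finset.sum_congr rfl fun x _ => ?_
    rw [a_symm G x y, ← a_c h y x, hF x y]
  rw [e1, e2]
  ring

end NHaux

open NHaux in
theorem nh : S_ISO → S_NH := by
  intro hISO V _ _ G col D η γ hD hη hη1 hγ hγ1 hEx hBp f g hf hg hf0 hg0 hfs hgs hdeg
  obtain ⟨N, hN⟩ : ∃ N : ℝ, N = Fintype.card V := ⟨_, rfl⟩
  have hN0 : 0 ≤ N := by rw [hN]; positivity
  rw [← hN] at hfs hgs ⊢
  obtain ⟨h, hh⟩ : ∃ h : V → ℝ, ∀ v, h v = if col v = true then f v else 1 - g v := ⟨_, fun _ => rfl⟩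
  have hh01 : ∀ v, 0 ≤ h v ∧ h v ≤ 1 := by
    intro v
    rw [hh]
    have h1 := hf v
    have h2 := hg v
    split_ifs
    · exact h1
    · constructor <;> linarith
  have hc01 : ∀ v, 0 ≤ c col v ∧ c col v ≤ 1 := by
    intro v
    rcases c_cases col v with ⟨_, hx⟩ | ⟨_, hx⟩ <;> rw [hx] <;> norm_num
  -- the number of edges
  obtain ⟨E, hE⟩ : ∃ E : ℝ, E = ∑ x, c col x * dg G x := ⟨_, rfl⟩
  have hE1 : ∑ x, ∑ y, a G x y * c col x = E := by
    have := L1 (G := G) (col := col) (fun _ => 1)
    simp only [mul_one] at this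
    rw [this, hE]
  have hE2 : ∑ x, (1 - c col x) * dg G x = E := by
    have := L2 hBp (fun _ => 1)
    simp only [mul_one] at this
    rw [← this, hE1]
  have hprs : (prs G : ℝ) = ∑ x, (dg G x : ℝ) := by
    rw [← sum_sum_a]
    exact Finset.sum_congr rfl fun x _ => sum_a x
  have h2E : (prs G : ℝ) = 2 * E := by
    rw [hprs]
    have : ∑ x, (dg G x : ℝ) = ∑ x, c col x * dg G x + ∑ x, (1 - c col x) * dg G x := by
      rw [← Finset.sum_add_distrib]
      exact Finset.sum_congr rfl fun x _ => by ring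
    rw [this, hE2, ← hE]
    ring
  have hElo : η * D * N / 2 ≤ E := by
    have : ∑ _x : V, η * D ≤ ∑ x, (dg G x : ℝ) := Finset.sum_le_sum fun x _ => hEx.lo x
    rw [Finset.sum_const, Finset.card_univ, nsmul_eq_mul, ← hN, ← hprs, h2E] at this
    linarith
  have hEhi : η * E ≤ N * D / 2 := by
    have : ∑ x, η * (dg G x : ℝ) ≤ ∑ _x : V, D := Finset.sum_le_sum fun x _ => hEx.hi x
    rw [Finset.sum_const, Finset.card_univ, nsmul_eq_mul, ← hN, ← Finset.mul_sum, ← hprs, h2E] at this
    linarith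
  -- the form of f, g
  have hfm : fm G f g = ∑ x, ∑ y, a G x y * c col x * (h x * (1 - h y)) := by
    unfold fm
    refine Finset.sum_congr rfl fun x _ => ?_
    refine Finset.sum_congr rfl fun y _ => ?_
    by_cases hxy : G.Adj x y
    · rw [if_pos hxy]
      have h1 := hBp x y hxy
      have ha : a G x y = 1 := by unfold a; rw [if_pos hxy]
      rw [ha, one_mul]
      rcases c_cases col x with ⟨hx, hx'⟩ | ⟨hx, hx'⟩
      · have hy : col y = false := by
          cases hy : col y
          · rfl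
          · exact absurd (hx.trans hy.symm) h1
        rw [hx', hh x, hh y, hx, hy]
        simp
      · rw [hx', hf0 x hx]
        ring
    · have ha : a G x y = 0 := by unfold a; rw [if_neg hxy]
      rw [if_neg hxy, ha]
      ring
  have hac : ∀ x y, 0 ≤ a G x y * c col x := fun x y => mul_nonneg (a_nonneg G x y) (hc01 x).1
  -- the linear sum
  have hlin : ∑ x, ∑ y, a G x y * c col x * (h x - h y) = ∑ v, (f v + g v) * dg G v - E := by
    have e1 : ∑ x, ∑ y, a G x y * c col x * (h x - h y) =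
        ∑ x, ∑ y, a G x y * c col x * h x - ∑ x, ∑ y, a G x y * c col x * h y := by
      rw [← Finset.sum_sub_distrib]
      refine Finset.sum_congr rfl fun x _ => ?_
      rw [← Finset.sum_sub_distrib]
      exact Finset.sum_congr rfl fun y _ => by ring
    rw [e1, L1, L2 hBp, ← hE2, ← Finset.sum_sub_distrib, ← Finset.sum_sub_distrib]
    refine Finset.sum_congr rfl fun v _ => ?_
    rcases c_cases col v with ⟨hx, hx'⟩ | ⟨hx, hx'⟩
    · rw [hx', hh v, hx, hg0 v hx]
      simp
    · rw [hx', hh v, hx, hf0 v hx]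
      simp
      ring
  obtain ⟨Z, hZ⟩ : ∃ Z : ℝ, Z = ∑ x, ∑ y, a G x y * c col x * |h x - h y| := ⟨_, rfl⟩
  have hsym : ∑ x, ∑ y, (if G.Adj x y then |h x - h y| else 0) = 2 * Z := by
    rw [hZ, ← L3 hBp (fun x y => |h x - h y|) (fun x y => abs_sub_comm _ _)]
    refine Finset.sum_congr rfl fun x _ => ?_
    refine Finset.sum_congr rfl fun y _ => ?_
    unfold a
    split_ifs <;> ring
  have hP : (Z + (∑ v, (f v + g v) * dg G v - E)) / 2 ≤ fm G f g := by
    rw [hfm, ← hlin, hZ, ← Finset.sum_add_distrib, Finset.sum_div]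
    refine Finset.sum_le_sum fun x _ => ?_
    rw [← Finset.sum_add_distrib, Finset.sum_div]
    refine Finset.sum_le_sum fun y _ => ?_
    have h1 : a G x y * c col x * |h x - h y| + a G x y * c col x * (h x - h y) =
        a G x y * c col x * (|h x - h y| + (h x - h y)) := by ring
    rw [h1, mul_div_assoc]
    refine mul_le_mul_of_nonneg_left ?_ (hac x y)
    have hx := hh01 x
    have hy := hh01 y
    rcases abs_cases (h x - h y) with ⟨h2, _⟩ | ⟨h2, _⟩ <;> rw [h2]
    · nlinarith [mul_nonneg hy.1 (sub_nonneg.2 hx.2)]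
    · have : 0 ≤ h x * (1 - h y) := mul_nonneg hx.1 (by linarith)
      linarith
  have hdeg' : (1 - γ * η ^ 4 / 32) * E ≤ ∑ v, (f v + g v) * dg G v := by
    rw [h2E] at hdeg
    have : (2 : ℝ) * E / 2 = E := by ring
    rwa [this] at hdeg
  by_cases hcase : γ * η ^ 3 / 16 * D * N ≤ Z
  · refine le_trans ?_ hP
    have h1 : γ * η ^ 4 / 32 * E ≤ γ * η ^ 3 / 64 * D * N := by
      have h2 : γ * η ^ 3 / 32 * (η * E) ≤ γ * η ^ 3 / 32 * (N * D / 2) :=
        mul_le_mul_of_nonneg_left hEhi (by positivity)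
      calc γ * η ^ 4 / 32 * E = γ * η ^ 3 / 32 * (η * E) := by ring
        _ ≤ γ * η ^ 3 / 32 * (N * D / 2) := h2
        _ = γ * η ^ 3 / 64 * D * N := by ring
    have h3 : 0 ≤ γ * η ^ 3 / 64 * D * N := by positivity
    linarith
  · push Not at hcase
    obtain ⟨v₀, hv₀⟩ := hISO V G D η hEx.ex h
    rw [hsym] at hv₀
    obtain ⟨θ, hθ⟩ : ∃ θ : ℝ, θ = h v₀ := ⟨_, rfl⟩
    rw [← hθ] at hv₀
    have hθ01 : 0 ≤ θ ∧ θ ≤ 1 := by rw [hθ]; exact hh01 v₀
    obtain ⟨Q, hQ⟩ : ∃ Q : ℝ, Q = ∑ v, |h v - θ| := ⟨_, rfl⟩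
    rw [← hQ] at hv₀
    have hQ0 : 0 ≤ Q := by rw [hQ]; exact Finset.sum_nonneg fun _ _ => abs_nonneg _
    have hQ1 : Q ≤ γ * η ^ 2 / 16 * N := by
      have h1 : (η * D) * Q ≤ (η * D) * (γ * η ^ 2 / 16 * N) := by
        calc (η * D) * Q ≤ Z := by linarith
          _ ≤ γ * η ^ 3 / 16 * D * N := hcase.le
          _ = (η * D) * (γ * η ^ 2 / 16 * N) := by ring
      exact le_of_mul_le_mul_left h1 (by positivity)
    have hη2 : η ^ 2 ≤ 1 := pow_le_one₀ hη.le hη1
    have hNpos : 0 < N := by rw [hN]; exact_mod_cast Fintype.card_pos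
    have hθlo : γ / 2 ≤ θ := by
      have h1 : ∑ v, f v ≤ ∑ v : V, (θ + |h v - θ|) := by
        refine Finset.sum_le_sum fun v _ => ?_
        rcases c_cases col v with ⟨hx, _⟩ | ⟨hx, _⟩
        · have : h v = f v := by rw [hh v, if_pos hx]
          rw [← this]
          have := le_abs_self (h v - θ)
          linarith
        · rw [hf0 v hx]
          have := abs_nonneg (h v - θ)
          linarith [hθ01.1]
      rw [Finset.sum_add_distrib, Finset.sum_const, Finset.card_univ, nsmul_eq_mul, ← hN, ← hQ] at h1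
      have h2 : γ * N ≤ N * θ + γ / 16 * N := by
        have : γ * η ^ 2 / 16 * N ≤ γ / 16 * N := by
          have : γ * η ^ 2 ≤ γ := by nlinarith
          nlinarith
        linarith
      have h3 : N * (γ / 2) ≤ N * θ := by nlinarith
      exact le_of_mul_le_mul_left h3 hNpos
    have hθhi : γ / 2 ≤ 1 - θ := by
      have h1 : ∑ v, g v ≤ ∑ v : V, ((1 - θ) + |h v - θ|) := by
        refine Finset.sum_le_sum fun v _ => ?_
        rcases c_cases col v with ⟨hx, _⟩ | ⟨hx, _⟩
        · rw [hg0 v hx]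
          have := abs_nonneg (h v - θ)
          linarith [hθ01.2]
        · have : h v = 1 - g v := by rw [hh v, if_neg (by rw [hx]; simp)]
          have h2 := neg_abs_le (h v - θ)
          linarith
      rw [Finset.sum_add_distrib, Finset.sum_const, Finset.card_univ, nsmul_eq_mul, ← hN, ← hQ] at h1
      have h2 : γ * N ≤ N * (1 - θ) + γ / 16 * N := by
        have : γ * η ^ 2 / 16 * N ≤ γ / 16 * N := by
          have : γ * η ^ 2 ≤ γ := by nlinarith
          nlinarith
        linarith
      have h3 : N * (γ / 2) ≤ N * (1 - θ) := by nlinarith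
      exact le_of_mul_le_mul_left h3 hNpos
    have hθθ : γ / 4 ≤ θ * (1 - θ) := by
      rcases le_total θ (1 / 2) with h1 | h1
      · nlinarith
      · nlinarith
    have hlow : θ * (1 - θ) * E - ∑ v, (dg G v : ℝ) * |h v - θ| ≤ fm G f g := by
      have e1 : ∑ v, (dg G v : ℝ) * |h v - θ| =
          ∑ x, ∑ y, a G x y * c col x * |h x - θ| + ∑ x, ∑ y, a G x y * c col x * |h y - θ| := by
        rw [L1 (fun x => |h x - θ|), L2 hBp (fun y => |h y - θ|), ← Finset.sum_add_distrib]
        exact Finset.sum_congr rfl fun x _ => by ring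
      rw [e1, hfm, ← hE1, Finset.mul_sum, ← Finset.sum_add_distrib, ← Finset.sum_sub_distrib]
      refine Finset.sum_le_sum fun x _ => ?_
      rw [Finset.mul_sum, ← Finset.sum_add_distrib, ← Finset.sum_sub_distrib]
      refine Finset.sum_le_sum fun y _ => ?_
      have h1 : θ * (1 - θ) * (a G x y * c col x) - (a G x y * c col x * |h x - θ| +
          a G x y * c col x * |h y - θ|) =
          a G x y * c col x * (θ * (1 - θ) - |h x - θ| - |h y - θ|) := by ring
      rw [h1]
      refine mul_le_mul_of_nonneg_left ?_ (hac x y)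
      have hx := hh01 x
      have hy := hh01 y
      have h2 : h x * (1 - h y) - θ * (1 - θ) = (h x - θ) * (1 - h y) + θ * (θ - h y) := by ring
      have h3 : -|h x - θ| ≤ (h x - θ) * (1 - h y) := by
        have h4 := neg_abs_le (h x - θ)
        have h5 := abs_nonneg (h x - θ)
        nlinarith
      have h6 : -|h y - θ| ≤ θ * (θ - h y) := by
        have h4 := le_abs_self (h y - θ)
        have h5 := abs_nonneg (h y - θ)
        nlinarith [hθ01.1, hθ01.2]
      linarith
    have hsum : ∑ v, (dg G v : ℝ) * |h v - θ| ≤ γ * η / 16 * D * N := by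
      have h1 : η * ∑ v, (dg G v : ℝ) * |h v - θ| ≤ D * Q := by
        rw [hQ, Finset.mul_sum, Finset.mul_sum]
        refine Finset.sum_le_sum fun v _ => ?_
        rw [← mul_assoc]
        exact mul_le_mul_of_nonneg_right (hEx.hi v) (abs_nonneg _)
      have h2 : η * ∑ v, (dg G v : ℝ) * |h v - θ| ≤ η * (γ * η / 16 * D * N) := by
        calc η * ∑ v, (dg G v : ℝ) * |h v - θ| ≤ D * Q := h1
          _ ≤ D * (γ * η ^ 2 / 16 * N) := mul_le_mul_of_nonneg_left hQ1 hD.le
          _ = η * (γ * η / 16 * D * N) := by ring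
      exact le_of_mul_le_mul_left h2 hη
    have hE0 : 0 ≤ E := le_trans (by positivity) hElo
    have h1 : γ / 4 * (η * D * N / 2) ≤ θ * (1 - θ) * E := by
      calc γ / 4 * (η * D * N / 2) ≤ γ / 4 * E := mul_le_mul_of_nonneg_left hElo (by positivity)
        _ ≤ θ * (1 - θ) * E := mul_le_mul_of_nonneg_right hθθ hE0
    have h2 : γ * η ^ 3 / 64 * D * N ≤ γ * η / 16 * D * N := by
      have h3 : η ^ 3 ≤ η := by nlinarith
      have h4 : γ * η ^ 3 / 64 ≤ γ * η / 16 := by nlinarith
      have h5 : 0 ≤ D * N := by positivity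
      nlinarith
    have h3 : γ / 4 * (η * D * N / 2) = 2 * (γ * η / 16 * D * N) := by ring
    linarith

end Pool.Agent.H35.XR
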