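import Pool.Agent.H35.XR.Stm

/-! Stub XR-SAMP: the union bound. -/

set_option autoImplicit false

open Finset
open scoped Classical

namespace Pool.Agent.H35.XR

/-- Union bound. -/
theorem samp : S_MGF → S_TAIL → S_SAMP := by
  intro hmgf htail V _ p hp m C Q τ μ hτ hτ1 hμ hQ hlt
  by_contra hcon
  push Not at hcon
  let w : Finset V → ℝ := fun S => (∏ v ∈ S, p v) * ∏ v ∈ univ \ S, (1 - p v)
  have hw : ∀ S, 0 ≤ w S := fun S => mul_nonneg (prod_nonneg fun v _ => (hp v).1)
    (prod_nonneg fun v _ => sub_nonneg.2 (hp v).2)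
  have hsum : ∑ S : Finset V, w S = 1 := by
    have h := hmgf V p ∅ 1
    simp only [inter_empty, card_empty, pow_zero, mul_one, prod_empty] at h
    exact h
  have hpt : ∀ S : Finset V, w S ≤
      ∑ i, (if ∑ v ∈ C i, p v + τ * Fintype.card V < ((S ∩ C i).card : ℝ) then w S else 0) +
      ∑ i, (if ((S ∩ C i).card : ℝ) < ∑ v ∈ C i, p v - τ * Fintype.card V then w S else 0) +
      ∑ v, (if ((S ∩ Q v).card : ℝ) < μ / 4 then w S else 0) := by
    intro S
    have hn1 : ∀ i, 0 ≤ (if ∑ v ∈ C i, p v + τ * Fintype.card V < ((S ∩ C i).card : ℝ) then w S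
        else 0) := fun i => by
      split_ifs
      · exact hw S
      · exact le_rfl
    have hn2 : ∀ i, 0 ≤ (if ((S ∩ C i).card : ℝ) < ∑ v ∈ C i, p v - τ * Fintype.card V then w S
        else 0) := fun i => by
      split_ifs
      · exact hw S
      · exact le_rfl
    have hn3 : ∀ v, 0 ≤ (if ((S ∩ Q v).card : ℝ) < μ / 4 then w S else 0) := fun v => by
      split_ifs
      · exact hw S
      · exact le_rfl
    have s1 : 0 ≤ ∑ i, (if ∑ v ∈ C i, p v + τ * Fintype.card V < ((S ∩ C i).card : ℝ) then w S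
        else 0) := sum_nonneg fun i _ => hn1 i
    have s2 : 0 ≤ ∑ i, (if ((S ∩ C i).card : ℝ) < ∑ v ∈ C i, p v - τ * Fintype.card V then w S
        else 0) := sum_nonneg fun i _ => hn2 i
    have s3 : 0 ≤ ∑ v, (if ((S ∩ Q v).card : ℝ) < μ / 4 then w S else 0) :=
      sum_nonneg fun v _ => hn3 v
    by_cases h : ∀ i, |((S ∩ C i).card : ℝ) - ∑ v ∈ C i, p v| ≤ τ * Fintype.card V
    · obtain ⟨v, hv⟩ := hcon S h
      have h1 := single_le_sum (f := fun v => if ((S ∩ Q v).card : ℝ) < μ / 4 then w S else 0)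
        (fun v _ => hn3 v) (mem_univ v)
      simp only [if_pos hv] at h1
      linarith
    · push Not at h
      obtain ⟨i, hi⟩ := h
      rcases lt_abs.1 hi with h2 | h2
      · have h3 : ∑ v ∈ C i, p v + τ * Fintype.card V < ((S ∩ C i).card : ℝ) := by linarith
        have h1 := single_le_sum (f := fun i =>
          if ∑ v ∈ C i, p v + τ * Fintype.card V < ((S ∩ C i).card : ℝ) then w S else 0)
          (fun v _ => hn1 v) (mem_univ i)
        simp only [if_pos h3] at h1
        linarith
      · have h3 : ((S ∩ C i).card : ℝ) < ∑ v ∈ C i, p v - τ * Fintype.card V := by linarith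
        have h1 := single_le_sum (f := fun i =>
          if ((S ∩ C i).card : ℝ) < ∑ v ∈ C i, p v - τ * Fintype.card V then w S else 0)
          (fun v _ => hn2 v) (mem_univ i)
        simp only [if_pos h3] at h1
        linarith
  have htot := sum_le_sum (s := (univ : Finset (Finset V))) fun S _ => hpt S
  rw [hsum, sum_add_distrib, sum_add_distrib, sum_comm, sum_comm (s := univ) (t := univ)
    (f := fun (S : Finset V) (i : Fin m) =>
      if ((S ∩ C i).card : ℝ) < ∑ v ∈ C i, p v - τ * Fintype.card V then w S else 0),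
    sum_comm (s := univ) (t := univ)
    (f := fun (S : Finset V) (v : V) => if ((S ∩ Q v).card : ℝ) < μ / 4 then w S else 0)] at htot
  have t1 : ∑ i : Fin m, ∑ S : Finset V,
      (if ∑ v ∈ C i, p v + τ * Fintype.card V < ((S ∩ C i).card : ℝ) then w S else 0) ≤
      m * Real.exp (-(τ ^ 2 * Fintype.card V / 4)) := by
    calc _ ≤ ∑ _i : Fin m, Real.exp (-(τ ^ 2 * Fintype.card V / 4)) := by
          refine sum_le_sum fun i _ => ?_
          rw [← sum_filter]
          exact (htail V p hp (C i) τ μ hτ hτ1 hμ).1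
      _ = _ := by simp
  have t2 : ∑ i : Fin m, ∑ S : Finset V,
      (if ((S ∩ C i).card : ℝ) < ∑ v ∈ C i, p v - τ * Fintype.card V then w S else 0) ≤
      m * Real.exp (-(τ ^ 2 * Fintype.card V / 4)) := by
    calc _ ≤ ∑ _i : Fin m, Real.exp (-(τ ^ 2 * Fintype.card V / 4)) := by
          refine sum_le_sum fun i _ => ?_
          rw [← sum_filter]
          exact (htail V p hp (C i) τ μ hτ hτ1 hμ).2.1
      _ = _ := by simp
  have t3 : ∑ v : V, ∑ S : Finset V, (if ((S ∩ Q v).card : ℝ) < μ / 4 then w S else 0) ≤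
      Fintype.card V * Real.exp (-(3 * μ / 10)) := by
    calc _ ≤ ∑ _v : V, Real.exp (-(3 * μ / 10)) := by
          refine sum_le_sum fun v _ => ?_
          rw [← sum_filter]
          exact (htail V p hp (Q v) τ μ hτ hτ1 hμ).2.2 (hQ v)
      _ = _ := by simp
  linarith

end Pool.Agent.H35.XR
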