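import Pool.Agent.H35.XR.Stm

/-!
# Stub XR-SMALL: the case of small sets
-/

set_option autoImplicit false

open Finset
open scoped Classical

namespace Pool.Agent.H35.XR

open Pool.Agent.H35.RD

namespace SMALL

theorem ee_comm {V : Type} [Fintype V] (G : SimpleGraph V) (S T : Finset V) : ee G S T = ee G T S := by
  unfold ee
  refine Finset.card_bij (fun z _ => (z.2, z.1)) ?_ ?_ ?_
  · intro z hz
    rw [Finset.mem_filter, Finset.mem_product] at hz ⊢
    exact ⟨⟨hz.1.2, hz.1.1⟩, hz.2.symm⟩
  · intro z _ z' _ h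
    exact Prod.ext (congrArg Prod.snd h) (congrArg Prod.fst h)
  · intro z hz
    rw [Finset.mem_filter, Finset.mem_product] at hz
    exact ⟨(z.2, z.1), by rw [Finset.mem_filter, Finset.mem_product]; exact ⟨⟨hz.1.2, hz.1.1⟩, hz.2.symm⟩, rfl⟩

theorem ee_union {V : Type} [Fintype V] (G : SimpleGraph V) (S T U : Finset V) (h : Disjoint T U) :
    ee G S (T ∪ U) = ee G S T + ee G S U := by
  unfold ee
  rw [Finset.product_union, Finset.filter_union, Finset.card_union_of_disjoint]
  refine Finset.disjoint_filter_filter ?_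
  rw [Finset.disjoint_left]
  intro z hz hz'
  rw [Finset.mem_product] at hz hz'
  exact Finset.disjoint_left.1 h hz.2 hz'.2

theorem ee_sum {V : Type} [Fintype V] (G : SimpleGraph V) (S T : Finset V) :
    ee G S T = ∑ x ∈ S, ee G {x} T := by
  induction S using Finset.induction_on with
  | empty => simp [ee]
  | insert a S ha ih =>
    rw [Finset.sum_insert ha, ← ih, ee_comm G (insert a S) T, Finset.insert_eq, ee_union,
      ee_comm G T {a}, ee_comm G T S]
    exact Finset.disjoint_singleton_left.2 ha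

theorem half {V : Type} [Fintype V] (G : SimpleGraph V) (X Y S T : Finset V) (α M₀ D δ γ : ℝ) (r : ℕ)
    (hα : 0 < α) (hM : 0 < M₀) (hD : 0 < D) (hγ : 0 < γ) (hN : ((Fintype.card V : ℕ) : ℝ) ^ α ≤ D)
    (hsp : ∀ S T : Finset V, (ee G S T : ℝ) ≤ M₀ * ((S.card : ℝ) + T.card) ^ (1 + α))
    (hX : ∀ x ∈ X, δ * D ≤ ee G {x} Y) (hXY : X.card = Y.card) (hS : S ⊆ X) (hT : T ⊆ Y)
    (hSN : (S.card : ℝ) ≤ γ * Fintype.card V) (hM2 : 4 * M₀ * (2 * γ) ^ α ≤ δ)
    (hr : (r : ℝ) ≤ δ * D / 2) : r * (S.card + T.card) ≤ ee G S T + r * X.card := by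
  rcases le_or_gt (S.card + T.card) X.card with h | h
  · exact (Nat.mul_le_mul_left r h).trans (Nat.le_add_left _ _)
  · have hTY : T.card ≤ Y.card := Finset.card_le_card hT
    have h1 : (Y \ T).card ≤ S.card := by
      rw [Finset.card_sdiff_of_subset hT]; omega
    have h2 : (ee G S Y : ℝ) = ee G S T + ee G S (Y \ T) := by
      rw [← Nat.cast_add, ← ee_union G S T (Y \ T) Finset.disjoint_sdiff, Finset.union_sdiff_of_subset hT]
    have h3 : δ * D * S.card ≤ (ee G S Y : ℝ) := by
      rw [ee_sum, Nat.cast_sum]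
      calc δ * D * S.card = ∑ _x ∈ S, δ * D := by rw [Finset.sum_const, nsmul_eq_mul]; ring
        _ ≤ _ := Finset.sum_le_sum fun x hx => hX x (hS hx)
    have hs0 : (0 : ℝ) ≤ S.card := Nat.cast_nonneg _
    have hN0 : (0 : ℝ) ≤ Fintype.card V := Nat.cast_nonneg _
    have h4 : (ee G S (Y \ T) : ℝ) ≤ δ * D * S.card / 2 := by
      refine (hsp S (Y \ T)).trans ?_
      have h5 : ((S.card : ℝ) + (Y \ T).card) ^ (1 + α) ≤ (2 * S.card) ^ (1 + α) := by
        refine Real.rpow_le_rpow (by positivity) ?_ (by positivity)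
        have : ((Y \ T).card : ℝ) ≤ S.card := by exact_mod_cast h1
        linarith
      have h6 : (2 * (S.card : ℝ)) ^ (1 + α) = 2 * S.card * (2 * S.card) ^ α := by
        rw [Real.rpow_add' (by positivity) (by positivity), Real.rpow_one]
      have h7 : (2 * (S.card : ℝ)) ^ α ≤ (2 * γ) ^ α * D := by
        calc (2 * (S.card : ℝ)) ^ α ≤ ((2 * γ) * Fintype.card V) ^ α :=
              Real.rpow_le_rpow (by positivity) (by linarith) hα.le
          _ = (2 * γ) ^ α * (Fintype.card V : ℝ) ^ α := Real.mul_rpow (by positivity) hN0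
          _ ≤ _ := mul_le_mul_of_nonneg_left hN (by positivity)
      calc M₀ * ((S.card : ℝ) + (Y \ T).card) ^ (1 + α) ≤ M₀ * (2 * S.card * ((2 * γ) ^ α * D)) := by
            refine mul_le_mul_of_nonneg_left (h5.trans ?_) hM.le
            rw [h6]
            exact mul_le_mul_of_nonneg_left h7 (by positivity)
        _ = (4 * M₀ * (2 * γ) ^ α) * (D * S.card) / 2 := by ring
        _ ≤ δ * (D * S.card) / 2 := by
            have : 0 ≤ D * S.card := by positivity
            have := mul_le_mul_of_nonneg_right hM2 this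
            linarith
        _ = δ * D * S.card / 2 := by ring
    have h8 : (r : ℝ) * S.card ≤ ee G S T := by
      have h9 : (r : ℝ) * S.card ≤ δ * D / 2 * S.card := mul_le_mul_of_nonneg_right hr hs0
      linarith
    have h10 : r * S.card ≤ ee G S T := by exact_mod_cast h8
    rw [mul_add]
    exact Nat.add_le_add h10 (Nat.mul_le_mul_left r (by rw [hXY]; exact hTY))

end SMALL

theorem small : S_SMALL := by
  intro V _ G X Y S T α M₀ D δ γ r hα hM hD hδ hγ hN hsp hX hY hXY hS hT hST hM2 hr
  rcases hST with h | h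
  · exact SMALL.half G X Y S T α M₀ D δ γ r hα hM hD hγ hN hsp hX hXY hS hT h hM2 hr
  · have := SMALL.half G Y X T S α M₀ D δ γ r hα hM hD hγ hN hsp hY hXY.symm hT hS h hM2 hr
    rw [SMALL.ee_comm G T S, ← hXY, add_comm T.card] at this
    exact this

end Pool.Agent.H35.XR
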