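import Pool.Agent.H35.XR.Stm

/-! # XR-TAIL (helper67): tail bounds -/

set_option autoImplicit false
set_option linter.unusedSectionVars false

open Finset
open scoped Classical

namespace Pool.Agent.H35.XR

namespace TAIL

variable {V : Type} [Fintype V]

/-- the weight of a set -/
noncomputable def w (p : V → ℝ) (S : Finset V) : ℝ := (∏ v ∈ S, p v) * ∏ v ∈ univ \ S, (1 - p v)

theorem w_nonneg {p : V → ℝ} (hp : ∀ v, 0 ≤ p v ∧ p v ≤ 1) (S : Finset V) : 0 ≤ w p S :=
  mul_nonneg (prod_nonneg fun v _ => (hp v).1) (prod_nonneg fun v _ => by linarith [(hp v).2])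

theorem markov (hM : S_MGF) {p : V → ℝ} (hp : ∀ v, 0 ≤ p v ∧ p v ≤ 1) (C : Finset V) (θ b : ℝ)
    (A : Finset (Finset V)) (hA : ∀ S ∈ A, b ≤ θ * (S ∩ C).card) :
    ∑ S ∈ A, w p S ≤ Real.exp ((∑ v ∈ C, p v) * (Real.exp θ - 1) - b) := by
  have h1 : ∑ S ∈ A, w p S ≤ ∑ S ∈ A, (w p S * Real.exp θ ^ (S ∩ C).card) * Real.exp (-b) := by
    refine sum_le_sum fun S hS => ?_
    rw [mul_assoc, ← Real.exp_nat_mul, ← Real.exp_add]
    have h2 : 1 ≤ Real.exp (((S ∩ C).card : ℝ) * θ + -b) := by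
      apply Real.one_le_exp
      have := hA S hS
      linarith
    have := w_nonneg hp S
    nlinarith
  have h2 : ∑ S ∈ A, (w p S * Real.exp θ ^ (S ∩ C).card) * Real.exp (-b) ≤
      ∑ S : Finset V, (w p S * Real.exp θ ^ (S ∩ C).card) * Real.exp (-b) :=
    sum_le_sum_of_subset_of_nonneg (subset_univ _) fun S _ _ =>
      mul_nonneg (mul_nonneg (w_nonneg hp S) (by positivity)) (by positivity)
  refine (h1.trans h2).trans ?_
  rw [← sum_mul]
  have h3 : ∑ S : Finset V, w p S * Real.exp θ ^ (S ∩ C).card =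
      ∏ v ∈ C, (1 + p v * (Real.exp θ - 1)) := hM V p C (Real.exp θ)
  rw [h3]
  have h4 : ∏ v ∈ C, (1 + p v * (Real.exp θ - 1)) ≤ ∏ v ∈ C, Real.exp (p v * (Real.exp θ - 1)) := by
    refine prod_le_prod (fun v _ => ?_) (fun v _ => ?_)
    · have h5 := (hp v).1
      have h6 := (hp v).2
      have h7 : 0 ≤ p v * Real.exp θ := by positivity
      linarith
    · have := Real.add_one_le_exp (p v * (Real.exp θ - 1))
      linarith
  rw [← Real.exp_sum, ← sum_mul] at h4
  calc (∏ v ∈ C, (1 + p v * (Real.exp θ - 1))) * Real.exp (-b)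
      ≤ Real.exp ((∑ v ∈ C, p v) * (Real.exp θ - 1)) * Real.exp (-b) :=
        mul_le_mul_of_nonneg_right h4 (by positivity)
    _ = Real.exp ((∑ v ∈ C, p v) * (Real.exp θ - 1) - b) := by rw [← Real.exp_add]; rfl

end TAIL

theorem tail : S_MGF → S_TAIL := by
  intro hM V _ p hp C τ μ hτ hτ1 hμ
  have hξ0 : 0 ≤ ∑ v ∈ C, p v := sum_nonneg fun v _ => (hp v).1
  have hξN : ∑ v ∈ C, p v ≤ Fintype.card V := by
    calc ∑ v ∈ C, p v ≤ ∑ v ∈ C, (1 : ℝ) := sum_le_sum fun v _ => (hp v).2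
      _ = C.card := by simp
      _ ≤ Fintype.card V := by exact_mod_cast card_le_univ C
  refine ⟨?_, ?_, fun hμξ => ?_⟩
  · refine (TAIL.markov hM hp C (τ / 2) (τ / 2 * (∑ v ∈ C, p v + τ * Fintype.card V)) _
      (fun S hS => ?_)).trans ?_
    · rw [mem_filter] at hS
      exact mul_le_mul_of_nonneg_left hS.2.le (by positivity)
    · rw [Real.exp_le_exp]
      have h1 := Real.abs_exp_sub_one_sub_id_le (x := τ / 2) (by
        rw [abs_of_nonneg (by positivity)]; linarith)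
      have h2 : Real.exp (τ / 2) - 1 ≤ τ / 2 + (τ / 2) ^ 2 := by
        have := le_abs_self (Real.exp (τ / 2) - 1 - τ / 2)
        linarith
      have h3 : (∑ v ∈ C, p v) * (Real.exp (τ / 2) - 1) ≤
          (∑ v ∈ C, p v) * (τ / 2 + (τ / 2) ^ 2) := mul_le_mul_of_nonneg_left h2 hξ0
      have h4 : (∑ v ∈ C, p v) * (τ ^ 2 / 4) ≤ Fintype.card V * (τ ^ 2 / 4) :=
        mul_le_mul_of_nonneg_right hξN (by positivity)
      nlinarith
  · refine (TAIL.markov hM hp C (-(τ / 2)) (-(τ / 2) * (∑ v ∈ C, p v - τ * Fintype.card V)) _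
      (fun S hS => ?_)).trans ?_
    · rw [mem_filter] at hS
      have h0 : 0 < τ / 2 := by positivity
      nlinarith [hS.2]
    · rw [Real.exp_le_exp]
      have h1 := Real.abs_exp_sub_one_sub_id_le (x := -(τ / 2)) (by
        rw [abs_neg, abs_of_nonneg (by positivity)]; linarith)
      have h2 : Real.exp (-(τ / 2)) - 1 ≤ -(τ / 2) + (τ / 2) ^ 2 := by
        have := le_abs_self (Real.exp (-(τ / 2)) - 1 - -(τ / 2))
        have e : (-(τ / 2)) ^ 2 = (τ / 2) ^ 2 := by ring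
        rw [e] at h1
        linarith
      have h3 : (∑ v ∈ C, p v) * (Real.exp (-(τ / 2)) - 1) ≤
          (∑ v ∈ C, p v) * (-(τ / 2) + (τ / 2) ^ 2) := mul_le_mul_of_nonneg_left h2 hξ0
      have h4 : (∑ v ∈ C, p v) * (τ ^ 2 / 4) ≤ Fintype.card V * (τ ^ 2 / 4) :=
        mul_le_mul_of_nonneg_right hξN (by positivity)
      nlinarith
  · refine (TAIL.markov hM hp C (-Real.log 2) (-Real.log 2 * (μ / 4)) _
      (fun S hS => ?_)).trans ?_
    · rw [mem_filter] at hS
      have h0 : 0 < Real.log 2 := Real.log_pos (by norm_num)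
      nlinarith [hS.2]
    · rw [Real.exp_le_exp, Real.exp_neg, Real.exp_log (by norm_num)]
      have h1 := Real.log_two_lt_d9
      nlinarith

end Pool.Agent.H35.XR
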