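import Pool.Agent.H35.XR.BAL
import Pool.Agent.H35.XR.CORE
import Pool.Agent.H35.XR.EXT
import Pool.Agent.H35.XR.ISO
import Pool.Agent.H35.XR.LARGE
import Pool.Agent.H35.XR.MGF
import Pool.Agent.H35.XR.NH
import Pool.Agent.H35.XR.SAMP
import Pool.Agent.H35.XR.SMALL
import Pool.Agent.H35.XR.TAIL

/-! Assembly of the steps. -/

set_option autoImplicit false

namespace Pool.Agent.H35.XR

theorem core_all : S_CORE := core (nh iso) (samp mgf (tail mgf)) ext large small bal

end Pool.Agent.H35.XR
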