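import Pool.Agent.H35.XR.Stm3
import Pool.Agent.H35.XR.CORE
import Pool.Agent.H35.XR.SMALL

/-!
# XR-CORE2: assembly, choice of the constants, with expansion
-/

set_option autoImplicit false
set_option linter.unusedSectionVars false

open Finset Filter Topology
open scoped Classical

namespace Pool.Agent.H35.XR

open Pool.Agent.H35.RD

/-- small sets -/
theorem CORE2_small {V : Type} [Fintype V] (G : SimpleGraph V) (S Z U : Finset V) (α M₀ D δ γ : ℝ)
    (hα : 0 < α) (hM : 0 < M₀) (hD : 0 < D) (hγ : 0 < γ) (hN : ((Fintype.card V : ℕ) : ℝ) ^ α ≤ D)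
    (hsp : ∀ S T : Finset V, (ee G S T : ℝ) ≤ M₀ * ((S.card : ℝ) + T.card) ^ (1 + α))
    (hX : ∀ x ∈ S, δ * D ≤ ee G {x} Z) (hU : U ⊆ Z) (hc : (Z \ U).card ≤ 2 * S.card)
    (hSN : (S.card : ℝ) ≤ γ * Fintype.card V) (hg : 6 * M₀ * (3 * γ) ^ α ≤ δ) :
    δ / 2 * D * S.card ≤ ee G S U := by
  have h2 : (ee G S Z : ℝ) = ee G S U + ee G S (Z \ U) := by
    rw [← Nat.cast_add, ← SMALL.ee_union G S U (Z \ U) Finset.disjoint_sdiff,
      Finset.union_sdiff_of_subset hU]
  have h3 : δ * D * S.card ≤ (ee G S Z : ℝ) := by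
    rw [SMALL.ee_sum, Nat.cast_sum]
    calc δ * D * S.card = ∑ _x ∈ S, δ * D := by rw [Finset.sum_const, nsmul_eq_mul]; ring
      _ ≤ _ := Finset.sum_le_sum fun x hx => hX x hx
  have hs0 : (0 : ℝ) ≤ S.card := Nat.cast_nonneg _
  have hN0 : (0 : ℝ) ≤ Fintype.card V := Nat.cast_nonneg _
  have h4 : (ee G S (Z \ U) : ℝ) ≤ δ * D * S.card / 2 := by
    refine (hsp S (Z \ U)).trans ?_
    have h5 : ((S.card : ℝ) + (Z \ U).card) ^ (1 + α) ≤ (3 * S.card) ^ (1 + α) := by
      refine Real.rpow_le_rpow (by positivity) ?_ (by positivity)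
      have : ((Z \ U).card : ℝ) ≤ 2 * S.card := by exact_mod_cast hc
      linarith
    have h6 : (3 * (S.card : ℝ)) ^ (1 + α) = 3 * S.card * (3 * S.card) ^ α := by
      rw [Real.rpow_add' (by positivity) (by positivity), Real.rpow_one]
    have h7 : (3 * (S.card : ℝ)) ^ α ≤ (3 * γ) ^ α * D := by
      calc (3 * (S.card : ℝ)) ^ α ≤ ((3 * γ) * Fintype.card V) ^ α :=
            Real.rpow_le_rpow (by positivity) (by linarith) hα.le
        _ = (3 * γ) ^ α * (Fintype.card V : ℝ) ^ α := Real.mul_rpow (by positivity) hN0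
        _ ≤ _ := mul_le_mul_of_nonneg_left hN (by positivity)
    calc M₀ * ((S.card : ℝ) + (Z \ U).card) ^ (1 + α) ≤ M₀ * (3 * S.card * ((3 * γ) ^ α * D)) := by
          refine mul_le_mul_of_nonneg_left (h5.trans ?_) hM.le
          rw [h6]
          exact mul_le_mul_of_nonneg_left h7 (by positivity)
      _ = (6 * M₀ * (3 * γ) ^ α) * (D * S.card) / 2 := by ring
      _ ≤ δ * (D * S.card) / 2 := by
          have : 0 ≤ D * S.card := by positivity
          have := mul_le_mul_of_nonneg_right hg this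
          linarith
      _ = δ * D * S.card / 2 := by ring
  linarith

theorem core2 : S_NH → S_NH2 → S_SAMP → S_EXT → S_LARGE → S_LARGE2 → S_BAL → S_CORE2 := by
  intro hNH hNH2 hSAMP hEXT hLARGE hLARGE2 hBAL α M₀ η R hα hM₀ hη hη1
  -- the constants
  set δ : ℝ := η ^ 3 / 8 with hδdef
  have hδ : 0 < δ := by positivity
  obtain ⟨γ₁, hγ₁, hγ₁1, hγ₁2⟩ := CORE_gam α (3 / 2 * M₀) δ hα (by positivity) hδ
  set γ : ℝ := 2 * γ₁ / 3 with hγdef
  have hγ : 0 < γ := by positivity
  have hγ1 : γ ≤ 1 := by rw [hγdef]; linarith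
  have hγ2 : 6 * M₀ * (3 * γ) ^ α ≤ δ := by
    have e1 : 3 * γ = 2 * γ₁ := by rw [hγdef]; ring
    rw [e1]
    refine le_trans (le_of_eq ?_) hγ₁2
    ring
  set γ' : ℝ := γ / 8 with hγ'def
  have hγ' : 0 < γ' := by positivity
  have hγ'1 : γ' ≤ 1 := by rw [hγ'def]; linarith
  set κ : ℝ := γ' * η ^ 3 / 64 with hκdef
  have hκ : 0 < κ := by positivity
  set ζ : ℝ := γ' * η ^ 4 / 32 with hζdef
  have hζ : 0 < ζ := by positivity
  set ε : ℝ := η ^ 4 * κ / 32 with hεdef
  have hε : 0 < ε := by positivity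
  set M : ℕ := R ε with hMdef
  set t : ℝ := min (ζ * η ^ 2 / 32) (min (γ / 16) (min (η ^ 2 / 8) (κ * η / 8))) with htdef
  have ht : 0 < t := lt_min (by positivity) (lt_min (by positivity) (lt_min (by positivity)
    (by positivity)))
  have ht1 : t ≤ ζ * η ^ 2 / 32 := min_le_left _ _
  have ht2 : t ≤ γ / 16 := (min_le_right _ _).trans (min_le_left _ _)
  have ht3 : t ≤ η ^ 2 / 8 := (min_le_right _ _).trans ((min_le_right _ _).trans (min_le_left _ _))
  have ht4 : t ≤ κ * η / 8 := (min_le_right _ _).trans ((min_le_right _ _).trans (min_le_right _ _))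
  have hη2 : η ^ 2 ≤ 1 := pow_le_one₀ hη.le hη1
  have hM0 : (0 : ℝ) ≤ M := Nat.cast_nonneg M
  set τ : ℝ := t / (M + 1) with hτdef
  have hτ : 0 < τ := by positivity
  have hτt : τ ≤ t := by
    rw [hτdef, div_le_iff₀ (by linarith)]
    nlinarith
  have hτ1 : τ ≤ 1 := by linarith
  have hMτ : M * τ ≤ t := by
    rw [hτdef, mul_div_assoc', div_le_iff₀ (by linarith)]
    nlinarith
  set cr : ℝ := min (δ / 4) (η ^ 4 * κ / 16) with hcrdef
  have hcr : 0 < cr := lt_min (by positivity) (by positivity)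
  have hcr1 : cr ≤ δ / 4 := min_le_left _ _
  have hcr2 : cr ≤ η ^ 4 * κ / 16 := min_le_right _ _
  obtain ⟨N₀, hN₀⟩ := CORE_lim α (τ ^ 2 / 4) (3 * η ^ 3 / 20) 1
    (2 * ((Fintype.card (Fin M × Bool) : ℕ) : ℝ)) hα (by positivity) (by positivity)
  set ρ : ℝ := min (η ^ 2 / 8) cr with hρdef
  have hρ : 0 < ρ := lt_min (by positivity) hcr
  have hρ1 : ρ ≤ η ^ 2 / 8 := min_le_left _ _
  have hρ2 : ρ ≤ cr := min_le_right _ _
  refine ⟨ρ, t, N₀, hρ, by linarith, ht, by linarith, ?_⟩
  intro V _ G col D hN hD hEx hBp hsp hχ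
  obtain ⟨hN1, hNA, hNlim⟩ := hN₀ _ hN
  set N : ℝ := ((Fintype.card V : ℕ) : ℝ) with hNdef
  have hN0 : 0 < N := by rw [hNdef]; exact_mod_cast hN1
  have : Nonempty V := Fintype.card_pos_iff.1 (by omega)
  have hDA : 1 ≤ D := hNA.trans hD
  have hD0 : 0 < D := by linarith
  obtain ⟨χ, hWR⟩ := hχ ε hε
  set e : ℝ := ε * N ^ (1 + α) with hedef
  have heD : e ≤ ε * (N * D) := by
    rw [hedef, Real.rpow_add hN0, Real.rpow_one]
    gcongr
  have hWRF : WRF G χ e := hEXT V G M χ e hWR
  -- the probabilities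
  set p : V → ℝ := fun v => η * dg G v / (2 * D) with hpdef
  have hp1 : ∀ v, η ^ 2 / 2 ≤ p v := by
    intro v
    have := hEx.lo v
    simp only [hpdef]
    rw [le_div_iff₀ (by positivity)]
    nlinarith
  have hp2 : ∀ v, p v ≤ 1 / 2 := by
    intro v
    have := hEx.hi v
    simp only [hpdef]
    rw [div_le_iff₀ (by positivity)]
    linarith
  have hp : ∀ v, 0 ≤ p v ∧ p v ≤ 1 := fun v =>
    ⟨le_trans (by positivity) (hp1 v), by linarith [hp2 v]⟩
  set cell : Fin M × Bool → Finset V := fun q => univ.filter (fun v => χ v = q.1 ∧ col v = q.2)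
    with hcell
  set Q : V → Finset V := fun v => univ.filter (fun w => G.Adj v w) with hQ
  set μ : ℝ := η ^ 3 * D / 2 with hμ
  have hμQ : ∀ v, μ ≤ ∑ u ∈ Q v, p u := by
    intro v
    have h1 : ∑ u ∈ Q v, (η ^ 2 / 2) ≤ ∑ u ∈ Q v, p u := sum_le_sum fun u _ => hp1 u
    rw [sum_const, nsmul_eq_mul] at h1
    have h2 : ((Q v).card : ℝ) = dg G v := rfl
    rw [h2] at h1
    have h3 := hEx.lo v
    refine le_trans ?_ h1
    rw [hμ]
    have h4 : η * D * (η ^ 2 / 2) ≤ dg G v * (η ^ 2 / 2) := by gcongr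
    linarith
  have hunion : 2 * ((Fintype.card (Fin M × Bool) : ℕ) : ℝ) *
      Real.exp (-(τ ^ 2 * Fintype.card V / 4)) +
      Fintype.card V * Real.exp (-(3 * μ / 10)) < 1 := by
    refine lt_of_le_of_lt (add_le_add (le_of_eq ?_) ?_) hNlim
    · congr 2
      rw [← hNdef]
      ring
    · rw [← hNdef]
      refine mul_le_mul_of_nonneg_left (Real.exp_le_exp.2 ?_) hN0.le
      rw [hμ]
      have : 3 * η ^ 3 / 20 * N ^ α ≤ 3 * η ^ 3 / 20 * D := by gcongr
      linarith
  obtain ⟨W, hW1, hW2⟩ := hSAMP V p hp (Fintype.card (Fin M × Bool))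
    (fun i => cell ((Fintype.equivFin (Fin M × Bool)).symm i)) Q τ μ hτ hτ1 (by positivity) hμQ hunion
  rw [← hNdef] at hW1
  have hWc : ∀ q : Fin M × Bool, |((W ∩ cell q).card : ℝ) - ∑ v ∈ cell q, p v| ≤ τ * N := by
    intro q
    have := hW1 (Fintype.equivFin (Fin M × Bool) q)
    simpa using this
  have hμδ : μ / 4 = δ * D := by rw [hμ, hδdef]; ring
  -- the halves
  set A : Finset V := univ.filter (fun v => col v = true) with hA
  set B : Finset V := univ.filter (fun v => col v = false) with hB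
  set m₀ : ℝ := η * prs G / (4 * D) with hm₀
  have hsum : ∀ b : Bool, ∑ v ∈ univ.filter (fun v => col v = b), p v = m₀ := by
    intro b
    have h1 := CORE_half G col hBp b
    have h2 : ∑ v ∈ univ.filter (fun v => col v = b), p v =
        η / (2 * D) * ∑ v ∈ univ.filter (fun v => col v = b), (dg G v : ℝ) := by
      rw [mul_sum]
      refine sum_congr rfl fun v _ => ?_
      simp only [hpdef]
      ring
    rw [h2, h1, hm₀]
    field_simp
    ring
  have hdev : ∀ b : Bool, |((W ∩ univ.filter (fun v => col v = b)).card : ℝ) - m₀| ≤ t * N := by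
    intro b
    rw [← hsum b, CORE_card, ← sum_sub_distrib, CORE_cells χ col b]
    refine (abs_sum_le_sum_abs _ _).trans ?_
    have h1 : ∀ a ∈ (univ : Finset (Fin M)), |∑ v ∈ univ.filter (fun v => χ v = a ∧ col v = b),
        ((if v ∈ W then (1 : ℝ) else 0) - p v)| ≤ τ * N := by
      intro a _
      have h2 := hWc (a, b)
      rw [CORE_card, ← sum_sub_distrib] at h2
      exact h2
    refine (sum_le_sum h1).trans ?_
    rw [sum_const, card_univ, Fintype.card_fin, nsmul_eq_mul, ← mul_assoc]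
    gcongr
  have hprsN : η * D * N ≤ prs G := by
    rw [CORE_prs]
    push_cast
    have h1 : ∑ v : V, η * D ≤ ∑ v : V, (dg G v : ℝ) := sum_le_sum fun v _ => hEx.lo v
    rw [sum_const, card_univ, nsmul_eq_mul, ← hNdef] at h1
    linarith
  have hm₀N : η ^ 2 / 4 * N ≤ m₀ := by
    rw [hm₀, le_div_iff₀ (by positivity)]
    have : η * (η * D * N) ≤ η * prs G := by gcongr
    linarith
  have htN : 0 ≤ t * N := by positivity
  have htm : t * N ≤ m₀ := by
    have : t * N ≤ η ^ 2 / 8 * N := by gcongr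
    have h2 : 0 ≤ η ^ 2 / 8 * N := by positivity
    linarith
  have hhalf : ∀ b : Bool, 2 * m₀ ≤ ((univ.filter (fun v => col v = b)).card : ℝ) := by
    intro b
    have h1 : ∑ v ∈ univ.filter (fun v => col v = b), p v ≤
        ∑ v ∈ univ.filter (fun v => col v = b), (1 / 2 : ℝ) := sum_le_sum fun v _ => hp2 v
    rw [hsum b, sum_const, nsmul_eq_mul] at h1
    linarith
  obtain ⟨X, Y, hX1, hX2, hY1, hY2, hXY, hXm, hXW, hYW⟩ := hBAL V A B W m₀ (t * N) htN htm
    (hhalf true) (hhalf false) (hdev true) (hdev false)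
  have hXc : ∀ x ∈ X, col x = true := fun x hx => (mem_filter.1 (hX2 hx)).2
  have hYc : ∀ y ∈ Y, col y = false := fun y hy => (mem_filter.1 (hY2 hy)).2
  have hXdeg : ∀ x ∈ X, δ * D ≤ ee G {x} Y := by
    intro x hx
    rw [← hμδ]
    refine (hW2 x).trans (CORE_ee_single G x Y _ ?_ ?_)
    · intro y hy
      have h1 := mem_inter.1 hy
      have h2 : G.Adj x y := (mem_filter.1 h1.2).2
      refine hY1 (mem_inter.2 ⟨h1.1, mem_filter.2 ⟨mem_univ _, ?_⟩⟩)
      have h3 := hBp x y h2
      rw [hXc x hx] at h3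
      cases hc : col y
      · rfl
      · exact absurd hc.symm h3
    · intro y hy
      exact (mem_filter.1 (mem_inter.1 hy).2).2
  have hYdeg : ∀ y ∈ Y, δ * D ≤ ee G {y} X := by
    intro y hy
    rw [← hμδ]
    refine (hW2 y).trans (CORE_ee_single G y X _ ?_ ?_)
    · intro x hx
      have h1 := mem_inter.1 hx
      have h2 : G.Adj y x := (mem_filter.1 h1.2).2
      refine hX1 (mem_inter.2 ⟨h1.1, mem_filter.2 ⟨mem_univ _, ?_⟩⟩)
      have h3 := hBp y x h2
      rw [hYc y hy] at h3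
      cases hc : col x
      · exact absurd hc.symm h3
      · rfl
    · intro x hx
      exact (mem_filter.1 (mem_inter.1 hx).2).2
  have hWXY : W ⊆ X ∪ Y := by
    intro v hv
    cases hc : col v
    · exact mem_union_right _ (hY1 (mem_inter.2 ⟨hv, mem_filter.2 ⟨mem_univ _, hc⟩⟩))
    · exact mem_union_left _ (hX1 (mem_inter.2 ⟨hv, mem_filter.2 ⟨mem_univ _, hc⟩⟩))
  have he2 : 2 * e ≤ 2 * (ε * (N * D)) := by linarith
  have hND : 0 ≤ N * D := by positivity
  have hcell2 : ∀ (a : Fin M) (b : Bool), |((W ∩ univ.filter (fun v => χ v = a ∧ col v = b)).card : ℝ) -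
      ∑ v ∈ univ.filter (fun v => χ v = a ∧ col v = b), η * dg G v / (2 * D)| ≤
        τ * Fintype.card V := by
    intro a b
    have h1 := hWc (a, b)
    rw [← hNdef]
    exact h1
  refine ⟨X, Y, hXc, hYc, hXY, ?_, ?_, ?_⟩
  · have h1 : ρ * N ≤ η ^ 2 / 8 * N := by gcongr
    have h2 : t * N ≤ η ^ 2 / 8 * N := by gcongr
    linarith
  · -- the strong Hall condition
    intro S hS T hT hc1 hc2 hsz
    by_cases hs : (S.card : ℝ) ≤ γ * Fintype.card V
    · have h1 := CORE2_small G S Y T α M₀ D δ γ hα hM₀ hD0 hγ hD hsp (fun x hx => hXdeg x (hS hx)) hT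
        hc1 hs hγ2
      have h2 : ((min S.card T.card : ℕ) : ℝ) ≤ S.card := by exact_mod_cast min_le_left _ _
      have h3 : 2 * ρ * D ≤ δ / 2 * D := by
        apply mul_le_mul_of_nonneg_right _ hD0.le
        linarith
      calc 2 * ρ * D * ((min S.card T.card : ℕ) : ℝ) ≤ δ / 2 * D * S.card := by
            apply mul_le_mul h3 h2 (Nat.cast_nonneg _) (by positivity)
        _ ≤ _ := h1
    by_cases hs' : (T.card : ℝ) ≤ γ * Fintype.card V
    · have h1 := CORE2_small G T X S α M₀ D δ γ hα hM₀ hD0 hγ hD hsp (fun x hx => hYdeg x (hT hx)) hS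
        hc2 hs' hγ2
      rw [SMALL.ee_comm G T S] at h1
      have h2 : ((min S.card T.card : ℕ) : ℝ) ≤ T.card := by exact_mod_cast min_le_right _ _
      have h3 : 2 * ρ * D ≤ δ / 2 * D := by
        apply mul_le_mul_of_nonneg_right _ hD0.le
        linarith
      calc 2 * ρ * D * ((min S.card T.card : ℕ) : ℝ) ≤ δ / 2 * D * T.card := by
            apply mul_le_mul h3 h2 (Nat.cast_nonneg _) (by positivity)
        _ ≤ _ := h1
    push Not at hs hs'
    rw [← hNdef] at hs hs'
    have hSN : (S.card : ℝ) ≤ N := by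
      rw [hNdef]; exact_mod_cast card_le_univ S
    have hXN : (X.card : ℝ) ≤ N := by
      rw [hNdef]; exact_mod_cast card_le_univ X
    have hSW : (S.card : ℝ) - 2 * (t * N) ≤ (S ∩ W).card := by
      have h1 : (S \ W).card ≤ (X \ W).card := card_le_card (sdiff_subset_sdiff hS (Subset.refl _))
      have h2 : (S ∩ W).card + (S \ W).card = S.card := card_inter_add_card_sdiff S W
      have h3 : ((S \ W).card : ℝ) ≤ (X \ W).card := by exact_mod_cast h1
      have h4 : ((S ∩ W).card : ℝ) + (S \ W).card = S.card := by exact_mod_cast h2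
      linarith
    have hTW : (T.card : ℝ) - 2 * (t * N) ≤ (T ∩ W).card := by
      have h1 : (T \ W).card ≤ (Y \ W).card := card_le_card (sdiff_subset_sdiff hT (Subset.refl _))
      have h2 : (T ∩ W).card + (T \ W).card = T.card := card_inter_add_card_sdiff T W
      have h3 : ((T \ W).card : ℝ) ≤ (Y \ W).card := by exact_mod_cast h1
      have h4 : ((T ∩ W).card : ℝ) + (T \ W).card = T.card := by exact_mod_cast h2
      linarith
    have hγN : (γ' + M * τ) * N ≤ γ * N - 2 * (t * N) := by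
      have h1 : γ' + M * τ ≤ γ - 2 * t := by rw [hγ'def]; linarith
      calc (γ' + M * τ) * N ≤ (γ - 2 * t) * N := by gcongr
        _ = _ := by ring
    have hnh := hNH V G col D η γ' hD0 hη hη1 hγ' hγ'1 hEx hBp
    have htX : t * X.card ≤ t * N := by gcongr
    have hL := hLARGE V G col D η κ ζ γ' τ (6 * t) e M χ W (S ∩ W) (T ∩ W) hD0 hη hη1 hγ' hτ
      (by positivity) hEx hBp hnh hWR hWRF ?_ inter_subset_right inter_subset_right ?_ ?_ ?_ ?_ ?_ ?_
    · rw [← hNdef] at hL
      have hmono := CORE_ee_mono G (inter_subset_left : S ∩ W ⊆ S) (inter_subset_left : T ∩ W ⊆ T)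
      have h1 : η ^ 4 * κ / 8 * (N * D) ≤ ee G S T := by
        have h3 : η ^ 4 / 4 * (κ * D * N) - 2 * (ε * (N * D)) = 3 * (η ^ 4 * κ / 16) * (N * D) := by
          rw [hεdef]; ring
        have h4 : η ^ 4 * κ / 8 * (N * D) ≤ 3 * (η ^ 4 * κ / 16) * (N * D) := by
          apply mul_le_mul_of_nonneg_right _ hND
          have : 0 < η ^ 4 * κ := by positivity
          linarith
        linarith
      have h2 : ((min S.card T.card : ℕ) : ℝ) ≤ N := by
        refine le_trans ?_ hSN
        exact_mod_cast min_le_left _ _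
      calc 2 * ρ * D * ((min S.card T.card : ℕ) : ℝ) ≤ 2 * ρ * D * N := by gcongr
        _ ≤ 2 * (η ^ 4 * κ / 16) * D * N := by
          gcongr
          exact hρ2.trans hcr2
        _ = η ^ 4 * κ / 8 * (N * D) := by ring
        _ ≤ _ := h1
    · intro a b
      have h2 := (abs_le.1 (hcell2 a b)).2
      linarith
    · intro v hv
      exact hXc v (hS (mem_inter.1 hv).1)
    · intro v hv
      exact hYc v (hT (mem_inter.1 hv).1)
    · rw [← hNdef]
      linarith
    · rw [← hNdef]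
      linarith
    · rw [← hNdef]
      rw [← hm₀]
      linarith
    · have : 2 * M * τ = 2 * (M * τ) := by ring
      linarith
  · -- expansion
    intro S hS hSh
    by_cases hs : (S.card : ℝ) ≤ γ * Fintype.card V
    · have hdeg : ∀ x ∈ S, δ * D ≤ ee G {x} (X ∪ Y) := by
        intro x hx
        rcases mem_union.1 (hS hx) with h | h
        · exact (hXdeg x h).trans (CORE_ee_mono G (Subset.refl _) subset_union_right)
        · exact (hYdeg x h).trans (CORE_ee_mono G (Subset.refl _) subset_union_left)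
      have hsd : (X ∪ Y) \ ((X ∪ Y) \ S) = S := by
        exact Finset.sdiff_sdiff_eq_self hS
      have h1 := CORE2_small G S (X ∪ Y) ((X ∪ Y) \ S) α M₀ D δ γ hα hM₀ hD0 hγ hD hsp hdeg
        sdiff_subset (by rw [hsd]; omega) hs hγ2
      have h3 : ρ * D ≤ δ / 2 * D := by
        apply mul_le_mul_of_nonneg_right _ hD0.le
        linarith
      calc ρ * D * S.card ≤ δ / 2 * D * S.card := by gcongr
        _ ≤ _ := h1
    push Not at hs
    rw [← hNdef] at hs
    have hSN : (S.card : ℝ) ≤ N := by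
      rw [hNdef]; exact_mod_cast card_le_univ S
    have hout : (((X ∪ Y) \ W).card : ℝ) ≤ 4 * (t * N) := by
      have h1 : ((X ∪ Y) \ W).card ≤ (X \ W).card + (Y \ W).card := by
        rw [union_sdiff_distrib]
        exact card_union_le _ _
      have h2 : (((X ∪ Y) \ W).card : ℝ) ≤ (X \ W).card + (Y \ W).card := by exact_mod_cast h1
      linarith
    have hSW : (S.card : ℝ) - 4 * (t * N) ≤ (S ∩ W).card := by
      have h1 : (S \ W).card ≤ ((X ∪ Y) \ W).card :=
        card_le_card (sdiff_subset_sdiff hS (Subset.refl _))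
      have h2 : (S ∩ W).card + (S \ W).card = S.card := card_inter_add_card_sdiff S W
      have h3 : ((S \ W).card : ℝ) ≤ ((X ∪ Y) \ W).card := by exact_mod_cast h1
      have h4 : ((S ∩ W).card : ℝ) + (S \ W).card = S.card := by exact_mod_cast h2
      linarith
    have hCW : (S.card : ℝ) - 4 * (t * N) ≤ (W \ (S ∩ W)).card := by
      have h0 : ((X ∪ Y) \ S) ∩ W ⊆ W \ (S ∩ W) := by
        intro v hv
        rw [mem_inter, Finset.mem_sdiff] at hv
        rw [Finset.mem_sdiff, mem_inter]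
        exact ⟨hv.2, fun h => hv.1.2 h.1⟩
      have h1 : (((X ∪ Y) \ S) \ W).card ≤ ((X ∪ Y) \ W).card :=
        card_le_card (sdiff_subset_sdiff sdiff_subset (Subset.refl _))
      have h2 : (((X ∪ Y) \ S) ∩ W).card + (((X ∪ Y) \ S) \ W).card = ((X ∪ Y) \ S).card :=
        card_inter_add_card_sdiff _ W
      have h5 : ((X ∪ Y) \ S).card + S.card = (X ∪ Y).card := card_sdiff_add_card_eq_card hS
      have h6 : S.card ≤ ((X ∪ Y) \ S).card := by omega
      have h7 := card_le_card h0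
      have h3 : ((((X ∪ Y) \ S) \ W).card : ℝ) ≤ ((X ∪ Y) \ W).card := by exact_mod_cast h1
      have h4 : ((((X ∪ Y) \ S) ∩ W).card : ℝ) + (((X ∪ Y) \ S) \ W).card = ((X ∪ Y) \ S).card := by
        exact_mod_cast h2
      have h8 : (S.card : ℝ) ≤ ((X ∪ Y) \ S).card := by exact_mod_cast h6
      have h9 : ((((X ∪ Y) \ S) ∩ W).card : ℝ) ≤ (W \ (S ∩ W)).card := by exact_mod_cast h7
      linarith
    have hγN : (γ' + 2 * M * τ) * N ≤ γ * N - 4 * (t * N) := by
      have h1 : γ' + 2 * M * τ ≤ γ - 4 * t := by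
        have : 2 * M * τ = 2 * (M * τ) := by ring
        rw [hγ'def, this]
        linarith
      calc (γ' + 2 * M * τ) * N ≤ (γ - 4 * t) * N := by gcongr
        _ = _ := by ring
    have hnh2 := hNH2 V G D η γ' hD0 hη hη1 hγ' hγ'1 hEx
    have hL := hLARGE2 V G col D η κ γ' τ e M χ W (S ∩ W) hD0 hη hη1 hγ' hτ hEx hnh2 hWR hWRF hcell2
      inter_subset_right (by rw [← hNdef]; linarith) (by rw [← hNdef]; linarith)
    rw [← hNdef] at hL
    have hsub : W \ (S ∩ W) ⊆ (X ∪ Y) \ S := by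
      intro v hv
      rw [Finset.mem_sdiff, mem_inter] at hv
      rw [Finset.mem_sdiff]
      exact ⟨hWXY hv.1, fun h => hv.2 ⟨h, hv.1⟩⟩
    have hmono := CORE_ee_mono G (inter_subset_left : S ∩ W ⊆ S) hsub
    have hκ2 : κ / 2 ≤ κ - 4 * M * τ / η := by
      have h1 : 4 * M * τ / η ≤ κ / 2 := by
        rw [div_le_iff₀ hη]
        have : 4 * M * τ = 4 * (M * τ) := by ring
        rw [this]
        linarith
      linarith
    have h1 : η ^ 4 * κ / 16 * (N * D) ≤ ee G S ((X ∪ Y) \ S) := by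
      have h3 : η ^ 4 / 4 * ((κ / 2) * D * N) - 2 * (ε * (N * D)) = η ^ 4 * κ / 16 * (N * D) := by
        rw [hεdef]; ring
      have h4 : η ^ 4 / 4 * ((κ / 2) * D * N) ≤ η ^ 4 / 4 * ((κ - 4 * M * τ / η) * D * N) := by
        gcongr
      linarith
    calc ρ * D * S.card ≤ ρ * D * N := by gcongr
      _ ≤ (η ^ 4 * κ / 16) * D * N := by
        gcongr
        exact hρ2.trans hcr2
      _ = η ^ 4 * κ / 16 * (N * D) := by ring
      _ ≤ _ := h1

end Pool.Agent.H35.XR
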