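import Pool.Agent.H35.XR.Stm3

/-!
# XR-EXF: from the strong Hall condition and expansion to exactly regular expanders
-/

set_option autoImplicit false
set_option linter.unusedSectionVars false

open Finset
open scoped Classical

namespace Pool.Agent.H35.XR

open Pool.Agent.H35.RD

namespace EXF

variable {V : Type} [Fintype V]

theorem ee_sum (G : SimpleGraph V) (S T : Finset V) :
    ee G S T = ∑ x ∈ S, (T.filter (fun y => G.Adj x y)).card := by
  unfold ee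
  rw [card_filter, sum_product]
  exact sum_congr rfl fun x _ => (card_filter _ _).symm

theorem ee_mono {G H : SimpleGraph V} (h : G ≤ H) (S T : Finset V) : ee G S T ≤ ee H S T := by
  unfold ee
  refine card_le_card fun z hz => ?_
  rw [mem_filter] at hz ⊢
  exact ⟨hz.1, h hz.2⟩

theorem ee_comm (G : SimpleGraph V) (S T : Finset V) : ee G S T = ee G T S := by
  unfold ee
  refine card_bij (fun z _ => z.swap) ?_ ?_ ?_
  · intro z hz
    simp only [mem_filter, mem_product, Prod.fst_swap, Prod.snd_swap] at hz ⊢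
    exact ⟨⟨hz.1.2, hz.1.1⟩, hz.2.symm⟩
  · intro z _ z' _ h
    exact Prod.swap_injective h
  · intro z hz
    simp only [mem_filter, mem_product] at hz
    refine ⟨z.swap, ?_, Prod.swap_swap z⟩
    simp only [mem_filter, mem_product, Prod.fst_swap, Prod.snd_swap]
    exact ⟨⟨hz.1.2, hz.1.1⟩, hz.2.symm⟩

theorem ee_le_dg (G : SimpleGraph V) (S T : Finset V) : ee G S T ≤ ∑ x ∈ S, dg G x := by
  rw [ee_sum]
  refine sum_le_sum fun x _ => card_le_card fun y hy => ?_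
  rw [mem_filter] at hy ⊢
  exact ⟨mem_univ _, hy.2⟩

theorem ee_congr {G H : SimpleGraph V} (S T : Finset V)
    (h : ∀ x ∈ S, ∀ y ∈ T, G.Adj x y ↔ H.Adj x y) : ee G S T = ee H S T := by
  unfold ee
  congr 1
  refine filter_congr fun z hz => ?_
  rw [mem_product] at hz
  exact h _ hz.1 _ hz.2

theorem ee_sdiff {F G K : SimpleGraph V} (hK : ∀ x y, G.Adj x y → F.Adj x y ∨ K.Adj x y)
    (S T : Finset V) : ee G S T ≤ ee K S T + ee F S T := by
  unfold ee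
  refine (card_le_card ?_).trans (card_union_le _ _)
  intro z hz
  rw [mem_filter] at hz
  rcases hK _ _ hz.2 with h | h
  · exact mem_union.2 (Or.inr (mem_filter.2 ⟨hz.1, h⟩))
  · exact mem_union.2 (Or.inl (mem_filter.2 ⟨hz.1, h⟩))

theorem sum_dg {F : SimpleGraph V} {X Y : Finset V} (hF : ∀ x ∈ X, ∀ y, F.Adj x y → y ∈ Y) :
    ∑ x ∈ X, dg F x = ee F X Y := by
  rw [ee_sum]
  refine sum_congr rfl fun x hx => ?_
  unfold dg
  congr 1
  ext y
  rw [mem_filter, mem_filter]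
  exact ⟨fun h => ⟨hF x hx y h.2, h.2⟩, fun h => ⟨mem_univ _, h.2⟩⟩

theorem dg_mono {G H : SimpleGraph V} (h : G ≤ H) (v : V) : dg G v ≤ dg H v := by
  unfold dg
  refine card_le_card fun y hy => ?_
  rw [mem_filter] at hy ⊢
  exact ⟨mem_univ _, h hy.2⟩

theorem dg_sup {F H K : SimpleGraph V} (hK : ∀ x y, K.Adj x y ↔ F.Adj x y ∨ H.Adj x y)
    (h : ∀ x y, H.Adj x y → ¬ F.Adj x y) (v : V) : dg K v = dg F v + dg H v := by
  unfold dg
  rw [← card_union_of_disjoint]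
  · congr 1
    ext y
    rw [mem_union, mem_filter, mem_filter, mem_filter, hK]
    constructor
    · rintro ⟨_, h1 | h1⟩
      · exact Or.inl ⟨mem_univ _, h1⟩
      · exact Or.inr ⟨mem_univ _, h1⟩
    · rintro (h1 | h1)
      · exact ⟨mem_univ _, Or.inl h1.2⟩
      · exact ⟨mem_univ _, Or.inr h1.2⟩
  · rw [disjoint_left]
    intro y h1 h2
    rw [mem_filter] at h1 h2
    exact h _ _ h2.2 h1.2

theorem ana (α c : ℝ) (hα : 0 < α) (hc : 0 < c) : ∃ N₁ : ℕ, 1 ≤ N₁ ∧ ∀ N : ℕ, N₁ ≤ N →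
    (N : ℝ) * Real.exp (-(c * (N : ℝ) ^ α)) ≤ 1 / 4 := by
  have h1 := tendsto_rpow_mul_exp_neg_mul_atTop_nhds_zero (1 / α) c hc
  have h2 : Filter.Tendsto (fun N : ℕ => (N : ℝ) ^ α) Filter.atTop Filter.atTop :=
    (tendsto_rpow_atTop hα).comp tendsto_natCast_atTop_atTop
  have h3 := h1.comp h2
  have h4 := h3.eventually_le_const (show (0 : ℝ) < 1 / 4 by norm_num)
  obtain ⟨N₀, hN₀⟩ := Filter.eventually_atTop.1 h4
  refine ⟨max N₀ 1, le_max_right _ _, fun N hN => ?_⟩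
  have h5 := hN₀ N ((le_max_left _ _).trans hN)
  simp only [Function.comp] at h5
  rw [← Real.rpow_mul (Nat.cast_nonneg N), mul_one_div_cancel hα.ne', Real.rpow_one] at h5
  rwa [neg_mul] at h5

end EXF

open EXF

theorem exf : S_RANDF → S_FFAC → S_EXF := by
  intro hR hFF α η ρ t hα hη hη1 hρ hρ1 ht ht1
  obtain ⟨q, hq⟩ : ∃ q : ℝ, q = η * t * ρ / 16 := ⟨_, rfl⟩
  have hq0 : 0 < q := by
    rw [hq]
    positivity
  have hq1 : q ≤ 1 := by
    rw [hq]
    have h1 : η * t ≤ 1 := mul_le_one₀ hη1 ht.le (by linarith)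
    have h2 : η * t * ρ ≤ 1 := mul_le_one₀ h1 hρ.le hρ1
    linarith
  obtain ⟨N₁, hN1, hana⟩ := ana α (3 * q * ρ / 10) hα (by positivity)
  refine ⟨q / 4, N₁, by positivity, ?_⟩
  intro V _ G X Y D hN hD hdeg hXY hcard hno hSH hXp d hd1 hd2
  have hNpos : (0 : ℝ) < Fintype.card V := by
    have h : 0 < Fintype.card V := by omega
    exact_mod_cast h
  have hD0 : 0 < D := lt_of_lt_of_le (Real.rpow_pos_of_pos hNpos α) hD
  have hd0 : (0 : ℝ) < d := lt_of_lt_of_le (by positivity) hd1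
  -- the graph of the edges between `X` and `Y`
  obtain ⟨G₀, hG₀⟩ : ∃ G₀ : SimpleGraph V, ∀ x y, G₀.Adj x y ↔
      G.Adj x y ∧ ((x ∈ X ∧ y ∈ Y) ∨ (x ∈ Y ∧ y ∈ X)) :=
    ⟨{ Adj := fun x y => G.Adj x y ∧ ((x ∈ X ∧ y ∈ Y) ∨ (x ∈ Y ∧ y ∈ X))
       symm := ⟨fun x y h => ⟨h.1.symm, h.2.elim (fun h => Or.inr ⟨h.2, h.1⟩)
        (fun h => Or.inl ⟨h.2, h.1⟩)⟩⟩
       loopless := ⟨fun x h => G.irrefl h.1⟩ }, fun x y => Iff.rfl⟩
  have hle0 : G₀ ≤ G := fun x y h => ((hG₀ x y).1 h).1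
  have he0 : ∀ S ⊆ X, ∀ T ⊆ Y, ee G₀ S T = ee G S T := fun S hS T hT =>
    ee_congr S T fun x hx y hy => by
      rw [hG₀]
      exact ⟨fun h => h.1, fun h => ⟨h, Or.inl ⟨hS hx, hT hy⟩⟩⟩
  have hXp0 : Xp G₀ (X ∪ Y) (ρ * D) := by
    intro S hS hS2
    have h1 := hXp S hS hS2
    have h2 : ee G₀ S ((X ∪ Y) \ S) = ee G S ((X ∪ Y) \ S) := ee_congr _ _ fun x hx y hy => by
      rw [hG₀]
      refine ⟨fun h => h.1, fun h => ⟨h, ?_⟩⟩
      have hx' := mem_union.1 (hS hx)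
      have hy' := mem_union.1 (mem_sdiff.1 hy).1
      have h3 := hno x y h
      rcases hx' with hx' | hx' <;> rcases hy' with hy' | hy'
      · exact absurd ⟨hx', hy'⟩ h3.1
      · exact Or.inl ⟨hx', hy'⟩
      · exact Or.inr ⟨hx', hy'⟩
      · exact absurd ⟨hx', hy'⟩ h3.2
    rw [h2]
    exact h1
  have hmono : ∀ z : ℝ, 3 * q * ρ / 10 * ((Fintype.card V : ℕ) : ℝ) ^ α ≤ z →
      Fintype.card V * Real.exp (-z) ≤ 1 / 4 := by
    intro z hz
    refine le_trans ?_ (hana _ hN)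
    exact mul_le_mul_of_nonneg_left (Real.exp_le_exp.2 (by linarith)) hNpos.le
  have hdeg0 : ∀ v, (dg G₀ v : ℝ) ≤ D / η := by
    intro v
    rw [le_div_iff₀ hη]
    have h1 : (dg G₀ v : ℝ) ≤ dg G v := by exact_mod_cast dg_mono hle0 v
    have h2 := hdeg v
    have h3 := mul_le_mul_of_nonneg_left h1 hη.le
    linarith
  have hqD : 3 * q * ρ / 10 * ((Fintype.card V : ℕ) : ℝ) ^ α ≤ 3 * q * ρ / 10 * D :=
    mul_le_mul_of_nonneg_left hD (by positivity)
  have hDη : D ≤ D / η := by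
    rw [le_div_iff₀ hη]
    exact mul_le_of_le_one_right hD0.le hη1
  obtain ⟨F, hF1, hF2, hF3⟩ := hR V G₀ (X ∪ Y) q (ρ * D) (D / η) hq0 hq1 (by positivity) hdeg0 hXp0
    (hmono _ (hqD.trans (le_of_eq (by ring))))
    (hmono _ (hqD.trans (by
      have h1 : 3 * q * ρ / 10 * D ≤ q * D := by
        refine mul_le_mul_of_nonneg_right ?_ hD0.le
        have h2 := mul_le_mul_of_nonneg_left hρ1 hq0.le
        linarith
      exact h1.trans (mul_le_mul_of_nonneg_left hDη hq0.le))))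
  have hF4 : ∀ v, (dg F v : ℝ) ≤ t * d / 2 := by
    intro v
    have h1 := hF2 v
    have h2 : 4 * q * (D / η) = t * (ρ * D / 2) / 2 := by
      rw [hq]
      field_simp
      ring
    rw [h2] at h1
    have h3 := mul_le_mul_of_nonneg_left hd1 ht.le
    linarith
  have htd : t * (d : ℝ) ≤ 1 / 2 * d := mul_le_mul_of_nonneg_right ht1 hd0.le
  have hF5 : ∀ v, dg F v ≤ d := by
    intro v
    have h1 := hF4 v
    have h2 : (dg F v : ℝ) ≤ d := by linarith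
    exact_mod_cast h2
  have hFadj : ∀ x y, F.Adj x y → (x ∈ X ∧ y ∈ Y) ∨ (x ∈ Y ∧ y ∈ X) :=
    fun x y h => ((hG₀ x y).1 (hF1 h)).2
  have hFX : ∀ x ∈ X, ∀ y, F.Adj x y → y ∈ Y := by
    intro x hx y h
    rcases hFadj x y h with h1 | h1
    · exact h1.2
    · exact absurd h1.1 (disjoint_left.1 hXY hx)
  have hFY : ∀ x ∈ Y, ∀ y, F.Adj x y → y ∈ X := by
    intro x hx y h
    rcases hFadj x y h with h1 | h1
    · exact absurd hx (disjoint_left.1 hXY h1.1)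
    · exact h1.2
  obtain ⟨f, hf⟩ : ∃ f : V → ℕ, ∀ v, f v + dg F v = d :=
    ⟨fun v => d - dg F v, fun v => Nat.sub_add_cancel (hF5 v)⟩
  have hsumf : ∀ U : Finset V, ∑ x ∈ U, f x + ∑ x ∈ U, dg F x = U.card * d := by
    intro U
    rw [← sum_add_distrib, sum_congr rfl fun x _ => hf x, sum_const, smul_eq_mul]
  have hsum : ∑ x ∈ X, f x = ∑ y ∈ Y, f y := by
    have h1 := hsumf X
    have h2 := hsumf Y
    rw [sum_dg hFX] at h1
    rw [sum_dg hFY, ee_comm F Y X, ← hcard] at h2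
    omega
  have hupf : ∀ U : Finset V, ((∑ x ∈ U, f x : ℕ) : ℝ) ≤ d * U.card := by
    intro U
    have h1 := hsumf U
    have h2 : ∑ x ∈ U, f x ≤ d * U.card := by
      rw [mul_comm]
      omega
    exact_mod_cast h2
  have hdgU : ∀ U : Finset V, ((∑ x ∈ U, dg F x : ℕ) : ℝ) ≤ t * d / 2 * U.card := by
    intro U
    rw [Nat.cast_sum, mul_comm, ← nsmul_eq_mul]
    exact sum_le_card_nsmul U _ _ fun x _ => hF4 x
  have hlowf : ∀ U : Finset V, 3 / 4 * (d * (U.card : ℝ)) ≤ ((∑ x ∈ U, f x : ℕ) : ℝ) ∧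
      (1 - t) * (d * (U.card : ℝ)) ≤ ((∑ x ∈ U, f x : ℕ) : ℝ) := by
    intro U
    have h1 := hsumf U
    have h2 := hdgU U
    have h3 : ((∑ x ∈ U, f x : ℕ) : ℝ) + ((∑ x ∈ U, dg F x : ℕ) : ℝ) = U.card * d := by
      exact_mod_cast h1
    have h4 : (0 : ℝ) ≤ U.card := Nat.cast_nonneg _
    have h5 : 0 ≤ (d : ℝ) * U.card := by positivity
    have h6 := mul_le_mul_of_nonneg_right ht1 h5
    have h7 : 0 ≤ t * (d * (U.card : ℝ)) := by positivity
    constructor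
    · nlinarith
    · nlinarith
  have hHall : ∀ S ⊆ X, ∀ T ⊆ Y,
      ∑ x ∈ S, f x + ∑ y ∈ T, f y ≤ ee (G₀ \ F) S T + ∑ x ∈ X, f x := by
    intro S hS T hT
    by_contra hcon
    rw [not_le] at hcon
    have s1 : ∑ x ∈ X \ S, f x + ∑ x ∈ S, f x = ∑ x ∈ X, f x := sum_sdiff hS
    have s2 : ∑ y ∈ Y \ T, f y + ∑ y ∈ T, f y = ∑ y ∈ Y, f y := sum_sdiff hT
    have c1 : (Y \ T).card ≤ 2 * S.card := by
      have h1 := (hlowf (Y \ T)).1
      have h2 : ∑ y ∈ Y \ T, f y ≤ ∑ x ∈ S, f x := by omega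
      have h3 : ((∑ y ∈ Y \ T, f y : ℕ) : ℝ) ≤ ((∑ x ∈ S, f x : ℕ) : ℝ) := by exact_mod_cast h2
      have h4 := hupf S
      have h5 : (d : ℝ) * (3 / 4 * ((Y \ T).card : ℝ)) ≤ d * S.card := by linarith
      have h6 := le_of_mul_le_mul_left h5 hd0
      have h7 : (0 : ℝ) ≤ (S.card : ℝ) := Nat.cast_nonneg _
      have h8 : ((Y \ T).card : ℝ) ≤ 2 * S.card := by linarith
      exact_mod_cast h8
    have c2 : (X \ S).card ≤ 2 * T.card := by
      have h1 := (hlowf (X \ S)).1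
      have h2 : ∑ x ∈ X \ S, f x ≤ ∑ y ∈ T, f y := by omega
      have h3 : ((∑ x ∈ X \ S, f x : ℕ) : ℝ) ≤ ((∑ y ∈ T, f y : ℕ) : ℝ) := by exact_mod_cast h2
      have h4 := hupf T
      have h5 : (d : ℝ) * (3 / 4 * ((X \ S).card : ℝ)) ≤ d * T.card := by linarith
      have h6 := le_of_mul_le_mul_left h5 hd0
      have h7 : (0 : ℝ) ≤ (T.card : ℝ) := Nat.cast_nonneg _
      have h8 : ((X \ S).card : ℝ) ≤ 2 * T.card := by linarith
      exact_mod_cast h8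
    have c3 : (1 - t) * X.card ≤ (S.card : ℝ) + T.card := by
      have h1 := (hlowf X).2
      have h2 : ∑ x ∈ X, f x ≤ ∑ x ∈ S, f x + ∑ y ∈ T, f y := by omega
      have h3 : ((∑ x ∈ X, f x : ℕ) : ℝ) ≤
          ((∑ x ∈ S, f x : ℕ) : ℝ) + ((∑ y ∈ T, f y : ℕ) : ℝ) := by exact_mod_cast h2
      have h4 := hupf S
      have h5 := hupf T
      have h6 : (d : ℝ) * ((1 - t) * (X.card : ℝ)) ≤ d * ((S.card : ℝ) + T.card) := by
        linarith
      exact le_of_mul_le_mul_left h6 hd0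
    have h1 := hSH S hS T hT c1 c2 c3
    rw [← he0 S hS T hT] at h1
    obtain ⟨μ, hμ⟩ : ∃ μ : ℕ, μ = min S.card T.card := ⟨_, rfl⟩
    rw [← hμ] at h1
    have h2 : (ee G₀ S T : ℝ) ≤ ee (G₀ \ F) S T + ee F S T := by
      have h0 : ee G₀ S T ≤ ee (G₀ \ F) S T + ee F S T :=
        ee_sdiff (fun x y h => by
          by_cases h' : F.Adj x y
          · exact Or.inl h'
          · exact Or.inr ((SimpleGraph.sdiff_adj _ _ _ _).2 ⟨h, h'⟩)) S T
      exact_mod_cast h0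
    have h3 : (ee F S T : ℝ) ≤ t * d / 2 * μ := by
      rcases le_total S.card T.card with h | h
      · rw [hμ, min_eq_left h]
        have h4 : (ee F S T : ℝ) ≤ ((∑ x ∈ S, dg F x : ℕ) : ℝ) := by
          exact_mod_cast ee_le_dg F S T
        exact h4.trans (hdgU S)
      · rw [hμ, min_eq_right h, ee_comm]
        have h4 : (ee F T S : ℝ) ≤ ((∑ x ∈ T, dg F x : ℕ) : ℝ) := by
          exact_mod_cast ee_le_dg F T S
        exact h4.trans (hdgU T)
    have h4 : ((∑ x ∈ S, f x : ℕ) : ℝ) + ((∑ y ∈ T, f y : ℕ) : ℝ) ≤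
        ((∑ x ∈ X, f x : ℕ) : ℝ) + d * μ := by
      rcases le_total S.card T.card with h | h
      · rw [hμ, min_eq_left h]
        have h5 := hupf S
        have h6 : ∑ y ∈ T, f y ≤ ∑ x ∈ X, f x := by omega
        have h7 : ((∑ y ∈ T, f y : ℕ) : ℝ) ≤ ((∑ x ∈ X, f x : ℕ) : ℝ) := by exact_mod_cast h6
        linarith
      · rw [hμ, min_eq_right h]
        have h5 := hupf T
        have h6 : ∑ x ∈ S, f x ≤ ∑ x ∈ X, f x := by omega
        have h7 : ((∑ x ∈ S, f x : ℕ) : ℝ) ≤ ((∑ x ∈ X, f x : ℕ) : ℝ) := by exact_mod_cast h6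
        linarith
    have h5 : ((ee (G₀ \ F) S T : ℕ) : ℝ) + ((∑ x ∈ X, f x : ℕ) : ℝ) <
        ((∑ x ∈ S, f x : ℕ) : ℝ) + ((∑ y ∈ T, f y : ℕ) : ℝ) := by exact_mod_cast hcon
    have h6 : (0 : ℝ) ≤ μ := Nat.cast_nonneg _
    have h7 : (d : ℝ) * μ ≤ ρ * D * μ := mul_le_mul_of_nonneg_right hd2 h6
    have h8 : t * (d : ℝ) * μ ≤ 1 / 2 * d * μ := mul_le_mul_of_nonneg_right htd h6
    have h9 : 0 ≤ (d : ℝ) * μ := by positivity
    nlinarith
  obtain ⟨H₂, hH1, hH2, hH3⟩ := hFF V (G₀ \ F) X Y f hXY hsum hHall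
  have hdis : ∀ x y, H₂.Adj x y → ¬ F.Adj x y := fun x y h =>
    ((SimpleGraph.sdiff_adj _ _ _ _).1 (hH1 h)).2
  refine ⟨F ⊔ H₂, ?_, ?_, ?_, ?_⟩
  · refine sup_le (hF1.trans hle0) ?_
    intro x y h
    exact hle0 ((SimpleGraph.sdiff_adj _ _ _ _).1 (hH1 h)).1
  · intro x y h
    rw [SimpleGraph.sup_adj] at h
    rcases h with h | h
    · exact hFadj x y h
    · exact hH2 x y h
  · intro x hx
    rw [dg_sup (K := F ⊔ H₂) (fun _ _ => SimpleGraph.sup_adj _ _ _ _) hdis, hH3 x hx]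
    have := hf x
    omega
  · intro S hS hS2
    have h1 := hF3 S hS hS2
    have h2 : (ee F S ((X ∪ Y) \ S) : ℝ) ≤ ee (F ⊔ H₂) S ((X ∪ Y) \ S) := by
      exact_mod_cast ee_mono le_sup_left S _
    refine le_trans ?_ (h1.trans h2)
    refine mul_le_mul_of_nonneg_right ?_ (Nat.cast_nonneg _)
    have h3 := mul_le_mul_of_nonneg_left hd2 hq0.le
    linarith

end Pool.Agent.H35.XR
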