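import Pool.Agent.H35.XR.Stm3

/-!
# Factors of bipartite graphs with prescribed degrees from Hall's condition (XR-FFAC)
-/

set_option autoImplicit false
set_option linter.unusedSectionVars false

open Finset
open scoped Classical

namespace Pool.Agent.H35.XR

open Pool.Agent.H35.RD

namespace FFAC

variable {V : Type} [Fintype V]

/-- fibres over a subset -/
lemma sum_fib (E : Finset (V × V)) (g : V × V → V) (S : Finset V) :
    ∑ x ∈ S, (E.filter (fun z => g z = x)).card = (E.filter (fun z => g z ∈ S)).card := by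
  rw [Finset.card_eq_sum_card_fiberwise (f := g) (t := S) (s := E.filter (fun z => g z ∈ S))]
  · refine Finset.sum_congr rfl fun x hx => ?_
    congr 1
    ext z
    simp only [Finset.mem_filter]
    constructor
    · rintro ⟨h1, h2⟩
      exact ⟨⟨h1, by rw [h2]; exact hx⟩, h2⟩
    · rintro ⟨⟨h1, _⟩, h2⟩
      exact ⟨h1, h2⟩
  · intro z hz
    exact (Finset.mem_filter.1 hz).2

/-- Hall's condition for the gadget -/
lemma count (G : SimpleGraph V) (X Y : Finset V) (r : V → ℕ) (E : Finset (V × V))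
    (hE : E = (X ×ˢ Y).filter (fun z : V × V => G.Adj z.1 z.2)) (D D' : V → ℕ)
    (hD : ∀ x ∈ X, D x + r x = (E.filter (fun z => z.1 = x)).card)
    (hD' : ∀ y ∈ Y, D' y + r y = (E.filter (fun z => z.2 = y)).card)
    (h : ∀ S ⊆ X, ∀ T ⊆ Y, ∑ x ∈ S, r x + ∑ y ∈ T, r y ≤ ee G S T + ∑ x ∈ X, r x)
    (S : Finset V) (hS : S ⊆ X) (Q : Finset (V × V)) (hQ : Q ⊆ E) :
    ∑ x ∈ S, D x + Q.card ≤ (E.filter (fun z => z.1 ∈ S) ∪ Q).card +
      ∑ y ∈ Q.image Prod.snd, D' y := by
  set T := Q.image Prod.snd with hT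
  have hTY : T ⊆ Y := by
    intro y hy
    obtain ⟨z, hz, rfl⟩ := Finset.mem_image.1 hy
    have := hQ hz
    rw [hE] at this
    exact (Finset.mem_product.1 (Finset.mem_filter.1 this).1).2
  have h1 : ∑ x ∈ S, D x + ∑ x ∈ S, r x = (E.filter (fun z => z.1 ∈ S)).card := by
    rw [← sum_fib E Prod.fst S, ← Finset.sum_congr rfl fun x hx => hD x (hS hx),
      Finset.sum_add_distrib]
  have h2 : ∑ y ∈ T, D' y + ∑ y ∈ T, r y = (E.filter (fun z => z.2 ∈ T)).card := by
    rw [← sum_fib E Prod.snd T, ← Finset.sum_congr rfl fun y hy => hD' y (hTY hy),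
      Finset.sum_add_distrib]
  have h3 : (E.filter (fun z => z.1 ∈ S)).card =
      (E.filter (fun z => z.1 ∈ S ∧ z.2 ∈ T)).card +
      (E.filter (fun z => z.1 ∈ S ∧ z.2 ∉ T)).card := by
    rw [← Finset.card_filter_add_card_filter_not (s := E.filter (fun z => z.1 ∈ S))
      (fun z => z.2 ∈ T), Finset.filter_filter, Finset.filter_filter]
  have h4 : (E.filter (fun z => z.2 ∈ T)).card =
      (E.filter (fun z => z.1 ∈ S ∧ z.2 ∈ T)).card +
      (E.filter (fun z => z.1 ∉ S ∧ z.2 ∈ T)).card := by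
    rw [← Finset.card_filter_add_card_filter_not (s := E.filter (fun z => z.2 ∈ T))
      (fun z => z.1 ∈ S), Finset.filter_filter, Finset.filter_filter]
    simp only [and_comm]
  have h5 : (E.filter (fun z => z.1 ∉ S ∧ z.2 ∈ T)).card = ee G (X \ S) T := by
    unfold ee
    congr 1
    rw [hE]
    ext z
    simp only [Finset.mem_filter, Finset.mem_product, Finset.mem_sdiff]
    constructor
    · rintro ⟨⟨⟨h1, h2⟩, h3⟩, h4, h5⟩
      exact ⟨⟨⟨h1, h4⟩, h5⟩, h3⟩
    · rintro ⟨⟨⟨h1, h4⟩, h5⟩, h3⟩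
      exact ⟨⟨⟨h1, hTY h5⟩, h3⟩, h4, h5⟩
  have h6 := h (X \ S) Finset.sdiff_subset T hTY
  have h8 : (E.filter (fun z => z.1 ∈ S ∧ z.2 ∉ T)).card + Q.card ≤
      (E.filter (fun z => z.1 ∈ S) ∪ Q).card := by
    rw [← Finset.card_union_of_disjoint]
    · refine Finset.card_le_card ?_
      intro z hz
      rcases Finset.mem_union.1 hz with hz | hz
      · obtain ⟨a, b, c⟩ := Finset.mem_filter.1 hz
        exact Finset.mem_union_left _ (Finset.mem_filter.2 ⟨a, b⟩)
      · exact Finset.mem_union_right _ hz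
    · rw [Finset.disjoint_left]
      intro z hz hzQ
      exact (Finset.mem_filter.1 hz).2.2 (Finset.mem_image_of_mem _ hzQ)
  have h9 : ∑ x ∈ X \ S, r x + ∑ x ∈ S, r x = ∑ x ∈ X, r x := Finset.sum_sdiff hS
  omega

/-- the matching of the gadget -/
lemma hall (G : SimpleGraph V) (X Y : Finset V) (r : V → ℕ) (E : Finset (V × V))
    (hE : E = (X ×ˢ Y).filter (fun z : V × V => G.Adj z.1 z.2)) (D D' : V → ℕ)
    (hD : ∀ x ∈ X, D x + r x = (E.filter (fun z => z.1 = x)).card)
    (hD' : ∀ y ∈ Y, D' y + r y = (E.filter (fun z => z.2 = y)).card)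
    (h : ∀ S ⊆ X, ∀ T ⊆ Y, ∑ x ∈ S, r x + ∑ y ∈ T, r y ≤ ee G S T + ∑ x ∈ X, r x) :
    ∃ f : ((Σ x : {x // x ∈ X}, Fin (D x.1)) ⊕ {e // e ∈ E}) → (V × V) ⊕ (V × ℕ),
      Function.Injective f ∧
      (∀ a, ∃ e ∈ E, e.1 = a.1.1 ∧ f (Sum.inl a) = Sum.inl e) ∧
      ∀ e : {e // e ∈ E}, f (Sum.inr e) = Sum.inl e.1 ∨
        ∃ j < D' e.1.2, f (Sum.inr e) = Sum.inr (e.1.2, j) := by
  let t : ((Σ x : {x // x ∈ X}, Fin (D x.1)) ⊕ {e // e ∈ E}) → Finset ((V × V) ⊕ (V × ℕ)) :=
    Sum.elim (fun a => (E.filter (fun z => z.1 = a.1.1)).image Sum.inl)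
      (fun e => insert (Sum.inl e.1) ((Finset.range (D' e.1.2)).image fun j => Sum.inr (e.1.2, j)))
  have key : ∀ s : Finset ((Σ x : {x // x ∈ X}, Fin (D x.1)) ⊕ {e // e ∈ E}),
      s.card ≤ (s.biUnion t).card := by
    intro s
    set S : Finset V := X.filter (fun x => ∃ a : (Σ x : {x // x ∈ X}, Fin (D x.1)),
      a.1.1 = x ∧ Sum.inl a ∈ s) with hS
    set Q : Finset (V × V) := E.filter (fun e => ∃ h : e ∈ E, Sum.inr ⟨e, h⟩ ∈ s) with hQ
    have h1 := count G X Y r E hE D D' hD hD' h S (Finset.filter_subset _ _) Q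
      (Finset.filter_subset _ _)
    -- upper bound for the left side
    have h2 : s.card ≤ ∑ x ∈ S, D x + Q.card := by
      have h3 : s.card = (s.filter (fun a => a.isLeft = true)).card +
          (s.filter (fun a => ¬ a.isLeft = true)).card :=
        (Finset.card_filter_add_card_filter_not _).symm
      have h4 : (s.filter (fun a => a.isLeft = true)).card ≤ ∑ x ∈ S, D x := by
        have h5 : (S.sigma fun x => Finset.range (D x)).card = ∑ x ∈ S, D x := by
          rw [Finset.card_sigma]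
          exact Finset.sum_congr rfl fun x _ => Finset.card_range _
        rw [← h5]
        refine Finset.card_le_card_of_injOn
          (fun a => Sum.elim (fun a => (⟨a.1.1, a.2.1⟩ : Σ _ : V, ℕ)) (fun e => ⟨e.1.1, 0⟩) a)
          ?_ ?_
        · rintro (a | e) ha
          · have ha' := (Finset.mem_filter.1 ha).1
            refine Finset.mem_coe.2 (Finset.mem_sigma.2 ⟨?_, ?_⟩)
            · exact Finset.mem_filter.2 ⟨a.1.2, a, rfl, ha'⟩
            · exact Finset.mem_range.2 a.2.2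
          · exact absurd (Finset.mem_filter.1 ha).2 (by simp)
        · rintro (a | e) ha (b | e') hb hab
          · simp only [Sum.elim_inl] at hab
            obtain ⟨⟨a, ha1⟩, i, hi⟩ := a
            obtain ⟨⟨b, hb1⟩, j, hj⟩ := b
            simp only [Sigma.mk.injEq, heq_eq_eq] at hab
            obtain ⟨h1, h2⟩ := hab
            subst h1
            subst h2
            rfl
          · exact absurd (Finset.mem_filter.1 hb).2 (by simp)
          · exact absurd (Finset.mem_filter.1 ha).2 (by simp)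
          · exact absurd (Finset.mem_filter.1 ha).2 (by simp)
      have h6 : (s.filter (fun a => ¬ a.isLeft = true)).card ≤ Q.card := by
        by_cases hne : (s.filter (fun a => ¬ a.isLeft = true)).Nonempty
        swap
        · rw [Finset.not_nonempty_iff_eq_empty.1 hne]; simp
        obtain ⟨c, hc⟩ := hne
        obtain ⟨z0⟩ : Nonempty (V × V) := by
          rcases c with a | e
          · exact absurd (Finset.mem_filter.1 hc).2 (by simp)
          · exact ⟨e.1⟩
        refine Finset.card_le_card_of_injOn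
          (fun a => Sum.elim (fun _ => z0) (fun e => e.1) a) ?_ ?_
        · rintro (a | e) ha
          · exact absurd (Finset.mem_filter.1 ha).2 (by simp)
          · exact Finset.mem_coe.2 (Finset.mem_filter.2 ⟨e.2, e.2, (Finset.mem_filter.1 ha).1⟩)
        · rintro (a | e) ha (b | e') hb hab
          · exact absurd (Finset.mem_filter.1 ha).2 (by simp)
          · exact absurd (Finset.mem_filter.1 ha).2 (by simp)
          · exact absurd (Finset.mem_filter.1 hb).2 (by simp)
          · exact congrArg Sum.inr (Subtype.ext hab)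
      omega
    -- lower bound for the right side
    have h7 : (E.filter (fun z => z.1 ∈ S) ∪ Q).card + ∑ y ∈ Q.image Prod.snd, D' y ≤
        (s.biUnion t).card := by
      have h8 : ((Q.image Prod.snd).sigma fun y => Finset.range (D' y)).card =
          ∑ y ∈ Q.image Prod.snd, D' y := by
        rw [Finset.card_sigma]
        exact Finset.sum_congr rfl fun x _ => Finset.card_range _
      have h9 : ((E.filter (fun z => z.1 ∈ S) ∪ Q).image
          (Sum.inl : V × V → (V × V) ⊕ (V × ℕ))).card =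
          (E.filter (fun z => z.1 ∈ S) ∪ Q).card :=
        Finset.card_image_of_injective _ Sum.inl_injective
      have h10 : (((Q.image Prod.snd).sigma fun y => Finset.range (D' y)).image
          (fun p : (Σ _ : V, ℕ) => (Sum.inr (p.1, p.2) : (V × V) ⊕ (V × ℕ)))).card =
          ((Q.image Prod.snd).sigma fun y => Finset.range (D' y)).card := by
        refine Finset.card_image_of_injective _ ?_
        rintro ⟨a, b⟩ ⟨c, d⟩ hab
        simp only [Sum.inr.injEq, Prod.mk.injEq] at hab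
        obtain ⟨h1, h2⟩ := hab
        subst h1
        subst h2
        rfl
      rw [← h8, ← h9, ← h10, ← Finset.card_union_of_disjoint]
      · refine Finset.card_le_card ?_
        intro z hz
        rw [Finset.mem_biUnion]
        rcases Finset.mem_union.1 hz with hz | hz
        · obtain ⟨e, he, rfl⟩ := Finset.mem_image.1 hz
          rcases Finset.mem_union.1 he with he | he
          · obtain ⟨he1, he2⟩ := Finset.mem_filter.1 he
            obtain ⟨_, a, ha1, ha2⟩ := Finset.mem_filter.1 he2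
            exact ⟨Sum.inl a, ha2, Finset.mem_image.2 ⟨e, Finset.mem_filter.2 ⟨he1, ha1.symm⟩, rfl⟩⟩
          · obtain ⟨he1, he2, he3⟩ := Finset.mem_filter.1 he
            exact ⟨Sum.inr ⟨e, he2⟩, he3, Finset.mem_insert_self _ _⟩
        · obtain ⟨⟨y, j⟩, hp, rfl⟩ := Finset.mem_image.1 hz
          obtain ⟨hy, hj⟩ := Finset.mem_sigma.1 hp
          obtain ⟨e, he, rfl⟩ := Finset.mem_image.1 hy
          obtain ⟨he1, he2, he3⟩ := Finset.mem_filter.1 he
          exact ⟨Sum.inr ⟨e, he2⟩, he3, Finset.mem_insert_of_mem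
            (Finset.mem_image.2 ⟨j, hj, rfl⟩)⟩
      · rw [Finset.disjoint_left]
        intro z hz hz'
        obtain ⟨e, _, rfl⟩ := Finset.mem_image.1 hz
        obtain ⟨p, _, hp⟩ := Finset.mem_image.1 hz'
        simp at hp
    omega
  obtain ⟨f, hf, hft⟩ := (Finset.all_card_le_biUnion_card_iff_exists_injective t).1 key
  refine ⟨f, hf, ?_, ?_⟩
  · intro a
    obtain ⟨e, he, he'⟩ := Finset.mem_image.1 (hft (Sum.inl a))
    exact ⟨e, (Finset.mem_filter.1 he).1, (Finset.mem_filter.1 he).2, he'.symm⟩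
  · intro e
    rcases Finset.mem_insert.1 (hft (Sum.inr e)) with h | h
    · exact Or.inl h
    · obtain ⟨j, hj, hj'⟩ := Finset.mem_image.1 h
      exact Or.inr ⟨j, Finset.mem_range.1 hj, hj'.symm⟩

end FFAC

open FFAC in
theorem ffac : S_FFAC := by
  intro V _ G X Y r hXY hcard h
  set E := (X ×ˢ Y).filter (fun z : V × V => G.Adj z.1 z.2) with hE
  have hEX : ∀ z ∈ E, z.1 ∈ X ∧ z.2 ∈ Y ∧ G.Adj z.1 z.2 := by
    intro z hz
    obtain ⟨h1, h2⟩ := Finset.mem_filter.1 hz
    obtain ⟨h3, h4⟩ := Finset.mem_product.1 h1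
    exact ⟨h3, h4, h2⟩
  have hdX : ∀ x ∈ X, r x ≤ (E.filter (fun z => z.1 = x)).card := by
    intro x hx
    have h1 := h {x} (Finset.singleton_subset_iff.2 hx) Y (Finset.Subset.refl _)
    have h2 : ee G {x} Y = (E.filter (fun z => z.1 = x)).card := by
      unfold ee
      congr 1
      ext z
      simp only [hE, Finset.mem_filter, Finset.mem_product, Finset.mem_singleton]
      constructor
      · rintro ⟨⟨h1, h2⟩, h3⟩
        exact ⟨⟨⟨by rw [h1]; exact hx, h2⟩, h3⟩, h1⟩
      · rintro ⟨⟨⟨h1, h2⟩, h3⟩, h4⟩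
        exact ⟨⟨h4, h2⟩, h3⟩
    rw [h2, Finset.sum_singleton, hcard] at h1
    omega
  have hdY : ∀ y ∈ Y, r y ≤ (E.filter (fun z => z.2 = y)).card := by
    intro y hy
    have h1 := h X (Finset.Subset.refl _) {y} (Finset.singleton_subset_iff.2 hy)
    have h2 : ee G X {y} = (E.filter (fun z => z.2 = y)).card := by
      unfold ee
      congr 1
      ext z
      simp only [hE, Finset.mem_filter, Finset.mem_product, Finset.mem_singleton]
      constructor
      · rintro ⟨⟨h1, h2⟩, h3⟩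
        exact ⟨⟨⟨h1, by rw [h2]; exact hy⟩, h3⟩, h2⟩
      · rintro ⟨⟨⟨h1, h2⟩, h3⟩, h4⟩
        exact ⟨⟨h1, h4⟩, h3⟩
    rw [h2, Finset.sum_singleton] at h1
    omega
  set D : V → ℕ := fun x => (E.filter (fun z => z.1 = x)).card - r x with hDdef
  set D' : V → ℕ := fun y => (E.filter (fun z => z.2 = y)).card - r y with hD'def
  have hD : ∀ x ∈ X, D x + r x = (E.filter (fun z => z.1 = x)).card := fun x hx =>
    Nat.sub_add_cancel (hdX x hx)
  have hD' : ∀ y ∈ Y, D' y + r y = (E.filter (fun z => z.2 = y)).card := fun y hy =>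
    Nat.sub_add_cancel (hdY y hy)
  obtain ⟨f, hf, hf1, hf2⟩ := hall G X Y r E hE D D' hD hD' h
  set H0 : Finset (V × V) := E.filter (fun e => ∃ h : e ∈ E, f (Sum.inr ⟨e, h⟩) = Sum.inl e)
    with hH0
  have hH0E : H0 ⊆ E := Finset.filter_subset _ _
  -- degrees of the left side
  have hX : ∀ x ∈ X, (H0.filter (fun z => z.1 = x)).card ≤ r x := by
    intro x hx
    choose g hg1 hg2 hg3 using hf1
    have h1 : (Finset.univ : Finset (Fin (D x))).card ≤
        ((E.filter (fun z => z.1 = x)) \ (H0.filter (fun z => z.1 = x))).card := by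
      refine Finset.card_le_card_of_injOn (fun i => g ⟨⟨x, hx⟩, i⟩) ?_ ?_
      · intro i _
        refine Finset.mem_coe.2 (Finset.mem_sdiff.2 ⟨Finset.mem_filter.2 ⟨hg1 _, hg2 _⟩, ?_⟩)
        intro h2
        obtain ⟨h3, _⟩ := Finset.mem_filter.1 h2
        obtain ⟨_, h4, h5⟩ := Finset.mem_filter.1 h3
        have h6 := hf (h5.trans (hg3 ⟨⟨x, hx⟩, i⟩).symm)
        cases h6
      · intro i _ j _ hij
        have h2 := (hg3 ⟨⟨x, hx⟩, i⟩).trans ((congrArg Sum.inl hij).trans
          (hg3 ⟨⟨x, hx⟩, j⟩).symm)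
        have h3 := Sum.inl_injective (hf h2)
        simpa using h3
    rw [Finset.card_univ, Fintype.card_fin, Finset.card_sdiff_of_subset
      (Finset.filter_subset_filter _ hH0E)] at h1
    have h2 := hD x hx
    have h3 := Finset.card_le_card (Finset.filter_subset_filter (fun z : V × V => z.1 = x) hH0E)
    omega
  -- degrees of the right side
  have hY : ∀ y ∈ Y, r y ≤ (H0.filter (fun z => z.2 = y)).card := by
    intro y hy
    have h0 : ∀ e ∈ (E.filter (fun z => z.2 = y)) \ (H0.filter (fun z => z.2 = y)),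
        ∃ (he : e ∈ E) (j : ℕ), e.2 = y ∧ j < D' y ∧ f (Sum.inr ⟨e, he⟩) = Sum.inr (y, j) := by
      intro e he
      obtain ⟨h1, h2⟩ := Finset.mem_sdiff.1 he
      obtain ⟨h3, h4⟩ := Finset.mem_filter.1 h1
      rcases hf2 ⟨e, h3⟩ with h5 | ⟨j, hj, h5⟩
      · exact absurd (Finset.mem_filter.2 ⟨Finset.mem_filter.2 ⟨h3, h3, h5⟩, h4⟩) h2
      · subst h4
        exact ⟨h3, j, rfl, hj, h5⟩
    choose! he j h2 hj h5 using h0
    have h1 : ((E.filter (fun z => z.2 = y)) \ (H0.filter (fun z => z.2 = y))).card ≤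
        (Finset.range (D' y)).card := by
      refine Finset.card_le_card_of_injOn j ?_ ?_
      · intro e he'
        exact Finset.mem_coe.2 (Finset.mem_range.2 (hj e he'))
      · intro a ha b hb hab
        have h3 := (h5 a ha).trans ((congrArg (fun j => Sum.inr (y, j)) hab).trans (h5 b hb).symm)
        have h4 := Sum.inr_injective (hf h3)
        simpa using h4
    rw [Finset.card_range, Finset.card_sdiff_of_subset
      (Finset.filter_subset_filter _ hH0E)] at h1
    have h2 := hD' y hy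
    omega
  -- equality
  have hs1 : ∑ x ∈ X, (H0.filter (fun z => z.1 = x)).card = H0.card := by
    rw [sum_fib H0 Prod.fst X, Finset.filter_true_of_mem fun z hz => (hEX z (hH0E hz)).1]
  have hs2 : ∑ y ∈ Y, (H0.filter (fun z => z.2 = y)).card = H0.card := by
    rw [sum_fib H0 Prod.snd Y, Finset.filter_true_of_mem fun z hz => (hEX z (hH0E hz)).2.1]
  have hc1 : ∑ x ∈ X, (H0.filter (fun z => z.1 = x)).card ≤ ∑ x ∈ X, r x :=
    Finset.sum_le_sum hX
  have hc2 : ∑ y ∈ Y, r y ≤ ∑ y ∈ Y, (H0.filter (fun z => z.2 = y)).card :=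
    Finset.sum_le_sum hY
  have hc3 : ∑ x ∈ X, r x = ∑ y ∈ Y, r y := hcard
  have hX' : ∀ x ∈ X, (H0.filter (fun z => z.1 = x)).card = r x :=
    (Finset.sum_eq_sum_iff_of_le hX).1 (le_antisymm hc1 (by rw [hs1, ← hs2, hc3]; exact hc2))
  have hY' : ∀ y ∈ Y, r y = (H0.filter (fun z => z.2 = y)).card :=
    (Finset.sum_eq_sum_iff_of_le hY).1 (le_antisymm hc2 (by rw [hs2, ← hs1, ← hc3]; exact hc1))
  have hdisj : ∀ a, a ∈ X → a ∈ Y → False := fun a h1 h2 =>
    (Finset.disjoint_left.1 hXY) h1 h2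
  obtain ⟨H, hH⟩ : ∃ H : SimpleGraph V, ∀ a b, H.Adj a b ↔ ((a, b) ∈ H0 ∨ (b, a) ∈ H0) :=
    ⟨{ Adj := fun a b => (a, b) ∈ H0 ∨ (b, a) ∈ H0
       symm := ⟨fun a b h => h.symm⟩
       loopless := ⟨fun a h => by
        have h1 : (a, a) ∈ H0 := h.elim id id
        obtain ⟨h2, h3, _⟩ := hEX _ (hH0E h1)
        exact hdisj a h2 h3⟩ }, fun _ _ => Iff.rfl⟩
  refine ⟨H, ?_, ?_, fun v hv => (Finset.mem_union.1 hv).elim (fun hv => ?_) fun hv => ?_⟩
  · intro a b hab
    rcases (hH a b).1 hab with hab | hab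
    · exact (hEX _ (hH0E hab)).2.2
    · exact (hEX _ (hH0E hab)).2.2.symm
  · intro a b hab
    rcases (hH a b).1 hab with hab | hab
    · exact Or.inl ⟨(hEX _ (hH0E hab)).1, (hEX _ (hH0E hab)).2.1⟩
    · exact Or.inr ⟨(hEX _ (hH0E hab)).2.1, (hEX _ (hH0E hab)).1⟩
  · revert v
    intro x _ hx
    rw [← hX' x hx]
    unfold dg
    symm
    refine Finset.card_bij (fun z _ => z.2) ?_ ?_ ?_
    · intro z hz
      obtain ⟨h1, h2⟩ := Finset.mem_filter.1 hz
      refine Finset.mem_filter.2 ⟨Finset.mem_univ _, (hH _ _).2 (Or.inl ?_)⟩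
      rw [← h2]
      exact h1
    · intro z hz w hw hzw
      exact Prod.ext ((Finset.mem_filter.1 hz).2.trans (Finset.mem_filter.1 hw).2.symm) hzw
    · intro b hb
      rcases (hH _ _).1 (Finset.mem_filter.1 hb).2 with hb | hb
      · exact ⟨(x, b), Finset.mem_filter.2 ⟨hb, rfl⟩, rfl⟩
      · exact (hdisj x hx (hEX _ (hH0E hb)).2.1).elim
  · revert v
    intro y _ hy
    rw [hY' y hy]
    unfold dg
    symm
    refine Finset.card_bij (fun z _ => z.1) ?_ ?_ ?_
    · intro z hz
      obtain ⟨h1, h2⟩ := Finset.mem_filter.1 hz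
      refine Finset.mem_filter.2 ⟨Finset.mem_univ _, (hH _ _).2 (Or.inr ?_)⟩
      rw [← h2]
      exact h1
    · intro z hz w hw hzw
      exact Prod.ext hzw ((Finset.mem_filter.1 hz).2.trans (Finset.mem_filter.1 hw).2.symm)
    · intro b hb
      rcases (hH _ _).1 (Finset.mem_filter.1 hb).2 with hb | hb
      · exact (hdisj y (hEX _ (hH0E hb)).1 hy).elim
      · exact ⟨(b, y), Finset.mem_filter.2 ⟨hb, rfl⟩, rfl⟩

end Pool.Agent.H35.XR
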