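import Pool.Agent.H35.XR.Stm3

/-!
# Stub XR-LARGE2 (helper33): many edges between a large subset of a sample and its complement
-/

set_option autoImplicit false

open Finset
open scoped Classical

namespace Pool.Agent.H35.XR

open Pool.Agent.H35.RD

namespace LARGE2

variable {V : Type} [Fintype V]

/-- the cells of one class -/
theorem cells {M : ℕ} (χ : V → Fin M) (col : V → Bool) (Q : Finset V) (s n : Fin M × Bool → ℝ)
    (hs : ∀ i, s i = ((Q.filter (fun v => (χ v, col v) = i)).card : ℝ))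
    (hn : ∀ i, n i = (((univ : Finset V).filter (fun v => (χ v, col v) = i)).card : ℝ))
    (a : Fin M) :
    ∑ x ∈ univ.filter (fun x => χ x = a), s (χ x, col x) / n (χ x, col x) =
      ((Q.filter (fun x => χ x = a)).card : ℝ) := by
  have hle : ∀ i, s i ≤ n i := by
    intro i
    rw [hs, hn]
    exact_mod_cast Finset.card_le_card (Finset.filter_subset_filter _ (Finset.subset_univ Q))
  have hs0 : ∀ i, 0 ≤ s i := fun i => by rw [hs]; exact Nat.cast_nonneg _
  have hn0 : ∀ i, 0 ≤ n i := fun i => by rw [hn]; exact Nat.cast_nonneg _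
  have hc : ∀ i, ∑ x ∈ (univ : Finset V).filter (fun v => (χ v, col v) = i),
      s (χ x, col x) / n (χ x, col x) = s i := by
    intro i
    rw [Finset.sum_congr rfl fun x hx => by rw [(Finset.mem_filter.1 hx).2]]
    rw [Finset.sum_const, nsmul_eq_mul, ← hn]
    rcases eq_or_lt_of_le (hn0 i) with h | h
    · have h2 : s i = 0 := le_antisymm (by rw [h]; exact hle i) (hs0 i)
      rw [h2, zero_div, mul_zero]
    · field_simp
  rw [← Finset.sum_fiberwise (univ.filter (fun x => χ x = a)) col,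
    Finset.card_eq_sum_card_fiberwise (f := col) (t := univ) (fun x _ => by simp)]
  push_cast
  refine Finset.sum_congr rfl fun b _ => ?_
  rw [Finset.filter_filter, Finset.filter_filter]
  have e1 : (univ : Finset V).filter (fun x => χ x = a ∧ col x = b) =
      univ.filter (fun v => (χ v, col v) = (a, b)) := by
    ext x; simp
  have e2 : Q.filter (fun x => χ x = a ∧ col x = b) =
      Q.filter (fun v => (χ v, col v) = (a, b)) := by
    ext x; simp
  rw [e1, e2, hc, hs]

theorem fib {M : ℕ} (χ : V → Fin M) (col : V → Bool) (p : V → ℝ) (ξ φ : Fin M × Bool → ℝ)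
    (hξ : ∀ i, ξ i = ∑ v ∈ univ.filter (fun v => (χ v, col v) = i), p v) :
    ∑ v, φ (χ v, col v) * p v = ∑ i, φ i * ξ i := by
  rw [← Finset.sum_fiberwise univ (fun v => (χ v, col v))]
  refine Finset.sum_congr rfl fun i _ => ?_
  rw [hξ, Finset.mul_sum]
  refine Finset.sum_congr rfl fun x hx => ?_
  rw [(Finset.mem_filter.1 hx).2]

theorem fm_err (G : SimpleGraph V) (h g E : V → ℝ) (h1 : ∀ v, 0 ≤ h v ∧ h v ≤ 1)
    (hE : ∀ v, 0 ≤ E v) (hg : ∀ v, 1 - h v ≤ g v + E v) :
    fm G h (fun v => 1 - h v) ≤ fm G h g + ∑ v, E v * dg G v := by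
  have e1 : ∑ x, ∑ y, (if G.Adj x y then E y else 0) = ∑ v, E v * dg G v := by
    rw [Finset.sum_comm]
    refine Finset.sum_congr rfl fun y _ => ?_
    rw [← Finset.sum_filter, Finset.sum_const, nsmul_eq_mul, mul_comm]
    congr 2
    unfold dg
    congr 1
    ext x
    simp only [mem_filter, mem_univ, true_and]
    exact ⟨fun h => h.symm, fun h => h.symm⟩
  rw [← e1]
  unfold fm
  rw [← Finset.sum_add_distrib]
  refine Finset.sum_le_sum fun x _ => ?_
  rw [← Finset.sum_add_distrib]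
  refine Finset.sum_le_sum fun y _ => ?_
  split_ifs with hxy
  · have a1 := mul_le_mul_of_nonneg_left (hg y) (h1 x).1
    have a2 : h x * E y ≤ E y := mul_le_of_le_one_left (hE y) (h1 x).2
    nlinarith
  · simp

end LARGE2

theorem large2 : S_LARGE2 := by
  intro V _ _ G col D η κ γ τ e M χ W S hD hη hη1 hγ hτ hEx hNH hWR hWRF hW hSW hSγ hTγ
  have hN : (0 : ℝ) < Fintype.card V := by exact_mod_cast Fintype.card_pos
  obtain ⟨p, hp⟩ : ∃ p : V → ℝ, ∀ v, p v = η * dg G v / (2 * D) := ⟨_, fun _ => rfl⟩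
  have hp1 : ∀ v, η ^ 2 / 2 ≤ p v := by
    intro v
    rw [hp, le_div_iff₀ (by positivity)]
    have := mul_le_mul_of_nonneg_left (hEx.lo v) hη.le
    nlinarith
  have hp2 : ∀ v, p v ≤ 1 := by
    intro v
    rw [hp, div_le_one (by positivity)]
    linarith [hEx.hi v]
  have hp0 : ∀ v, 0 < p v := fun v => lt_of_lt_of_le (by positivity) (hp1 v)
  obtain ⟨s, hs⟩ : ∃ s : Fin M × Bool → ℝ,
      ∀ i, s i = ((S.filter (fun v => (χ v, col v) = i)).card : ℝ) := ⟨_, fun _ => rfl⟩
  obtain ⟨t, ht⟩ : ∃ t : Fin M × Bool → ℝ,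
      ∀ i, t i = (((W \ S).filter (fun v => (χ v, col v) = i)).card : ℝ) := ⟨_, fun _ => rfl⟩
  obtain ⟨n, hn⟩ : ∃ n : Fin M × Bool → ℝ,
      ∀ i, n i = (((univ : Finset V).filter (fun v => (χ v, col v) = i)).card : ℝ) :=
    ⟨_, fun _ => rfl⟩
  obtain ⟨ξ, hξ⟩ : ∃ ξ : Fin M × Bool → ℝ,
      ∀ i, ξ i = ∑ v ∈ univ.filter (fun v => (χ v, col v) = i), p v := ⟨_, fun _ => rfl⟩
  have hs0 : ∀ i, 0 ≤ s i := fun i => by rw [hs]; exact Nat.cast_nonneg _
  have ht0 : ∀ i, 0 ≤ t i := fun i => by rw [ht]; exact Nat.cast_nonneg _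
  have hn0 : ∀ i, 0 ≤ n i := fun i => by rw [hn]; exact Nat.cast_nonneg _
  have hsn : ∀ i, s i ≤ n i := by
    intro i
    rw [hs, hn]
    exact_mod_cast Finset.card_le_card (Finset.filter_subset_filter _ (Finset.subset_univ _))
  have htn : ∀ i, t i ≤ n i := by
    intro i
    rw [ht, hn]
    exact_mod_cast Finset.card_le_card (Finset.filter_subset_filter _ (Finset.subset_univ _))
  have hξn : ∀ i, η ^ 2 / 2 * n i ≤ ξ i := by
    intro i
    calc η ^ 2 / 2 * n i = ∑ _v ∈ univ.filter (fun v => (χ v, col v) = i), η ^ 2 / 2 := by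
          rw [Finset.sum_const, nsmul_eq_mul, hn]; ring
      _ ≤ ∑ v ∈ univ.filter (fun v => (χ v, col v) = i), p v :=
          Finset.sum_le_sum fun v _ => hp1 v
      _ = ξ i := (hξ i).symm
  have hξ0 : ∀ i, 0 ≤ ξ i := fun i => le_trans (mul_nonneg (by positivity) (hn0 i)) (hξn i)
  have hst : ∀ i, |s i + t i - ξ i| ≤ τ * Fintype.card V := by
    rintro ⟨a, b⟩
    have h1 := hW a b
    have e1 : (univ : Finset V).filter (fun x => χ x = a ∧ col x = b) =
        univ.filter (fun v => (χ v, col v) = (a, b)) := by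
      ext x; simp
    rw [e1] at h1
    have e2 : ((W ∩ univ.filter (fun v => (χ v, col v) = (a, b))).card : ℝ) =
        s (a, b) + t (a, b) := by
      rw [hs, ht, ← Nat.cast_add]
      congr 1
      rw [← Finset.card_inter_add_card_sdiff _ S]
      congr 2
      · ext x
        simp only [mem_inter, mem_filter, mem_univ, true_and]
        exact ⟨fun h => ⟨h.2, h.1.2⟩, fun h => ⟨⟨hSW h.1, h.2⟩, h.1⟩⟩
      · ext x
        simp only [mem_inter, mem_filter, mem_univ, true_and, mem_sdiff]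
        tauto
    have e3 : ξ (a, b) = ∑ v ∈ univ.filter (fun v => (χ v, col v) = (a, b)),
        η * dg G v / (2 * D) := by
      rw [hξ]
      exact Finset.sum_congr rfl fun v _ => hp v
    rw [e2, ← e3] at h1
    exact h1
  have hsumS : (S.card : ℝ) = ∑ i, s i := by
    rw [Finset.card_eq_sum_card_fiberwise (f := fun v => (χ v, col v)) (t := univ)
      (fun x _ => by simp)]
    push_cast
    exact Finset.sum_congr rfl fun a _ => (hs a).symm
  have hsumT : ((W \ S).card : ℝ) = ∑ i, t i := by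
    rw [Finset.card_eq_sum_card_fiberwise (f := fun v => (χ v, col v)) (t := univ)
      (fun x _ => by simp)]
    push_cast
    exact Finset.sum_congr rfl fun a _ => (ht a).symm
  have hτN : 0 < τ * Fintype.card V := mul_pos hτ hN
  have hconst : ∑ _i : Fin M × Bool, τ * (Fintype.card V : ℝ) =
      2 * M * τ * Fintype.card V := by
    rw [Finset.sum_const, card_univ, Fintype.card_prod, Fintype.card_fin, Fintype.card_bool,
      nsmul_eq_mul]
    push_cast
    ring
  -- the functions on the cells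
  obtain ⟨φ, hφ⟩ : ∃ φ : Fin M × Bool → ℝ, ∀ i, φ i = min 1 (s i / ξ i) := ⟨_, fun _ => rfl⟩
  obtain ⟨ψ, hψ⟩ : ∃ ψ : Fin M × Bool → ℝ, ∀ i, ψ i = min 1 (t i / ξ i) := ⟨_, fun _ => rfl⟩
  have hφ01 : ∀ i, 0 ≤ φ i ∧ φ i ≤ 1 := fun i => by
    rw [hφ]; exact ⟨le_min zero_le_one (div_nonneg (hs0 _) (hξ0 _)), min_le_left _ _⟩
  have hψ01 : ∀ i, 0 ≤ ψ i ∧ ψ i ≤ 1 := fun i => by
    rw [hψ]; exact ⟨le_min zero_le_one (div_nonneg (ht0 _) (hξ0 _)), min_le_left _ _⟩
  have hφξ : ∀ i, s i - τ * Fintype.card V ≤ φ i * ξ i := by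
    intro i
    have h1 := (abs_le.1 (hst i)).2
    have h2 := ht0 i
    rcases eq_or_lt_of_le (hξ0 i) with h | h
    · rw [← h] at h1 ⊢
      rw [mul_zero]
      linarith
    · rw [hφ, min_mul_of_nonneg _ _ h.le, one_mul, div_mul_cancel₀ _ h.ne']
      exact le_min (by linarith) (by linarith)
  have hφξ' : ∀ i, t i - τ * Fintype.card V ≤ (1 - φ i) * ξ i := by
    intro i
    have h1 := (abs_le.1 (hst i)).2
    have h2 := hs0 i
    rcases eq_or_lt_of_le (hξ0 i) with h | h
    · rw [← h] at h1 ⊢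
      rw [mul_zero]
      linarith
    · have h3 : φ i * ξ i ≤ s i := by
        rw [hφ, min_mul_of_nonneg _ _ h.le, div_mul_cancel₀ _ h.ne']
        exact min_le_right _ _
      have h4 : (1 - φ i) * ξ i = ξ i - φ i * ξ i := by ring
      rw [h4]
      linarith
  have hfib := LARGE2.fib χ col p ξ
  have hA1 : γ * Fintype.card V ≤ ∑ v, φ (χ v, col v) := by
    have h1 : ∑ v, φ (χ v, col v) * p v ≤ ∑ v, φ (χ v, col v) :=
      Finset.sum_le_sum fun v _ => mul_le_of_le_one_right (hφ01 _).1 (hp2 v)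
    have h2 : ∑ i, (s i - τ * Fintype.card V) ≤ ∑ i, φ i * ξ i :=
      Finset.sum_le_sum fun i _ => hφξ i
    rw [Finset.sum_sub_distrib, ← hsumS, hconst] at h2
    rw [hfib φ hξ] at h1
    linarith
  have hA2 : γ * Fintype.card V ≤ ∑ v, (1 - φ (χ v, col v)) := by
    have h1 : ∑ v, (1 - φ (χ v, col v)) * p v ≤ ∑ v, (1 - φ (χ v, col v)) :=
      Finset.sum_le_sum fun v _ => mul_le_of_le_one_right (by linarith [(hφ01 (χ v, col v)).2])
        (hp2 v)
    have h2 : ∑ i, (t i - τ * Fintype.card V) ≤ ∑ i, (1 - φ i) * ξ i :=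
      Finset.sum_le_sum fun i _ => hφξ' i
    rw [Finset.sum_sub_distrib, ← hsumT, hconst] at h2
    have h3 := hfib (fun i => 1 - φ i) hξ
    rw [h3] at h1
    linarith
  have hmain := hNH (fun v => φ (χ v, col v)) (fun v => hφ01 _) hA1 hA2
  -- the error term
  have hkey : ∀ v, 1 - φ (χ v, col v) ≤ ψ (χ v, col v) +
      τ * Fintype.card V / ξ (χ v, col v) := by
    intro v
    have hv : v ∈ univ.filter (fun u => (χ u, col u) = (χ v, col v)) := by simp
    have hξp : 0 < ξ (χ v, col v) := by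
      rw [hξ]
      exact Finset.sum_pos (fun u _ => hp0 u) ⟨v, hv⟩
    have h1 := (abs_le.1 (hst (χ v, col v))).1
    have hq : 0 < τ * Fintype.card V / ξ (χ v, col v) := div_pos hτN hξp
    by_cases h2 : 1 ≤ s (χ v, col v) / ξ (χ v, col v)
    · rw [hφ, min_eq_left h2]
      linarith [(hψ01 (χ v, col v)).1]
    · push Not at h2
      by_cases h3 : 1 ≤ t (χ v, col v) / ξ (χ v, col v)
      · have h4 : ψ (χ v, col v) = 1 := by rw [hψ, min_eq_left h3]
        rw [h4]
        linarith [(hφ01 (χ v, col v)).1]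
      · push Not at h3
        rw [hφ, hψ, min_eq_right h2.le, min_eq_right h3.le, ← add_div, sub_le_iff_le_add,
          ← add_div, le_div_iff₀ hξp]
        linarith
  have herr := LARGE2.fm_err G (fun v => φ (χ v, col v)) (fun v => ψ (χ v, col v))
    (fun v => τ * Fintype.card V / ξ (χ v, col v)) (fun v => hφ01 _)
    (fun v => div_nonneg hτN.le (hξ0 _)) hkey
  have herr2 : ∑ v, τ * Fintype.card V / ξ (χ v, col v) * dg G v ≤
      4 * M * τ / η * D * Fintype.card V := by
    have h1 : ∑ v, τ * Fintype.card V / ξ (χ v, col v) * dg G v =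
        2 * D / η * ∑ v, τ * Fintype.card V / ξ (χ v, col v) * p v := by
      rw [Finset.mul_sum]
      refine Finset.sum_congr rfl fun v _ => ?_
      rw [hp]
      field_simp
    have h2 := hfib (fun i => τ * Fintype.card V / ξ i) hξ
    rw [h1, h2]
    have h3 : ∑ i, τ * Fintype.card V / ξ i * ξ i ≤ ∑ _i : Fin M × Bool, τ * (Fintype.card V : ℝ) := by
      refine Finset.sum_le_sum fun i _ => ?_
      rcases eq_or_lt_of_le (hξ0 i) with h | h
      · rw [← h, mul_zero]; exact hτN.le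
      · rw [div_mul_cancel₀ _ h.ne']
    rw [hconst] at h3
    calc _ ≤ 2 * D / η * (2 * M * τ * Fintype.card V) :=
          mul_le_mul_of_nonneg_left h3 (by positivity)
      _ = _ := by ring
  have hfm : (κ - 4 * M * τ / η) * D * Fintype.card V ≤
      fm G (fun v => φ (χ v, col v)) (fun v => ψ (χ v, col v)) := by
    have : (κ - 4 * M * τ / η) * D * Fintype.card V = κ * D * Fintype.card V -
        4 * M * τ / η * D * Fintype.card V := by ring
    rw [this]
    linarith
  -- the densities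
  have hdens : ∀ (u : Fin M × Bool → ℝ) (v : V), (∀ i, 0 ≤ u i) →
      η ^ 2 / 2 * min 1 (u (χ v, col v) / ξ (χ v, col v)) ≤ u (χ v, col v) / n (χ v, col v) := by
    intro u v hu
    have hv : v ∈ univ.filter (fun u => (χ u, col u) = (χ v, col v)) := by simp
    have hnp : 0 < n (χ v, col v) := by
      rw [hn]; exact_mod_cast Finset.card_pos.2 ⟨v, hv⟩
    have hξp : 0 < ξ (χ v, col v) := lt_of_lt_of_le (by positivity) (hξn _)
    calc η ^ 2 / 2 * min 1 (u (χ v, col v) / ξ (χ v, col v)) ≤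
          η ^ 2 / 2 * (u (χ v, col v) / ξ (χ v, col v)) :=
          mul_le_mul_of_nonneg_left (min_le_right _ _) (by positivity)
      _ ≤ u (χ v, col v) / n (χ v, col v) := by
          rw [mul_div_assoc', div_le_div_iff₀ hξp hnp]
          have := mul_le_mul_of_nonneg_left (hξn (χ v, col v)) (hu (χ v, col v))
          nlinarith
  have h2 : η ^ 4 / 4 * fm G (fun v => φ (χ v, col v)) (fun v => ψ (χ v, col v)) ≤
      fm G (fun v => s (χ v, col v) / n (χ v, col v))
        (fun v => t (χ v, col v) / n (χ v, col v)) := by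
    unfold fm
    rw [Finset.mul_sum]
    refine Finset.sum_le_sum fun x _ => ?_
    rw [Finset.mul_sum]
    refine Finset.sum_le_sum fun y _ => ?_
    split_ifs with h
    · have a1 := hdens s x hs0
      have a2 := hdens t y ht0
      rw [← hφ] at a1
      rw [← hψ] at a2
      calc η ^ 4 / 4 * (φ (χ x, col x) * ψ (χ y, col y)) =
            (η ^ 2 / 2 * φ (χ x, col x)) * (η ^ 2 / 2 * ψ (χ y, col y)) := by ring
        _ ≤ _ := mul_le_mul a1 a2 (mul_nonneg (by positivity) (hψ01 _).1)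
            (div_nonneg (hs0 _) (hn0 _))
    · simp
  have h3 := hWR S (W \ S)
  have h4 := hWRF (fun v => s (χ v, col v) / n (χ v, col v))
    (fun v => t (χ v, col v) / n (χ v, col v))
    (fun v => ⟨div_nonneg (hs0 _) (hn0 _), div_le_one_of_le₀ (hsn _) (hn0 _)⟩)
    (fun v => ⟨div_nonneg (ht0 _) (hn0 _), div_le_one_of_le₀ (htn _) (hn0 _)⟩)
  rw [abs_le] at h3 h4
  simp only [LARGE2.cells χ col S s n hs hn, LARGE2.cells χ col (W \ S) t n ht hn] at h4
  have h5 := mul_le_mul_of_nonneg_left hfm (show 0 ≤ η ^ 4 / 4 by positivity)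
  linarith [h3.1, h3.2, h4.1, h4.2]

end Pool.Agent.H35.XR
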