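import Pool.Agent.H35.XR.Stm3
import Pool.Agent.H35.XR.NH

/-! XR-NH2 (helper67): the variant of the robust Hall condition for one function. -/

set_option autoImplicit false
set_option linter.unusedSectionVars false

open Finset
open scoped Classical

namespace Pool.Agent.H35.XR

open Pool.Agent.H35.RD

namespace NH2aux

open NHaux

variable {V : Type} [Fintype V] {G : SimpleGraph V}

lemma M1 (u : V → ℝ) : ∑ x, ∑ y, a G x y * u x = ∑ x, u x * dg G x := by
  refine Finset.sum_congr rfl fun x _ => ?_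
  rw [← sum_a, Finset.mul_sum]
  refine Finset.sum_congr rfl fun y _ => ?_
  ring

lemma M2 (u : V → ℝ) : ∑ x, ∑ y, a G x y * u y = ∑ y, u y * dg G y := by
  rw [Finset.sum_comm, ← M1]
  refine Finset.sum_congr rfl fun y _ => ?_
  refine Finset.sum_congr rfl fun x _ => ?_
  rw [a_symm]

lemma swap (F : V → V → ℝ) : ∑ x, ∑ y, a G x y * F x y = ∑ x, ∑ y, a G x y * F y x := by
  rw [Finset.sum_comm]
  refine Finset.sum_congr rfl fun y _ => ?_
  refine Finset.sum_congr rfl fun x _ => ?_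
  rw [a_symm]

end NH2aux

open NHaux NH2aux in
theorem nh2 : S_ISO → S_NH2 := by
  intro hISO V _ _ G D η γ hD hη hη1 hγ hγ1 hEx h hh01 hs1 hs2
  obtain ⟨N, hN⟩ : ∃ N : ℝ, N = Fintype.card V := ⟨_, rfl⟩
  have hN0 : 0 ≤ N := by rw [hN]; positivity
  have hNpos : 0 < N := by rw [hN]; exact_mod_cast Fintype.card_pos
  rw [← hN] at hs1 hs2 ⊢
  have hprs : (prs G : ℝ) = ∑ x, (dg G x : ℝ) := by
    rw [← sum_sum_a]
    exact Finset.sum_congr rfl fun x _ => sum_a x
  have hElo : η * D * N ≤ prs G := by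
    have : ∑ _x : V, η * D ≤ ∑ x, (dg G x : ℝ) := Finset.sum_le_sum fun x _ => hEx.lo x
    rw [Finset.sum_const, Finset.card_univ, nsmul_eq_mul, ← hN, ← hprs] at this
    linarith
  have hfm : fm G h (fun v => 1 - h v) = ∑ x, ∑ y, a G x y * (h x * (1 - h y)) := by
    unfold fm
    refine Finset.sum_congr rfl fun x _ => ?_
    refine Finset.sum_congr rfl fun y _ => ?_
    unfold a
    split_ifs <;> ring
  obtain ⟨Z, hZ⟩ : ∃ Z : ℝ, Z = ∑ x, ∑ y, a G x y * |h x - h y| := ⟨_, rfl⟩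
  have hsym : ∑ x, ∑ y, (if G.Adj x y then |h x - h y| else 0) = Z := by
    rw [hZ]
    refine Finset.sum_congr rfl fun x _ => ?_
    refine Finset.sum_congr rfl fun y _ => ?_
    unfold a
    split_ifs <;> ring
  have hP : Z / 2 ≤ fm G h (fun v => 1 - h v) := by
    have h1 : Z ≤ fm G h (fun v => 1 - h v) + fm G h (fun v => 1 - h v) := by
      rw [hfm]
      nth_rw 2 [swap]
      rw [hZ, ← Finset.sum_add_distrib]
      refine Finset.sum_le_sum fun x _ => ?_
      rw [← Finset.sum_add_distrib]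
      refine Finset.sum_le_sum fun y _ => ?_
      rw [← mul_add]
      refine mul_le_mul_of_nonneg_left ?_ (a_nonneg G x y)
      have hx := hh01 x
      have hy := hh01 y
      rcases abs_cases (h x - h y) with ⟨h2, _⟩ | ⟨h2, _⟩ <;> rw [h2]
      · nlinarith [mul_nonneg hy.1 (sub_nonneg.2 hx.2)]
      · nlinarith [mul_nonneg hx.1 (sub_nonneg.2 hy.2)]
    linarith
  by_cases hcase : γ * η ^ 3 / 8 * D * N ≤ Z
  · refine le_trans ?_ hP
    have h3 : 0 ≤ γ * η ^ 3 / 64 * D * N := by positivity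
    linarith
  · push Not at hcase
    obtain ⟨v₀, hv₀⟩ := hISO V G D η hEx.ex h
    rw [hsym] at hv₀
    obtain ⟨θ, hθ⟩ : ∃ θ : ℝ, θ = h v₀ := ⟨_, rfl⟩
    rw [← hθ] at hv₀
    have hθ01 : 0 ≤ θ ∧ θ ≤ 1 := by rw [hθ]; exact hh01 v₀
    obtain ⟨Q, hQ⟩ : ∃ Q : ℝ, Q = ∑ v, |h v - θ| := ⟨_, rfl⟩
    rw [← hQ] at hv₀
    have hQ0 : 0 ≤ Q := by rw [hQ]; exact Finset.sum_nonneg fun _ _ => abs_nonneg _
    have hQ1 : Q ≤ γ * η ^ 2 / 16 * N := by
      have h1 : (2 * (η * D)) * Q ≤ (2 * (η * D)) * (γ * η ^ 2 / 16 * N) := by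
        calc (2 * (η * D)) * Q ≤ Z := hv₀
          _ ≤ γ * η ^ 3 / 8 * D * N := hcase.le
          _ = (2 * (η * D)) * (γ * η ^ 2 / 16 * N) := by ring
      exact le_of_mul_le_mul_left h1 (by positivity)
    have hη2 : η ^ 2 ≤ 1 := pow_le_one₀ hη.le hη1
    have hQ2 : γ * η ^ 2 / 16 * N ≤ γ / 16 * N := by
      have : γ * η ^ 2 ≤ γ := by nlinarith
      nlinarith
    have hθlo : γ / 2 ≤ θ := by
      have h1 : ∑ v, h v ≤ ∑ v : V, (θ + |h v - θ|) := by
        refine Finset.sum_le_sum fun v _ => ?_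
        have := le_abs_self (h v - θ)
        linarith
      rw [Finset.sum_add_distrib, Finset.sum_const, Finset.card_univ, nsmul_eq_mul, ← hN, ← hQ] at h1
      have h2 : γ * N ≤ N * θ + γ / 16 * N := by linarith
      have h3 : N * (γ / 2) ≤ N * θ := by nlinarith
      exact le_of_mul_le_mul_left h3 hNpos
    have hθhi : γ / 2 ≤ 1 - θ := by
      have h1 : ∑ v, (1 - h v) ≤ ∑ v : V, ((1 - θ) + |h v - θ|) := by
        refine Finset.sum_le_sum fun v _ => ?_
        have h2 := neg_abs_le (h v - θ)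
        linarith
      rw [Finset.sum_add_distrib, Finset.sum_const, Finset.card_univ, nsmul_eq_mul, ← hN, ← hQ] at h1
      have h2 : γ * N ≤ N * (1 - θ) + γ / 16 * N := by linarith
      have h3 : N * (γ / 2) ≤ N * (1 - θ) := by nlinarith
      exact le_of_mul_le_mul_left h3 hNpos
    have hθθ : γ / 4 ≤ θ * (1 - θ) := by
      rcases le_total θ (1 / 2) with h1 | h1
      · nlinarith
      · nlinarith
    have hlow : θ * (1 - θ) * prs G - 2 * ∑ v, (dg G v : ℝ) * |h v - θ| ≤ fm G h (fun v => 1 - h v) := by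
      have e1 : 2 * ∑ v, (dg G v : ℝ) * |h v - θ| =
          ∑ x, ∑ y, a G x y * |h x - θ| + ∑ x, ∑ y, a G x y * |h y - θ| := by
        rw [M1 (fun x => |h x - θ|), M2 (fun y => |h y - θ|), two_mul]
        congr 1 <;> exact Finset.sum_congr rfl fun x _ => by ring
      rw [e1, hfm, ← sum_sum_a, Finset.mul_sum, ← Finset.sum_add_distrib, ← Finset.sum_sub_distrib]
      refine Finset.sum_le_sum fun x _ => ?_
      rw [Finset.mul_sum, ← Finset.sum_add_distrib, ← Finset.sum_sub_distrib]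
      refine Finset.sum_le_sum fun y _ => ?_
      have h1 : θ * (1 - θ) * a G x y - (a G x y * |h x - θ| + a G x y * |h y - θ|) =
          a G x y * (θ * (1 - θ) - |h x - θ| - |h y - θ|) := by ring
      rw [h1]
      refine mul_le_mul_of_nonneg_left ?_ (a_nonneg G x y)
      have hx := hh01 x
      have hy := hh01 y
      have h2 : h x * (1 - h y) - θ * (1 - θ) = (h x - θ) * (1 - h y) + θ * (θ - h y) := by ring
      have h3 : -|h x - θ| ≤ (h x - θ) * (1 - h y) := by
        have h4 := neg_abs_le (h x - θ)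
        have h5 := abs_nonneg (h x - θ)
        nlinarith
      have h6 : -|h y - θ| ≤ θ * (θ - h y) := by
        have h4 := le_abs_self (h y - θ)
        have h5 := abs_nonneg (h y - θ)
        nlinarith [hθ01.1, hθ01.2]
      linarith
    have hsum : ∑ v, (dg G v : ℝ) * |h v - θ| ≤ γ * η / 16 * D * N := by
      have h1 : η * ∑ v, (dg G v : ℝ) * |h v - θ| ≤ D * Q := by
        rw [hQ, Finset.mul_sum, Finset.mul_sum]
        refine Finset.sum_le_sum fun v _ => ?_
        rw [← mul_assoc]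
        exact mul_le_mul_of_nonneg_right (hEx.hi v) (abs_nonneg _)
      have h2 : η * ∑ v, (dg G v : ℝ) * |h v - θ| ≤ η * (γ * η / 16 * D * N) := by
        calc η * ∑ v, (dg G v : ℝ) * |h v - θ| ≤ D * Q := h1
          _ ≤ D * (γ * η ^ 2 / 16 * N) := mul_le_mul_of_nonneg_left hQ1 hD.le
          _ = η * (γ * η / 16 * D * N) := by ring
      exact le_of_mul_le_mul_left h2 hη
    have hE0 : (0 : ℝ) ≤ prs G := Nat.cast_nonneg _
    have h1 : γ / 4 * (η * D * N) ≤ θ * (1 - θ) * prs G := by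
      calc γ / 4 * (η * D * N) ≤ γ / 4 * prs G := mul_le_mul_of_nonneg_left hElo (by positivity)
        _ ≤ θ * (1 - θ) * prs G := mul_le_mul_of_nonneg_right hθθ hE0
    have h2 : γ * η ^ 3 / 64 * D * N ≤ γ * η / 16 * D * N := by
      have h3 : η ^ 3 ≤ η := by nlinarith
      have h4 : γ * η ^ 3 / 64 ≤ γ * η / 16 := by nlinarith
      have h5 : 0 ≤ D * N := by positivity
      nlinarith
    have h3 : γ / 4 * (η * D * N) = 4 * (γ * η / 16 * D * N) := by ring
    have h4 : 0 ≤ γ * η / 16 * D * N := by positivity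
    linarith

end Pool.Agent.H35.XR
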