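import Pool.Agent.H35.XR.Stm3

/-! Stub XR-RANDF: a random sparse subgraph keeps the expansion. -/

set_option autoImplicit false

open Finset
open scoped Classical

namespace Pool.Agent.H35.XR

open Pool.Agent.H35.RD

namespace RandFaux

lemma upper (hmgf : S_MGF) (E : Type) [Fintype E] (q Δ : ℝ) (hq0 : 0 < q) (hq1 : q ≤ 1) (B : Finset E)
    (hB : (B.card : ℝ) ≤ Δ) :
    ∑ S ∈ univ.filter (fun S : Finset E => 4 * q * Δ < ((S ∩ B).card : ℝ)),
      ((∏ _v ∈ S, q) * ∏ _v ∈ univ \ S, (1 - q)) ≤ Real.exp (-(q * Δ)) := by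
  have hw : ∀ S : Finset E, 0 ≤ (∏ _v ∈ S, q) * ∏ _v ∈ univ \ S, (1 - q) := fun S =>
    mul_nonneg (prod_nonneg fun _ _ => hq0.le) (prod_nonneg fun _ _ => sub_nonneg.2 hq1)
  have h1 : ∀ S ∈ univ.filter (fun S : Finset E => 4 * q * Δ < ((S ∩ B).card : ℝ)),
      (∏ _v ∈ S, q) * ∏ _v ∈ univ \ S, (1 - q) ≤
        Real.exp (-(4 * q * Δ)) * (((∏ _v ∈ S, q) * ∏ _v ∈ univ \ S, (1 - q)) * Real.exp 1 ^ (S ∩ B).card) := by
    intro S hS
    have h2 := (mem_filter.1 hS).2
    have h3 : 1 ≤ Real.exp (-(4 * q * Δ)) * Real.exp 1 ^ (S ∩ B).card := by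
      rw [← Real.exp_nat_mul, mul_one, ← Real.exp_add]
      apply Real.one_le_exp
      linarith
    have h4 := mul_le_mul_of_nonneg_left h3 (hw S)
    linarith
  refine (sum_le_sum h1).trans ?_
  rw [← mul_sum]
  have h2 : ∑ S ∈ univ.filter (fun S : Finset E => 4 * q * Δ < ((S ∩ B).card : ℝ)),
      (((∏ _v ∈ S, q) * ∏ _v ∈ univ \ S, (1 - q)) * Real.exp 1 ^ (S ∩ B).card) ≤
      ∏ _v ∈ B, (1 + q * (Real.exp 1 - 1)) := by
    rw [← hmgf E (fun _ => q) B (Real.exp 1)]
    apply sum_le_sum_of_subset_of_nonneg (filter_subset _ _)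
    intro S _ _
    exact mul_nonneg (hw S) (by positivity)
  have he : Real.exp 1 < 4 := by linarith [Real.exp_one_lt_d9]
  have he1 : 1 ≤ Real.exp 1 := Real.one_le_exp (by norm_num)
  have h3 : ∏ _v ∈ B, (1 + q * (Real.exp 1 - 1)) ≤ Real.exp (3 * q * Δ) := by
    rw [prod_const]
    have h4 : 1 + q * (Real.exp 1 - 1) ≤ Real.exp (3 * q) := by
      have := Real.add_one_le_exp (3 * q)
      nlinarith
    calc (1 + q * (Real.exp 1 - 1)) ^ B.card ≤ Real.exp (3 * q) ^ B.card :=
          pow_le_pow_left₀ (by nlinarith) h4 _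
      _ = Real.exp (B.card * (3 * q)) := by rw [Real.exp_nat_mul]
      _ ≤ _ := by
          apply Real.exp_le_exp.2
          nlinarith
  calc _ ≤ Real.exp (-(4 * q * Δ)) * Real.exp (3 * q * Δ) :=
        mul_le_mul_of_nonneg_left (h2.trans h3) (Real.exp_pos _).le
    _ = _ := by
        rw [← Real.exp_add]
        congr 1
        ring

/-- union bound in the abstract form -/
lemma pick (hmgf : S_MGF) (htail : S_TAIL) (E : Type) [Fintype E] (q Δ : ℝ) (hq0 : 0 < q) (hq1 : q ≤ 1)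
    (ι κ : Type) (I : Finset ι) (J : Finset κ) (C : ι → Finset E) (B : κ → Finset E) (μ : ι → ℝ)
    (hμ : ∀ i ∈ I, 0 ≤ μ i ∧ μ i ≤ q * (C i).card) (hB : ∀ j ∈ J, ((B j).card : ℝ) ≤ Δ)
    (hlt : ∑ i ∈ I, Real.exp (-(3 * μ i / 10)) + J.card * Real.exp (-(q * Δ)) < 1) :
    ∃ S : Finset E, (∀ i ∈ I, ∀ T : Finset E, (∀ e, e ∈ T ↔ e ∈ S ∧ e ∈ C i) → μ i / 4 ≤ T.card) ∧
      ∀ j ∈ J, ∀ T : Finset E, (∀ e, e ∈ T ↔ e ∈ S ∧ e ∈ B j) → (T.card : ℝ) ≤ 4 * q * Δ := by
  by_contra hcon
  push Not at hcon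
  let w : Finset E → ℝ := fun S => (∏ _v ∈ S, q) * ∏ _v ∈ univ \ S, (1 - q)
  have hw : ∀ S, 0 ≤ w S := fun S => mul_nonneg (prod_nonneg fun v _ => hq0.le)
    (prod_nonneg fun v _ => sub_nonneg.2 hq1)
  have hsum : ∑ S : Finset E, w S = 1 := by
    have h := hmgf E (fun _ => q) ∅ 1
    simp only [inter_empty, card_empty, pow_zero, mul_one, prod_empty] at h
    exact h
  have hpt : ∀ S : Finset E, w S ≤
      ∑ i ∈ I, (if ((S ∩ C i).card : ℝ) < μ i / 4 then w S else 0) +
      ∑ j ∈ J, (if 4 * q * Δ < ((S ∩ B j).card : ℝ) then w S else 0) := by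
    intro S
    have hn1 : ∀ i, 0 ≤ (if ((S ∩ C i).card : ℝ) < μ i / 4 then w S else 0) := fun i => by
      split_ifs
      · exact hw S
      · exact le_rfl
    have hn2 : ∀ j, 0 ≤ (if 4 * q * Δ < ((S ∩ B j).card : ℝ) then w S else 0) := fun v => by
      split_ifs
      · exact hw S
      · exact le_rfl
    have s1 : 0 ≤ ∑ i ∈ I, (if ((S ∩ C i).card : ℝ) < μ i / 4 then w S else 0) :=
      sum_nonneg fun i _ => hn1 i
    have s2 : 0 ≤ ∑ j ∈ J, (if 4 * q * Δ < ((S ∩ B j).card : ℝ) then w S else 0) :=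
      sum_nonneg fun i _ => hn2 i
    by_cases h : ∀ i ∈ I, μ i / 4 ≤ ((S ∩ C i).card : ℝ)
    · obtain ⟨j, hj, T, hT, hlt2⟩ := hcon S (by
        intro i hi T hT
        have : T = S ∩ C i := by
          ext e
          rw [hT, mem_inter]
        rw [this]
        exact h i hi)
      have h0 : T = S ∩ B j := by
        ext e
        rw [hT, mem_inter]
      rw [h0] at hlt2
      have h1 := single_le_sum (f := fun j => if 4 * q * Δ < ((S ∩ B j).card : ℝ) then w S else 0)
        (fun v _ => hn2 v) hj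
      simp only [if_pos hlt2] at h1
      linarith
    · push Not at h
      obtain ⟨i, hi, hlt2⟩ := h
      have h1 := single_le_sum (f := fun i => if ((S ∩ C i).card : ℝ) < μ i / 4 then w S else 0)
        (fun v _ => hn1 v) hi
      simp only [if_pos hlt2] at h1
      linarith
  have htot := sum_le_sum (s := (univ : Finset (Finset E))) fun S _ => hpt S
  rw [hsum, sum_add_distrib, sum_comm, sum_comm (s := univ) (t := J)] at htot
  have t1 : ∑ i ∈ I, ∑ S : Finset E, (if ((S ∩ C i).card : ℝ) < μ i / 4 then w S else 0) ≤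
      ∑ i ∈ I, Real.exp (-(3 * μ i / 10)) := by
    refine sum_le_sum fun i hi => ?_
    rw [← sum_filter]
    have h1 := (htail E (fun _ => q) (fun _ => ⟨hq0.le, hq1⟩) (C i) 1 (μ i) one_pos le_rfl (hμ i hi).1).2.2
    apply h1
    rw [sum_const, nsmul_eq_mul, mul_comm]
    exact (hμ i hi).2
  have t2 : ∑ j ∈ J, ∑ S : Finset E, (if 4 * q * Δ < ((S ∩ B j).card : ℝ) then w S else 0) ≤
      J.card * Real.exp (-(q * Δ)) := by
    calc _ ≤ ∑ _j ∈ J, Real.exp (-(q * Δ)) := by
          refine sum_le_sum fun j hj => ?_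
          rw [← sum_filter]
          exact upper hmgf E q Δ hq0 hq1 (B j) (hB j hj)
      _ = _ := by rw [sum_const, nsmul_eq_mul]
  linarith

/-- the sum over the nonempty subsets -/
lemma subsets {V : Type} (Z : Finset V) (x : ℝ) (hx : 0 ≤ x) (hNx : (Z.card : ℝ) * x ≤ 1 / 4) :
    ∑ S ∈ Z.powerset.filter (fun S => S.Nonempty), x ^ S.card ≤ 1 / 3 := by
  have h1 : ∑ S ∈ Z.powerset, x ^ S.card = (1 + x) ^ Z.card := by
    have := Finset.prod_one_add (f := fun _ : V => x) Z
    simp only [prod_const] at this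
    rw [this]
  have h2 : ∑ S ∈ Z.powerset, x ^ S.card = ∑ S ∈ Z.powerset.filter (fun S => S.Nonempty), x ^ S.card + 1 := by
    rw [← sum_filter_add_sum_filter_not Z.powerset (fun S => S.Nonempty)]
    congr 1
    have : Z.powerset.filter (fun S => ¬ S.Nonempty) = {∅} := by
      ext S
      simp only [mem_filter, mem_powerset, not_nonempty_iff_eq_empty, mem_singleton]
      constructor
      · exact fun h => h.2
      · rintro rfl
        exact ⟨empty_subset _, rfl⟩
    rw [this, sum_singleton, card_empty, pow_zero]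
  have h3 : (1 + x) ^ Z.card ≤ Real.exp (1 / 4) := by
    calc (1 + x) ^ Z.card ≤ Real.exp x ^ Z.card :=
          pow_le_pow_left₀ (by linarith) (by linarith [Real.add_one_le_exp x]) _
      _ = Real.exp (Z.card * x) := by rw [Real.exp_nat_mul]
      _ ≤ _ := Real.exp_le_exp.2 hNx
  have h4 : Real.exp (1 / 4) ≤ 4 / 3 := by
    have h5 := Real.add_one_le_exp (-(1 / 4 : ℝ))
    rw [Real.exp_neg] at h5
    have h6 := Real.exp_pos (1 / 4)
    have h7 : (3 / 4 : ℝ) * Real.exp (1 / 4) ≤ 1 := by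
      calc (3 / 4 : ℝ) * Real.exp (1 / 4) ≤ (Real.exp (1 / 4))⁻¹ * Real.exp (1 / 4) :=
            mul_le_mul_of_nonneg_right (by linarith) h6.le
        _ = 1 := inv_mul_cancel₀ h6.ne'
    linarith
  linarith

end RandFaux

open RandFaux in
/-- Random sparse subgraph. -/
theorem randf : S_MGF → S_TAIL → S_RANDF := by
  intro hmgf htail V _ G Z q h Δ hq0 hq1 hh hΔ hX hc1 hc2
  -- the edges between `S` and `Z \ S`
  let C : Finset V → Finset (Sym2 V) := fun S =>
    ((S ×ˢ (Z \ S)).filter (fun z : V × V => G.Adj z.1 z.2)).image (fun z => s(z.1, z.2))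
  let B : V → Finset (Sym2 V) := fun v => (univ.filter (fun w => G.Adj v w)).image (fun w => s(v, w))
  have hinj : ∀ S : Finset V, Set.InjOn (fun z : V × V => s(z.1, z.2)) (S ×ˢ (Z \ S) : Finset (V × V)) := by
    intro S z hz z' hz' he
    rw [mem_coe, mem_product, mem_sdiff] at hz hz'
    simp only at he
    rcases Sym2.eq_iff.1 he with ⟨h1, h2⟩ | ⟨h1, h2⟩
    · exact Prod.ext h1 h2
    · exact absurd (h1 ▸ hz.1) hz'.2.2
  have hCcard : ∀ S : Finset V, (C S).card = ee G S (Z \ S) := by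
    intro S
    apply card_image_of_injOn
    exact (hinj S).mono (by exact_mod_cast filter_subset _ _)
  obtain ⟨S₀, hS1, hS2⟩ := pick hmgf htail (Sym2 V) q Δ hq0 hq1 (Finset V) V
    ((Z.powerset.filter (fun S => S.Nonempty)).filter (fun S => 2 * S.card ≤ Z.card)) univ C B
    (fun S => q * (h * S.card))
    (by
      intro S hS
      rw [mem_filter, mem_filter, mem_powerset] at hS
      refine ⟨by positivity, mul_le_mul_of_nonneg_left ?_ hq0.le⟩
      rw [hCcard]
      exact hX S hS.1.1 hS.2)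
    (by
      intro v _
      refine le_trans ?_ (hΔ v)
      exact_mod_cast card_image_le)
    (by
      have h1 : ∑ S ∈ (Z.powerset.filter (fun S => S.Nonempty)).filter (fun S => 2 * S.card ≤ Z.card),
          Real.exp (-(3 * (q * (h * S.card)) / 10)) ≤ 1 / 3 := by
        have h2 : ∀ S : Finset V, Real.exp (-(3 * (q * (h * S.card)) / 10)) = Real.exp (-(3 * q * h / 10)) ^ S.card := by
          intro S
          rw [← Real.exp_nat_mul]
          congr 1
          ring
        refine le_trans (sum_le_sum_of_subset_of_nonneg (filter_subset _ _) fun S _ _ => (Real.exp_pos _).le) ?_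
        rw [sum_congr rfl fun S _ => h2 S]
        apply subsets Z _ (Real.exp_pos _).le
        refine le_trans (mul_le_mul_of_nonneg_right ?_ (Real.exp_pos _).le) hc1
        exact_mod_cast card_le_univ Z
      rw [card_univ]
      linarith)
  -- the graph
  let F : SimpleGraph V :=
    { Adj := fun x y => G.Adj x y ∧ s(x, y) ∈ S₀
      symm := ⟨fun x y hxy => ⟨hxy.1.symm, by rw [Sym2.eq_swap]; exact hxy.2⟩⟩
      loopless := ⟨fun x hx => G.irrefl hx.1⟩ }
  refine ⟨F, fun x y hxy => hxy.1, fun v => ?_, fun S hSZ hS => ?_⟩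
  · have h1 := hS2 v (mem_univ v) ((univ.filter (fun w => F.Adj v w)).image (fun w => s(v, w))) (by
      intro e
      rw [mem_image, mem_image]
      constructor
      · rintro ⟨w, hw, rfl⟩
        rw [mem_filter] at hw
        exact ⟨hw.2.2, w, mem_filter.2 ⟨mem_univ _, hw.2.1⟩, rfl⟩
      · rintro ⟨h1, w, hw, rfl⟩
        rw [mem_filter] at hw
        exact ⟨w, mem_filter.2 ⟨mem_univ _, hw.2, h1⟩, rfl⟩)
    rw [card_image_of_injective] at h1
    · unfold dg
      convert h1
    · intro w w' hww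
      exact Sym2.congr_right.1 hww
  · rcases S.eq_empty_or_nonempty with rfl | hne
    · simp
    have h1 := hS1 S (mem_filter.2 ⟨mem_filter.2 ⟨mem_powerset.2 hSZ, hne⟩, hS⟩)
      (((S ×ˢ (Z \ S)).filter (fun z : V × V => F.Adj z.1 z.2)).image (fun z => s(z.1, z.2))) (by
      intro e
      rw [mem_image, mem_image]
      constructor
      · rintro ⟨w, hw, rfl⟩
        rw [mem_filter] at hw
        exact ⟨hw.2.2, w, mem_filter.2 ⟨hw.1, hw.2.1⟩, rfl⟩
      · rintro ⟨h1, w, hw, rfl⟩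
        rw [mem_filter] at hw
        exact ⟨w, mem_filter.2 ⟨hw.1, hw.2, h1⟩, rfl⟩)
    rw [card_image_of_injOn ((hinj S).mono (by exact_mod_cast filter_subset _ _))] at h1
    have h2 : q * h / 4 * S.card = q * (h * S.card) / 4 := by ring
    rw [h2]
    unfold ee
    convert h1

end Pool.Agent.H35.XR
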