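import Pool.Agent.H35.XR.All
import Pool.Agent.H35.XR.NH2
import Pool.Agent.H35.XR.LARGE2
import Pool.Agent.H35.XR.FFAC
import Pool.Agent.H35.XR.RANDF
import Pool.Agent.H35.XR.EXF
import Pool.Agent.H35.XR.CORE2

/-! Assembly of the steps, part 2. -/

set_option autoImplicit false

namespace Pool.Agent.H35.XR

theorem core2_all : S_CORE2 :=
  core2 (nh iso) (nh2 iso) (samp mgf (tail mgf)) ext large large2 bal

theorem exf_all : S_EXF := exf (randf mgf (tail mgf)) ffac

end Pool.Agent.H35.XR
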