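import Pool.Agent.H35.XR.Stm

set_option autoImplicit false

open Finset
open scoped Classical

namespace Pool.Agent.H35.XR

/-- XR-BAL (helper19) -/
theorem bal : S_BAL := by
  intro V _ A B W m₀ t ht htm hA hB hWA hWB
  rw [abs_le] at hWA hWB
  obtain ⟨m, hm⟩ : ∃ m : ℕ, m = max (W ∩ A).card (W ∩ B).card := ⟨_, rfl⟩
  have hma : (W ∩ A).card ≤ m := by rw [hm]; exact le_max_left _ _
  have hmb : (W ∩ B).card ≤ m := by rw [hm]; exact le_max_right _ _
  have hmu : (m : ℝ) ≤ m₀ + t := by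
    rw [hm, Nat.cast_max]
    exact max_le (by linarith [hWA.2]) (by linarith [hWB.2])
  have hml : m₀ - t ≤ (m : ℝ) := by
    have : ((W ∩ A).card : ℝ) ≤ m := by exact_mod_cast hma
    linarith [hWA.1]
  have hmA : m ≤ A.card := by
    have : (m : ℝ) ≤ A.card := by linarith
    exact_mod_cast this
  have hmB : m ≤ B.card := by
    have : (m : ℝ) ≤ B.card := by linarith
    exact_mod_cast this
  obtain ⟨X, hX1, hX2, hX3⟩ := Finset.exists_subsuperset_card_eq (Finset.inter_subset_right (s₁ := W) (s₂ := A)) hma hmA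
  obtain ⟨Y, hY1, hY2, hY3⟩ := Finset.exists_subsuperset_card_eq (Finset.inter_subset_right (s₁ := W) (s₂ := B)) hmb hmB
  have key : ∀ (C X : Finset V), W ∩ C ⊆ X → X ⊆ C → X.card = m → m₀ - t ≤ ((W ∩ C).card : ℝ) →
      ((X \ W).card : ℝ) ≤ 2 * t := by
    intro C X h1 h2 h3 h4
    have e : X \ W = X \ (W ∩ C) := by
      ext v
      simp only [mem_sdiff, mem_inter, not_and]
      constructor
      · rintro ⟨h, h'⟩
        exact ⟨h, fun h'' => absurd h'' h'⟩
      · rintro ⟨h, h'⟩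
        exact ⟨h, fun h'' => h' h'' (h2 h)⟩
    rw [e, Finset.card_sdiff_of_subset h1, h3, Nat.cast_sub (by rw [← h3]; exact Finset.card_le_card h1)]
    linarith
  refine ⟨X, Y, hX1, hX2, hY1, hY2, by rw [hX3, hY3], by rw [hX3]; exact hml, ?_, ?_⟩
  · exact key A X hX1 hX2 hX3 (by linarith [hWA.1])
  · exact key B Y hY1 hY2 hY3 (by linarith [hWB.1])

end Pool.Agent.H35.XR
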