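import Pool.Agent.H35.XR.Fin

/-! Decomposition of graphs without `C_{2k}` into boundedly many exactly regular bipartite graphs
and a sparse rest. -/

set_option autoImplicit false
set_option linter.unusedSectionVars false

open Finset
open scoped Classical

namespace Pool.Agent.H35.XR

open Pool.Agent.H35.RD

/-- `H` is an `r`-regular bipartite graph between the disjoint sets `X` and `Y`, of the same size. -/
def RB {n : ℕ} (H : SimpleGraph (Fin n)) (X Y : Finset (Fin n)) (r : ℕ) : Prop :=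
  Disjoint X Y ∧ X.card = Y.card ∧ (∀ x y, H.Adj x y → (x ∈ X ∧ y ∈ Y) ∨ (x ∈ Y ∧ y ∈ X)) ∧
    ∀ x ∈ X ∪ Y, (H.neighborSet x).ncard = r

theorem main0 (hcore : S_CORE) (hr : S_RFAC) (k : ℕ) (hk : 2 ≤ k) (c : ℝ)
    (hc : 0 < c) : ∃ (ρ : ℝ) (N₀ : ℕ), 0 < ρ ∧ ∀ n : ℕ, N₀ ≤ n → 1 ≤ n ∧ ∀ G : SimpleGraph (Fin n),
      (SimpleGraph.cycleGraph (2 * k)).Free G →
      c * (n : ℝ) ^ (1 + 1 / (k : ℝ)) ≤ (G.edgeSet.ncard : ℝ) →
      ∃ (H : SimpleGraph (Fin n)) (X Y : Finset (Fin n)) (r : ℕ), H ≤ G ∧ RB H X Y r ∧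
        ρ * (n : ℝ) ^ (1 / (k : ℝ)) ≤ r ∧ ρ * n ≤ X.card := by
  have hkpos : (0 : ℝ) < k := by
    have : 0 < k := by omega
    exact_mod_cast this
  have hα : (0 : ℝ) < 1 / (k : ℝ) := by positivity
  obtain ⟨η, hη, hη1, hstep⟩ := step1 k hk (2 * c) (by positivity)
  obtain ⟨M, hM, hbs⟩ := bs k hk
  let R : ℝ → ℕ := fun ε => if h : 0 < ε then (wreg k hk ε h).choose else 0
  have hR : ∀ ε : ℝ, 0 < ε → ∀ (V : Type) [Fintype V] (G : SimpleGraph V),
      (SimpleGraph.cycleGraph (2 * k)).Free G →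
      ∃ χ : V → Fin (R ε), WR G χ (ε * ((Fintype.card V : ℕ) : ℝ) ^ (1 + 1 / (k : ℝ))) := by
    intro ε hε V _ G hG
    have h1 : R ε = (wreg k hk ε hε).choose := dif_pos hε
    rw [h1]
    exact (wreg k hk ε hε).choose_spec V G hG
  obtain ⟨ρ, N₀, hρ, hmain⟩ := hcore (1 / (k : ℝ)) M η R hα hM hη hη1
  refine ⟨min ρ (ρ * η), ⌈(N₀ + 1 : ℝ) / η⌉₊, by positivity, ?_⟩
  intro n hn
  have hnη : (N₀ + 1 : ℝ) / η ≤ n := (Nat.le_ceil _).trans (by exact_mod_cast hn)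
  rw [div_le_iff₀ hη] at hnη
  have hN00 : (0 : ℝ) ≤ N₀ := Nat.cast_nonneg _
  have hn0 : (0 : ℝ) < n := by
    by_contra h
    have : (n : ℝ) ≤ 0 := not_lt.1 h
    nlinarith
  have hn1 : 1 ≤ n := by
    have : 0 < n := by exact_mod_cast hn0
    omega
  refine ⟨hn1, ?_⟩
  intro G hfree hsize
  obtain ⟨U, H, col, hHG, hbp, hU, hex⟩ := hstep n G hn1 hfree (by
    rw [prs_ncard]; push_cast; linarith)
  have hcU : Fintype.card U = U.card := Fintype.card_coe U
  have hHfree : (SimpleGraph.cycleGraph (2 * k)).Free H := by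
    intro hcon
    apply hfree
    refine hcon.trans ⟨⟨⟨fun u => u.1, fun {a b} h => hHG a b h⟩, ?_⟩⟩
    intro a b h
    exact Subtype.ext h
  obtain ⟨X, Y, r, hXc, hYc, hXY, hXn, hrD, hall⟩ := hmain U H col ((n : ℝ) ^ (1 / (k : ℝ)))
    (by
      rw [hcU]
      have h1 : (N₀ : ℝ) ≤ U.card := by nlinarith
      exact_mod_cast h1)
    (by
      rw [hcU]
      apply Real.rpow_le_rpow (Nat.cast_nonneg _) _ hα.le
      have := card_le_univ U
      rw [Fintype.card_fin] at this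
      exact_mod_cast this)
    hex hbp (hbs U H hHfree) (fun ε hε => hR ε hε U H hHfree)
  have hdisj : Disjoint X Y := by
    rw [disjoint_left]
    intro x h1 h2
    have h3 := hXc x h1
    have h4 := hYc x h2
    rw [h3] at h4
    simp at h4
  obtain ⟨F, hF1, hF2, hF3, hF4⟩ := hr U H X Y r hdisj hXY hall
  let ι : U ↪ Fin n := Function.Embedding.subtype _
  refine ⟨F.map ι, X.map ι, Y.map ι, r, ?_, ⟨?_, ?_, ?_, ?_⟩, ?_, ?_⟩
  · rintro x y ⟨-, hxy⟩
    obtain ⟨a, b, hab, rfl, rfl⟩ := hxy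
    exact hHG a b (hF1 hab)
  · exact (disjoint_map ι).2 hdisj
  · rw [card_map, card_map, hXY]
  · rintro x y ⟨-, hxy⟩
    obtain ⟨a, b, hab, rfl, rfl⟩ := hxy
    rcases hF2 a b hab with ⟨h1, h2⟩ | ⟨h1, h2⟩
    · exact Or.inl ⟨mem_map_of_mem ι h1, mem_map_of_mem ι h2⟩
    · exact Or.inr ⟨mem_map_of_mem ι h1, mem_map_of_mem ι h2⟩
  · intro x hx
    have h1 : ∃ a, (a ∈ X ∨ a ∈ Y) ∧ ι a = x := by
      rcases mem_union.1 hx with hx | hx
      · obtain ⟨a, ha, rfl⟩ := mem_map.1 hx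
        exact ⟨a, Or.inl ha, rfl⟩
      · obtain ⟨a, ha, rfl⟩ := mem_map.1 hx
        exact ⟨a, Or.inr ha, rfl⟩
    obtain ⟨a, ha, rfl⟩ := h1
    have h2 : dg F a = r := by
      rcases ha with ha | ha
      · exact hF3 a ha
      · exact hF4 a ha
    have h3 : (F.map ι).neighborSet (ι a) = ι '' (F.neighborSet a) := by
      ext y
      simp only [SimpleGraph.mem_neighborSet, Set.mem_image, SimpleGraph.map_adj]
      constructor
      · rintro ⟨u, v, huv, hu, hv⟩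
        have := ι.injective hu
        subst this
        exact ⟨v, huv, hv⟩
      · rintro ⟨v, huv, hv⟩
        exact ⟨a, v, huv, rfl, hv⟩
    rw [h3, Set.ncard_image_of_injective _ ι.injective, dg_ncard, h2]
  · exact (mul_le_mul_of_nonneg_right (min_le_left _ _) (by positivity)).trans hrD
  · rw [hcU] at hXn
    rw [card_map]
    have h1 : ρ * (η * n) ≤ ρ * U.card := mul_le_mul_of_nonneg_left hU hρ.le
    have h2 : min ρ (ρ * η) * n ≤ ρ * η * n :=
      mul_le_mul_of_nonneg_right (min_le_right _ _) hn0.le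
    nlinarith

end Pool.Agent.H35.XR
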