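import Pool.Agent.H35.XR.Dec

/-! The decomposition, by induction. -/

set_option autoImplicit false
set_option linter.unusedSectionVars false

open Finset
open scoped Classical

namespace Pool.Agent.H35.XR

open Pool.Agent.H35.RD

theorem rb_edges {n : ℕ} {H : SimpleGraph (Fin n)} {X Y : Finset (Fin n)} {r : ℕ}
    (h : RB H X Y r) : r * X.card ≤ H.edgeSet.ncard := by
  obtain ⟨h1, h2, -, h4⟩ := h
  have e1 : prs H = ∑ v, dg H v := by
    unfold prs dg
    rw [card_filter, ← univ_product_univ, sum_product]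
    apply sum_congr rfl
    intro x _
    rw [card_filter]
  have e2 := prs_ncard H
  have e3 : ∑ v ∈ X ∪ Y, dg H v ≤ ∑ v, dg H v :=
    sum_le_sum_of_subset (subset_univ _)
  have e4 : ∑ v ∈ X ∪ Y, dg H v = (X ∪ Y).card * r := by
    rw [sum_congr rfl (fun v hv => (dg_ncard H v).symm.trans (h4 v hv)), sum_const, smul_eq_mul]
  rw [card_union_of_disjoint h1, ← h2] at e4
  have e5 : (X.card + X.card) * r = 2 * (r * X.card) := by ring
  omega

/-- `t` edge-disjoint regular bipartite subgraphs and at most `e` other edges -/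
def Deco {n : ℕ} (G : SimpleGraph (Fin n)) (a b : ℝ) (t : ℕ) (e : ℝ) : Prop :=
  ∃ (H : Fin t → SimpleGraph (Fin n)) (X Y : Fin t → Finset (Fin n)) (r : Fin t → ℕ),
    (∀ i, H i ≤ G) ∧ (∀ i j, i ≠ j → Disjoint (H i).edgeSet (H j).edgeSet) ∧
    (∀ i, RB (H i) (X i) (Y i) (r i) ∧ a ≤ r i ∧ b ≤ (X i).card) ∧
    ((G.edgeSet \ ⋃ i, (H i).edgeSet).ncard : ℝ) ≤ e

theorem deco_ind {n : ℕ} (P : SimpleGraph (Fin n) → Prop) (hP : ∀ G H, H ≤ G → P G → P H)
    (a b e w : ℝ) (h : ∀ G, P G → e ≤ (G.edgeSet.ncard : ℝ) →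
      ∃ (H : SimpleGraph (Fin n)) (X Y : Finset (Fin n)) (r : ℕ), H ≤ G ∧ RB H X Y r ∧
        a ≤ r ∧ b ≤ X.card ∧ w ≤ (H.edgeSet.ncard : ℝ)) (s : ℕ) :
    ∀ G, P G → (G.edgeSet.ncard : ℝ) ≤ e + s * w → ∃ t ≤ s, Deco G a b t e := by
  induction s with
  | zero =>
    intro G hG hs
    refine ⟨0, le_rfl, fun i => i.elim0, fun i => i.elim0, fun i => i.elim0, fun i => i.elim0,
      fun i => i.elim0, fun i => i.elim0, fun i => i.elim0, ?_⟩
    simp only [Set.iUnion_of_empty, Set.diff_empty]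
    simpa using hs
  | succ s ih =>
    intro G hG hs
    by_cases hle : (G.edgeSet.ncard : ℝ) ≤ e
    · refine ⟨0, Nat.zero_le _, fun i => i.elim0, fun i => i.elim0, fun i => i.elim0,
        fun i => i.elim0, fun i => i.elim0, fun i => i.elim0, fun i => i.elim0, ?_⟩
      simp only [Set.iUnion_of_empty, Set.diff_empty]
      exact hle
    · obtain ⟨H₀, X₀, Y₀, r₀, h1, h2, h3, h4, h5⟩ := h G hG (not_le.1 hle).le
      have hG' : (G \ H₀).edgeSet = G.edgeSet \ H₀.edgeSet := SimpleGraph.edgeSet_sdiff G H₀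
      have hsub : H₀.edgeSet ⊆ G.edgeSet := SimpleGraph.edgeSet_mono h1
      have hc : ((G \ H₀).edgeSet.ncard : ℝ) ≤ e + s * w := by
        have h6 : (G \ H₀).edgeSet.ncard + H₀.edgeSet.ncard = G.edgeSet.ncard := by
          rw [hG']
          exact Set.ncard_sdiff_add_ncard_of_subset hsub (Set.toFinite _)
        have h7 : ((G \ H₀).edgeSet.ncard : ℝ) + (H₀.edgeSet.ncard : ℝ) = G.edgeSet.ncard := by
          exact_mod_cast h6
        push_cast at hs
        linarith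
      obtain ⟨t, ht, H, X, Y, r, g1, g2, g3, g4⟩ := ih (G \ H₀) (hP G _ sdiff_le hG) hc
      have hd : ∀ i, Disjoint H₀.edgeSet (H i).edgeSet := by
        intro i
        have h6 : (H i).edgeSet ⊆ G.edgeSet \ H₀.edgeSet := by
          rw [← hG']
          exact SimpleGraph.edgeSet_mono (g1 i)
        exact Set.disjoint_left.2 (fun x hx hx' => (h6 hx').2 hx)
      refine ⟨t + 1, Nat.succ_le_succ ht, Fin.cons H₀ H, Fin.cons X₀ X, Fin.cons Y₀ Y,
        Fin.cons r₀ r, ?_, ?_, ?_, ?_⟩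
      · intro i
        refine Fin.cases ?_ (fun i => ?_) i
        · exact h1
        · exact (g1 i).trans sdiff_le
      · intro i j
        refine Fin.cases ?_ (fun i => ?_) i <;> refine Fin.cases ?_ (fun j => ?_) j
        · intro h6; exact absurd rfl h6
        · intro _
          simpa using hd j
        · intro _
          simpa using (hd i).symm
        · intro h6
          simpa using g2 i j (fun h7 => h6 (by rw [h7]))
      · intro i
        refine Fin.cases ?_ (fun i => ?_) i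
        · exact ⟨h2, h3, h4⟩
        · exact g3 i
      · refine le_trans (le_of_eq ?_) g4
        congr 2
        rw [hG']
        ext x
        simp only [Set.mem_diff, Set.mem_iUnion, Fin.exists_fin_succ, Fin.cons_zero,
          Fin.cons_succ]
        tauto

theorem main3 (hcore : S_CORE) (hr : S_RFAC) (k : ℕ) (hk : 2 ≤ k) (ε : ℝ) (hε : 0 < ε) :
    ∃ (ρ : ℝ) (K N₀ : ℕ), 0 < ρ ∧ ∀ n : ℕ, N₀ ≤ n → ∀ G : SimpleGraph (Fin n),
      (SimpleGraph.cycleGraph (2 * k)).Free G → ∃ t ≤ K,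
        Deco G (ρ * (n : ℝ) ^ (1 / (k : ℝ))) (ρ * n) t (ε * (n : ℝ) ^ (1 + 1 / (k : ℝ))) := by
  have hkpos : (0 : ℝ) < k := by
    have : 0 < k := by omega
    exact_mod_cast this
  have hα : (0 : ℝ) < 1 / (k : ℝ) := by positivity
  obtain ⟨ρ, N₀, hρ, hmain⟩ := main0 hcore hr k hk ε hε
  obtain ⟨M, hM, hbs⟩ := bs k hk
  obtain ⟨K, hK⟩ := exists_nat_ge (M * 2 ^ (1 + 1 / (k : ℝ)) / (ρ * ρ))
  refine ⟨ρ, K, N₀, hρ, fun n hn G hfree => ?_⟩
  obtain ⟨hn1, hmain⟩ := hmain n hn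
  have hn0 : (0 : ℝ) < n := by exact_mod_cast hn1
  have hrp : (n : ℝ) ^ (1 + 1 / (k : ℝ)) = n * (n : ℝ) ^ (1 / (k : ℝ)) := by
    rw [Real.rpow_add hn0, Real.rpow_one]
  refine deco_ind (fun G => (SimpleGraph.cycleGraph (2 * k)).Free G)
    (fun G H hHG hG hcon => hG (hcon.trans (SimpleGraph.IsContained.of_le hHG)))
    _ _ _ (ρ * ρ * (n : ℝ) ^ (1 + 1 / (k : ℝ))) ?_ K G hfree ?_
  · intro G hG hsize
    obtain ⟨H, X, Y, r, h1, h2, h3, h4⟩ := hmain G hG hsize
    refine ⟨H, X, Y, r, h1, h2, h3, h4, ?_⟩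
    have h5 : ((r * X.card : ℕ) : ℝ) ≤ (H.edgeSet.ncard : ℝ) := by exact_mod_cast rb_edges h2
    refine le_trans ?_ h5
    push_cast
    rw [hrp]
    calc ρ * ρ * (n * (n : ℝ) ^ (1 / (k : ℝ))) = (ρ * (n : ℝ) ^ (1 / (k : ℝ))) * (ρ * n) := by ring
      _ ≤ r * X.card := mul_le_mul h3 h4 (by positivity) (by positivity)
  · have h1 := hbs (Fin n) G hfree univ univ
    have h2 : ee G univ univ = prs G := by
      unfold ee prs
      rw [univ_product_univ]
    rw [h2, prs_ncard, card_univ, Fintype.card_fin] at h1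
    push_cast at h1
    have h3 : ((n : ℝ) + n) ^ (1 + 1 / (k : ℝ)) =
        2 ^ (1 + 1 / (k : ℝ)) * (n : ℝ) ^ (1 + 1 / (k : ℝ)) := by
      rw [← two_mul, Real.mul_rpow (by norm_num) hn0.le]
    rw [h3] at h1
    have h4 : M * 2 ^ (1 + 1 / (k : ℝ)) ≤ K * (ρ * ρ) := by
      rwa [div_le_iff₀ (by positivity)] at hK
    have h5 : 0 < (n : ℝ) ^ (1 + 1 / (k : ℝ)) := by positivity
    have h6 : (0 : ℝ) ≤ (G.edgeSet.ncard : ℝ) := Nat.cast_nonneg _
    have h7 : M * 2 ^ (1 + 1 / (k : ℝ)) * (n : ℝ) ^ (1 + 1 / (k : ℝ)) ≤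
        K * (ρ * ρ) * (n : ℝ) ^ (1 + 1 / (k : ℝ)) := mul_le_mul_of_nonneg_right h4 h5.le
    have h8 : 0 < ε * (n : ℝ) ^ (1 + 1 / (k : ℝ)) := by positivity
    nlinarith

end Pool.Agent.H35.XR
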