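import Pool.Agent.H35.XL.Q115_GV4

/-! The direction from regular graphs to the Turán number (adapted from `lower_of_balForm`). -/

set_option autoImplicit false
set_option linter.unusedSectionVars false

open Finset

namespace Pool.Agent.H35.XR

open Pool.Agent.Q115.GY Pool.Agent.Q115.GW Pool.Agent.Q115.GV

theorem lower_of_reg {W : Type} (F : SimpleGraph W) (hF : ∀ v, ∃ w, F.Adj v w) (α M : ℝ)
    (q : ℕ) (Q : ℝ → ℝ) (hα : 0 < α) (hM : 0 < M) (hgood : Good F α M q Q)
    (h : ∃ C : ℝ, ∀ d : ℕ, 1 ≤ d → ∃ (m : ℕ) (G : SimpleGraph (Fin m)), 0 < m ∧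
      (m : ℝ) ≤ C * (d : ℝ) ^ (1 / α) ∧ F.Free G ∧ ∀ x, (d : ℝ) ≤ ((G.neighborSet x).ncard : ℝ)) : ∃ c : ℝ, 0 < c ∧ ∀ᶠ n : ℕ in Filter.atTop,
      c * (n : ℝ) ^ (1 + α) ≤ (SimpleGraph.extremalNumber n F : ℝ) := by
  classical
  obtain ⟨C, hC⟩ := h
  have hC0 : 0 < C := by
    obtain ⟨m, I, hm, hm2, -⟩ := hC 1 le_rfl
    have : (0 : ℝ) < m := by exact_mod_cast hm
    simp at hm2
    linarith
  refine ⟨(1 / M) ^ (1 / α) / 2 * ((1 / 2) ^ (1 + 1 / α) * (1 / C) ^ (1 + α)), by positivity, ?_⟩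
  filter_upwards [Filter.eventually_ge_atTop ⌈C⌉₊] with n hn
  have hnC : C ≤ n := (Nat.le_ceil _).trans (by exact_mod_cast hn)
  have hn0 : (0 : ℝ) < n := by linarith
  set ρ : ℝ := (n / C) ^ α with hρ
  have hbase : 1 ≤ n / C := by rw [le_div_iff₀ (by positivity)]; linarith
  have hρ1 : 1 ≤ ρ := Real.one_le_rpow hbase hα.le
  have hρk : ρ ^ (1 / α) = n / C := by
    rw [hρ, ← Real.rpow_mul (by positivity)]
    have : α * (1 / α) = 1 := by field_simp
    rw [this, Real.rpow_one]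
  set d : ℕ := ⌊ρ⌋₊ with hd
  have hd1 : 1 ≤ d := by
    rw [hd, Nat.le_floor_iff (by linarith)]
    exact_mod_cast hρ1
  have hdr : (d : ℝ) ≤ ρ := Nat.floor_le (by linarith)
  have hdr2 : 1 / 2 * ρ ≤ d := by
    have h1 : ρ < d + 1 := Nat.lt_floor_add_one ρ
    have h2 : (1 : ℝ) ≤ d := by exact_mod_cast hd1
    linarith
  have hdpos : (0 : ℝ) < d := by exact_mod_cast hd1
  obtain ⟨m, G, hm, hmC, hfree, hdeg⟩ := hC d hd1
  have hmpos : (0 : ℝ) < m := by exact_mod_cast hm
  have hmn : (m : ℝ) ≤ n := by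
    calc (m : ℝ) ≤ C * (d : ℝ) ^ (1 / α) := hmC
      _ ≤ C * ρ ^ (1 / α) := by
          apply mul_le_mul_of_nonneg_left _ hC0.le
          exact Real.rpow_le_rpow hdpos.le hdr (by positivity)
      _ = n := by rw [hρk]; field_simp
  have hmn' : m ≤ n := by exact_mod_cast hmn
  -- edges of `G`
  have hrow : ∀ x : Fin m, (d : ℝ) ≤ ((univ.filter (fun y => G.Adj x y)).card : ℝ) := by
    intro x
    refine (hdeg x).trans (le_of_eq ?_)
    rw [← Set.ncard_coe_finset]
    congr 2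
    ext y
    simp
  have hedges : (m : ℝ) * d ≤ 2 * (G.edgeFinset.card : ℝ) := by
    have h1 : 2 * (G.edgeFinset.card : ℝ) = ∑ v, (G.degree v : ℝ) := by
      rw [← Nat.cast_sum, G.sum_degrees_eq_twice_card_edges]
      push_cast
      rfl
    rw [h1]
    calc (m : ℝ) * d = ∑ b : Fin m, (d : ℝ) := by
          rw [sum_const, card_univ, Fintype.card_fin, nsmul_eq_mul]
      _ ≤ _ := by
          apply sum_le_sum
          intro x _
          refine (hrow x).trans (le_of_eq ?_)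
          rw [← G.card_neighborFinset_eq_degree, G.neighborFinset_eq_filter]
  have hext : (G.edgeFinset.card : ℝ) ≤ (SimpleGraph.extremalNumber n F : ℝ) := by
    have h1 := SimpleGraph.card_edgeFinset_le_extremalNumber
      (free_map F hF (Fin.castLEEmb hmn') G hfree)
    rw [Fintype.card_fin] at h1
    have h2 : (G.map (Fin.castLEEmb hmn')).edgeFinset.card = G.edgeFinset.card := by
      rw [← Set.ncard_coe_finset, ← Set.ncard_coe_finset, SimpleGraph.coe_edgeFinset,
        SimpleGraph.coe_edgeFinset, SimpleGraph.edgeSet_map]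
      exact Set.ncard_image_of_injective _ (Fin.castLEEmb hmn').sym2Map.injective
    rw [h2] at h1
    exact_mod_cast h1
  -- lower bound for `m`
  have hher := hgood.1 (Fin m) G hfree univ
  rw [card_univ, Fintype.card_fin] at hher
  have hmd : (m : ℝ) * d ≤ M * (m : ℝ) ^ (1 + α) := by
    refine le_trans ?_ hher
    calc (m : ℝ) * d = ∑ b : Fin m, (d : ℝ) := by
          rw [sum_const, card_univ, Fintype.card_fin, nsmul_eq_mul]
      _ ≤ _ := sum_le_sum (fun x _ => hrow x)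
  have hdm : (d : ℝ) / M ≤ (m : ℝ) ^ α := by
    rw [Real.rpow_add hmpos, Real.rpow_one] at hmd
    rw [div_le_iff₀ hM]
    have : (m : ℝ) * d ≤ m * ((m : ℝ) ^ α * M) := by linarith
    exact le_of_mul_le_mul_left this hmpos
  have hmlow : ((d : ℝ) / M) ^ (1 / α) ≤ m := by
    have := Real.rpow_le_rpow (by positivity) hdm (show (0 : ℝ) ≤ 1 / α by positivity)
    rwa [← Real.rpow_mul hmpos.le, mul_one_div_cancel hα.ne', Real.rpow_one] at this
  refine le_trans ?_ hext
  have hfin : (1 / M) ^ (1 / α) * ((1 / 2) ^ (1 + 1 / α) * (1 / C) ^ (1 + α)) * (n : ℝ) ^ (1 + α) ≤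
      m * d := by
    calc (1 / M) ^ (1 / α) * ((1 / 2) ^ (1 + 1 / α) * (1 / C) ^ (1 + α)) * (n : ℝ) ^ (1 + α)
        = (1 / M) ^ (1 / α) * ((1 / 2) ^ (1 + 1 / α) * (n / C) ^ (1 + α)) := by
          rw [div_eq_mul_one_div (n : ℝ) C, Real.mul_rpow hn0.le (by positivity)]
          ring
      _ = (1 / M) ^ (1 / α) * (1 / 2 * ρ) ^ (1 + 1 / α) := by
          rw [Real.mul_rpow (by norm_num) (by linarith)]
          congr 2
          rw [hρ, ← Real.rpow_mul (by positivity)]
          congr 1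
          field_simp
          ring
      _ ≤ (1 / M) ^ (1 / α) * (d : ℝ) ^ (1 + 1 / α) := by
          apply mul_le_mul_of_nonneg_left _ (by positivity)
          exact Real.rpow_le_rpow (by positivity) hdr2 (by positivity)
      _ = ((d : ℝ) / M) ^ (1 / α) * d := by
          rw [Real.rpow_add hdpos, Real.rpow_one, div_eq_mul_one_div (d : ℝ) M,
            Real.mul_rpow hdpos.le (by positivity)]
          ring
      _ ≤ m * d := mul_le_mul_of_nonneg_right hmlow hdpos.le
  have e : (1 / M) ^ (1 / α) / 2 * ((1 / 2) ^ (1 + 1 / α) * (1 / C) ^ (1 + α)) * (n : ℝ) ^ (1 + α) =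
      ((1 / M) ^ (1 / α) * ((1 / 2) ^ (1 + 1 / α) * (1 / C) ^ (1 + α)) * (n : ℝ) ^ (1 + α)) / 2 := by
    ring
  rw [e]
  linarith


end Pool.Agent.H35.XR
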