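import Pool.Agent.H35.XR.Lib
import Pool.Agent.H35.XR.Lower
import Pool.Agent.H35.RD.StmR

/-! Assembly: regular subgraphs of near-extremal graphs without `C_{2k}`. -/

set_option autoImplicit false
set_option linter.unusedSectionVars false

open Finset
open scoped Classical

namespace Pool.Agent.H35.XR

open Pool.Agent.H35.RD

theorem prs_ncard {n : ℕ} (G : SimpleGraph (Fin n)) : prs G = 2 * G.edgeSet.ncard := by
  have h1 : prs G = ∑ v, dg G v := by
    unfold prs dg
    rw [card_filter, ← univ_product_univ, sum_product]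
    apply sum_congr rfl
    intro x _
    rw [card_filter]
  have h2 : ∀ v, dg G v = G.degree v := by
    intro v
    unfold dg
    rw [← SimpleGraph.card_neighborFinset_eq_degree]
    congr 1
    ext w
    simp
  rw [h1, sum_congr rfl (fun v _ => h2 v), G.sum_degrees_eq_twice_card_edges,
    ← SimpleGraph.coe_edgeFinset, Set.ncard_coe_finset]

/-- from a regular bipartite subgraph on `X ∪ Y` to regular graphs on `Fin (2 m)` -/
theorem transport (hkon : S_KON) {V : Type} [Fintype V] (G : SimpleGraph V) (X Y : Finset V)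
    (r : ℕ) (hXY : Disjoint X Y) (hc : X.card = Y.card)
    (hadj : ∀ x y, G.Adj x y → (x ∈ X ∧ y ∈ Y) ∨ (x ∈ Y ∧ y ∈ X))
    (hX : ∀ x ∈ X, dg G x = r) (hY : ∀ y ∈ Y, dg G y = r) :
    ∀ d ≤ r, ∃ (H : SimpleGraph (Fin (2 * X.card))) (_ : DecidableRel H.Adj),
      H.IsRegularOfDegree d ∧ H.Colorable 2 ∧ H.IsContained G := by
  intro d hd
  let eX : Fin X.card ≃ X := (Fintype.equivFinOfCardEq (Fintype.card_coe X)).symm
  let eY : Fin X.card ≃ Y :=
    (Fintype.equivFinOfCardEq ((Fintype.card_coe Y).trans hc.symm)).symm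
  let φ : Fin X.card × Bool → V := fun z => if z.2 then (eX z.1 : V) else (eY z.1 : V)
  have hφt : ∀ i, φ (i, true) = eX i := fun i => rfl
  have hφf : ∀ i, φ (i, false) = eY i := fun i => rfl
  have hφinj : Function.Injective φ := by
    rintro ⟨i, b⟩ ⟨j, b'⟩ h
    cases b <;> cases b'
    · rw [hφf, hφf] at h
      have := eY.injective (Subtype.ext h)
      rw [this]
    · rw [hφf, hφt] at h
      exact absurd (h ▸ (eY i).2) (fun h' => disjoint_left.1 hXY (eX j).2 (by rw [← h]; exact (eY i).2))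
    · rw [hφf, hφt] at h
      exact absurd (eX i).2 (fun h' => disjoint_left.1 hXY h' (by rw [h]; exact (eY j).2))
    · rw [hφt, hφt] at h
      have := eX.injective (Subtype.ext h)
      rw [this]
  let K : SimpleGraph (Fin X.card × Bool) := G.comap φ
  have hφX : ∀ i, φ (i, true) ∈ X := fun i => (eX i).2
  have hφY : ∀ i, φ (i, false) ∈ Y := fun i => (eY i).2
  have hK1 : ∀ x y, K.Adj x y → x.2 ≠ y.2 := by
    rintro ⟨i, b⟩ ⟨j, b'⟩ h
    have h' : G.Adj (φ (i, b)) (φ (j, b')) := h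
    cases b <;> cases b' <;> simp only [ne_eq, reduceCtorEq, not_false_iff, not_true]
    · rcases hadj _ _ h' with ⟨h1, h2⟩ | ⟨h1, h2⟩
      · exact disjoint_left.1 hXY h1 (hφY i)
      · exact disjoint_left.1 hXY h2 (hφY j)
    · rcases hadj _ _ h' with ⟨h1, h2⟩ | ⟨h1, h2⟩
      · exact disjoint_left.1 hXY (hφX j) h2
      · exact disjoint_left.1 hXY (hφX i) h1
  have hsurj : ∀ v, v ∈ X ∨ v ∈ Y → ∃ z, φ z = v := by
    rintro v (hv | hv)
    · exact ⟨(eX.symm ⟨v, hv⟩, true), by rw [hφt]; simp⟩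
    · exact ⟨(eY.symm ⟨v, hv⟩, false), by rw [hφf]; simp⟩
  have hK2 : ∀ w, dg K w = r := by
    intro w
    have h1 : dg K w = dg G (φ w) := by
      unfold dg
      rw [← card_image_of_injective _ hφinj]
      congr 1
      ext v
      simp only [mem_image, mem_filter, mem_univ, true_and]
      constructor
      · rintro ⟨z, hz, rfl⟩
        exact hz
      · intro hv
        obtain ⟨z, rfl⟩ := hsurj v (by
          rcases hadj _ _ hv with ⟨h1, h2⟩ | ⟨h1, h2⟩
          · exact Or.inr h2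
          · exact Or.inl h2)
        exact ⟨z, hv, rfl⟩
    rw [h1]
    obtain ⟨i, b⟩ := w
    cases b
    · exact hY _ (hφY i)
    · exact hX _ (hφX i)
  obtain ⟨H₀, hH0, hH0d⟩ := hkon (Fin X.card) K r d hd hK1 hK2
  let e : Fin X.card × Bool ≃ Fin (2 * X.card) :=
    Fintype.equivFinOfCardEq (by simp [mul_comm])
  let H : SimpleGraph (Fin (2 * X.card)) := H₀.comap e.symm
  refine ⟨H, Classical.decRel _, ?_, ?_, ?_⟩
  · intro v
    have h1 : dg H₀ (e.symm v) = d := hH0d _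
    rw [← h1, ← SimpleGraph.card_neighborFinset_eq_degree]
    unfold dg
    rw [← card_map e.toEmbedding]
    congr 1
    ext w
    simp only [SimpleGraph.mem_neighborFinset, mem_map_equiv, mem_filter, mem_univ, true_and]
    rfl
  · refine ⟨SimpleGraph.Coloring.mk (fun v => if (e.symm v).2 then (0 : Fin 2) else 1) ?_⟩
    intro v w h
    have h' : (e.symm v).2 ≠ (e.symm w).2 := hK1 _ _ (hH0 h)
    intro h2
    apply h'
    cases h3 : (e.symm v).2 <;> cases h4 : (e.symm w).2 <;> simp_all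
  · refine ⟨⟨⟨fun v => φ (e.symm v), ?_⟩, ?_⟩⟩
    · intro v w h
      exact hH0 h
    · intro v w h
      exact e.symm.injective (hφinj h)

theorem main1 (hcore : S_CORE) (hr : S_RFAC) (hkon : S_KON) (k : ℕ) (hk : 2 ≤ k) (c : ℝ)
    (hc : 0 < c) : ∃ (ρ : ℝ) (N₀ : ℕ), 0 < ρ ∧ ∀ n : ℕ, N₀ ≤ n → ∀ G : SimpleGraph (Fin n),
      (SimpleGraph.cycleGraph (2 * k)).Free G →
      c * (n : ℝ) ^ (1 + 1 / (k : ℝ)) ≤ (G.edgeSet.ncard : ℝ) →
      ∃ r m : ℕ, ρ * (n : ℝ) ^ (1 / (k : ℝ)) ≤ r ∧ ρ * n ≤ m ∧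
        ∀ d ≤ r, ∃ (H : SimpleGraph (Fin m)) (_ : DecidableRel H.Adj),
          H.IsRegularOfDegree d ∧ H.Colorable 2 ∧ H.IsContained G := by
  have hkpos : (0 : ℝ) < k := by
    have : 0 < k := by omega
    exact_mod_cast this
  have hα : (0 : ℝ) < 1 / (k : ℝ) := by positivity
  obtain ⟨η, hη, hη1, hstep⟩ := step1 k hk (2 * c) (by positivity)
  obtain ⟨M, hM, hbs⟩ := bs k hk
  let R : ℝ → ℕ := fun ε => if h : 0 < ε then (wreg k hk ε h).choose else 0
  have hR : ∀ ε : ℝ, 0 < ε → ∀ (V : Type) [Fintype V] (G : SimpleGraph V),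
      (SimpleGraph.cycleGraph (2 * k)).Free G →
      ∃ χ : V → Fin (R ε), WR G χ (ε * ((Fintype.card V : ℕ) : ℝ) ^ (1 + 1 / (k : ℝ))) := by
    intro ε hε V _ G hG
    have h1 : R ε = (wreg k hk ε hε).choose := dif_pos hε
    rw [h1]
    exact (wreg k hk ε hε).choose_spec V G hG
  obtain ⟨ρ, N₀, hρ, hmain⟩ := hcore (1 / (k : ℝ)) M η R hα hM hη hη1
  refine ⟨min ρ (2 * (ρ * η)), ⌈(N₀ + 1 : ℝ) / η⌉₊, by positivity, ?_⟩
  intro n hn G hfree hsize
  have hnη : (N₀ + 1 : ℝ) / η ≤ n := (Nat.le_ceil _).trans (by exact_mod_cast hn)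
  rw [div_le_iff₀ hη] at hnη
  have hN00 : (0 : ℝ) ≤ N₀ := Nat.cast_nonneg _
  have hn0 : (0 : ℝ) < n := by
    by_contra h
    have : (n : ℝ) ≤ 0 := not_lt.1 h
    nlinarith
  have hn1 : 1 ≤ n := by
    have : 0 < n := by exact_mod_cast hn0
    omega
  obtain ⟨U, H, col, hHG, hbp, hU, hex⟩ := hstep n G hn1 hfree (by
    rw [prs_ncard]; push_cast; linarith)
  have hcU : Fintype.card U = U.card := Fintype.card_coe U
  have hHfree : (SimpleGraph.cycleGraph (2 * k)).Free H := by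
    intro hcon
    apply hfree
    refine hcon.trans ⟨⟨⟨fun u => u.1, fun {a b} h => hHG a b h⟩, ?_⟩⟩
    intro a b h
    exact Subtype.ext h
  obtain ⟨X, Y, r, hXc, hYc, hXY, hXn, hrD, hall⟩ := hmain U H col ((n : ℝ) ^ (1 / (k : ℝ)))
    (by
      rw [hcU]
      have h1 : (N₀ : ℝ) ≤ U.card := by nlinarith
      exact_mod_cast h1)
    (by
      rw [hcU]
      apply Real.rpow_le_rpow (Nat.cast_nonneg _) _ hα.le
      have := card_le_univ U
      rw [Fintype.card_fin] at this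
      exact_mod_cast this)
    hex hbp (hbs U H hHfree) (fun ε hε => hR ε hε U H hHfree)
  have hdisj : Disjoint X Y := by
    rw [disjoint_left]
    intro x h1 h2
    have h3 := hXc x h1
    have h4 := hYc x h2
    rw [h3] at h4
    simp at h4
  obtain ⟨F, hF1, hF2, hF3, hF4⟩ := hr U H X Y r hdisj hXY hall
  refine ⟨r, 2 * X.card, ?_, ?_, ?_⟩
  · exact (mul_le_mul_of_nonneg_right (min_le_left _ _) (by positivity)).trans hrD
  · rw [hcU] at hXn
    push_cast
    have h1 : ρ * (η * n) ≤ ρ * U.card := mul_le_mul_of_nonneg_left hU hρ.le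
    have h2 : min ρ (2 * (ρ * η)) * n ≤ 2 * (ρ * η) * n :=
      mul_le_mul_of_nonneg_right (min_le_right _ _) hn0.le
    nlinarith
  · intro d hd
    obtain ⟨H', hdec, h1, h2, h3⟩ := transport hkon F X Y r hdisj hXY hF2 hF3 hF4 d hd
    refine ⟨H', hdec, h1, h2, h3.trans ?_⟩
    refine ⟨⟨⟨fun u => u.1, fun {a b} h => hHG a b (hF1 h)⟩, ?_⟩⟩
    intro a b h
    exact Subtype.ext h

end Pool.Agent.H35.XR
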