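import Pool.Agent.H35.XR.Fin

/-! The equivalent form of Q1. -/

set_option autoImplicit false
set_option linter.unusedSectionVars false

open Finset
open scoped Classical

namespace Pool.Agent.H35.XR

open Pool.Agent.H35.RD Pool.Agent.Q115.GY Pool.Agent.Q115.GW Pool.Agent.Q115.GV

theorem main2 (hcore : S_CORE) (hr : S_RFAC) (hkon : S_KON) (k : ℕ) (hk : 2 ≤ k) :
    (∃ c : ℝ, 0 < c ∧ ∃ N : ℕ, ∀ n : ℕ, N ≤ n → c * (n : ℝ) ^ (1 + 1 / (k : ℝ)) ≤
      ((SimpleGraph.extremalNumber n (SimpleGraph.cycleGraph (2 * k)) : ℕ) : ℝ)) ↔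
    ∃ C : ℝ, ∀ d : ℕ, 1 ≤ d → ∃ (m : ℕ) (G : SimpleGraph (Fin m)) (_ : DecidableRel G.Adj),
      0 < m ∧ (m : ℝ) ≤ C * (d : ℝ) ^ k ∧ G.IsRegularOfDegree d ∧ G.Colorable 2 ∧
        (SimpleGraph.cycleGraph (2 * k)).Free G := by
  have hkpos : (0 : ℝ) < k := by
    have : 0 < k := by omega
    exact_mod_cast this
  have hα : (0 : ℝ) < 1 / (k : ℝ) := by positivity
  constructor
  · rintro ⟨c, hc, N, hN⟩
    obtain ⟨ρ, N₀, hρ, hmain⟩ := main1 hcore hr hkon k hk (c / 2) (by positivity)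
    refine ⟨(1 / ρ) ^ k + (N + N₀ + 2), fun d hd => ?_⟩
    have hd1 : (1 : ℝ) ≤ d := by exact_mod_cast hd
    have hd0 : (0 : ℝ) < d := by linarith
    set n : ℕ := ⌈((d : ℝ) / ρ) ^ k⌉₊ + (N + N₀ + 1) with hn
    have hn1 : ((d : ℝ) / ρ) ^ k ≤ n := by
      rw [hn]
      push_cast
      have := Nat.le_ceil (((d : ℝ) / ρ) ^ k)
      have h2 : (0 : ℝ) ≤ N := Nat.cast_nonneg _
      have h3 : (0 : ℝ) ≤ N₀ := Nat.cast_nonneg _
      linarith
    have hn2 : (n : ℝ) ≤ ((1 / ρ) ^ k + (N + N₀ + 2)) * (d : ℝ) ^ k := by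
      have h1 : (⌈((d : ℝ) / ρ) ^ k⌉₊ : ℝ) ≤ ((d : ℝ) / ρ) ^ k + 1 :=
        (Nat.ceil_lt_add_one (by positivity)).le
      have h2 : ((d : ℝ) / ρ) ^ k = (1 / ρ) ^ k * (d : ℝ) ^ k := by
        rw [← mul_pow]; congr 1; ring
      have h3 : (1 : ℝ) ≤ (d : ℝ) ^ k := one_le_pow₀ hd1
      have h4 : (0 : ℝ) ≤ N := Nat.cast_nonneg _
      have h5 : (0 : ℝ) ≤ N₀ := Nat.cast_nonneg _
      rw [hn]
      push_cast
      nlinarith
    have hnpos : (0 : ℝ) < n := by
      have h6 : 0 < n := by omega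
      exact_mod_cast h6
    have hex : c / 2 * (n : ℝ) ^ (1 + 1 / (k : ℝ)) <
        (SimpleGraph.extremalNumber (Fintype.card (Fin n)) (SimpleGraph.cycleGraph (2 * k)) : ℝ) := by
      rw [Fintype.card_fin]
      have h1 := hN n (by omega)
      have h2 : 0 < c * (n : ℝ) ^ (1 + 1 / (k : ℝ)) := by positivity
      linarith
    obtain ⟨G, hdec, hG, hE⟩ := (SimpleGraph.lt_extremalNumber_iff_of_nonneg
      (SimpleGraph.cycleGraph (2 * k)) (by positivity)).1 hex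
    obtain ⟨r, m, hr1, hm1, hreg⟩ := hmain n (by omega) G hG (by
      rw [← SimpleGraph.coe_edgeFinset, Set.ncard_coe_finset]
      exact hE.le)
    have hdr : d ≤ r := by
      have h1 : (d : ℝ) / ρ ≤ (n : ℝ) ^ (1 / (k : ℝ)) := by
        calc (d : ℝ) / ρ = (((d : ℝ) / ρ) ^ k) ^ (1 / (k : ℝ)) := by
              rw [← Real.rpow_natCast, ← Real.rpow_mul (by positivity),
                mul_one_div_cancel hkpos.ne', Real.rpow_one]
          _ ≤ _ := Real.rpow_le_rpow (by positivity) hn1 hα.le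
      rw [div_le_iff₀ hρ] at h1
      have h2 : (d : ℝ) ≤ r := by linarith
      exact_mod_cast h2
    obtain ⟨H, hHdec, hH1, hH2, hH3⟩ := hreg d hdr
    have hmn : m ≤ n := by
      obtain ⟨f⟩ := hH3
      have := Fintype.card_le_of_injective f f.injective
      simpa using this
    refine ⟨m, H, hHdec, ?_, ?_, hH1, hH2, fun hcon => hG (hcon.trans hH3)⟩
    · have h1 : (0 : ℝ) < m := lt_of_lt_of_le (by positivity) hm1
      exact_mod_cast h1
    · have h1 : (m : ℝ) ≤ n := by exact_mod_cast hmn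
      linarith
  · rintro ⟨C, hC⟩
    obtain ⟨M, hM, hgood⟩ := good_even k hk
    have h := lower_of_reg (SimpleGraph.cycleGraph (2 * k)) (by
      intro v
      obtain ⟨n, hn⟩ : ∃ n, 2 * k = n + 2 := ⟨2 * k - 2, by omega⟩
      revert v
      rw [hn]
      intro v
      refine ⟨v + 1, ?_⟩
      rw [SimpleGraph.cycleGraph_adj]
      right
      simp) (1 / (k : ℝ)) M k _ hα hM hgood ⟨C, fun d hd => by
        obtain ⟨m, G, hdec, h1, h2, h3, -, h5⟩ := hC d hd
        refine ⟨m, G, h1, ?_, h5, fun x => ?_⟩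
        · rw [one_div_one_div, Real.rpow_natCast]
          exact h2
        · rw [← h3 x, ← SimpleGraph.card_neighborFinset_eq_degree, ← Set.ncard_coe_finset,
            SimpleGraph.coe_neighborFinset]⟩
    obtain ⟨c, hc, h⟩ := h
    obtain ⟨N, hN⟩ := Filter.eventually_atTop.1 h
    exact ⟨c, hc, N, fun n hn => hN n hn⟩

end Pool.Agent.H35.XR
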