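import Pool.Agent.H35.XR.Stm

/-!
# Exactly regular expanders in near-extremal graphs without `C_{2k}`: statements, part 2

Exact regularity alone is a theorem of Chakraborti, Janzer, Methuku and Montgomery for all almost
regular graphs; here it is obtained together with expansion.
-/

set_option autoImplicit false
set_option linter.unusedSectionVars false

open Finset
open scoped Classical

namespace Pool.Agent.H35.XR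

open Pool.Agent.H35.RD

/-- every subset `S` of at most half of `Z` sends at least `h * #S` edges of `H` to `Z \ S` -/
def Xp {V : Type} [Fintype V] (H : SimpleGraph V) (Z : Finset V) (h : ℝ) : Prop :=
  ∀ S ⊆ Z, 2 * S.card ≤ Z.card → h * S.card ≤ ee H S (Z \ S)

/-- strong Hall condition with the constants `b`, `t` -/
def SH {V : Type} [Fintype V] (G : SimpleGraph V) (X Y : Finset V) (t b : ℝ) : Prop :=
  ∀ S ⊆ X, ∀ T ⊆ Y, (Y \ T).card ≤ 2 * S.card → (X \ S).card ≤ 2 * T.card →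
    (1 - t) * X.card ≤ (S.card : ℝ) + T.card → b * (min S.card T.card : ℕ) ≤ ee G S T

/-- XR-NH2 (variant of NH, easier). Let `Z₂` be the ordered sum of `|h x - h y|`. As
`h x (1 - h y) + h y (1 - h x) ≥ |h x - h y|`, `fm G h (1 - h) ≥ Z₂ / 2`. Let `z₀ = γ η³ / 16`.
If `Z₂ ≥ 2 z₀ D N` we are done. Otherwise by ISO `∑ |h - θ| ≤ (z₀ / η) N`, so `θ ≥ γ / 2`,
`1 - θ ≥ γ / 2`, `θ (1 - θ) ≥ γ / 4`, `fm G h (1 - h) ≥ θ (1 - θ) prs G - 2 ∑ deg |h - θ| ≥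
γ η D N / 4 - 2 (D / η) (z₀ / η) N = γ η D N / 8`. -/
def S_NH2 : Prop :=
  ∀ (V : Type) [Fintype V] [Nonempty V] (G : SimpleGraph V) (D η γ : ℝ),
    0 < D → 0 < η → η ≤ 1 → 0 < γ → γ ≤ 1 → Ex G D η →
    ∀ h : V → ℝ, (∀ v, 0 ≤ h v ∧ h v ≤ 1) → γ * Fintype.card V ≤ ∑ v, h v →
      γ * Fintype.card V ≤ ∑ v, (1 - h v) →
      γ * η ^ 3 / 64 * D * Fintype.card V ≤ fm G h (fun v => 1 - h v)

/-- XR-LARGE2 (variant of LARGE). Cells `c = {χ = a, col = b}` (`2 M` of them), `p = η deg / (2 D)`,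
`ξ c = ∑_c p`, `s c = #(S ∩ c)`, `t c = #((W \ S) ∩ c)`, `|s c + t c - ξ c| ≤ τ N`. Let
`h = min 1 (s / ξ)`, `g = min 1 (t / ξ)` on the cells. `∑ h p ≥ #S - 2 M τ N`,
`∑ (1 - h) p ≥ #(W \ S) - 2 M τ N`, and `p ≤ 1`, so both `∑ h` and `∑ (1 - h)` are at least `γ N`.
`1 - h ≤ g + τ N / ξ c` on the cell `c`, so `fm G h (1 - h) ≤ fm G h g + ∑_y deg y τ N / ξ (c y) ≤
fm G h g + (2 D / η) 2 M τ N`. As in LARGE, `ee G S (W \ S) ≥ fm G F H - 2 e` with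
`F = s / #c ≥ (η² / 2) h`, `H = t / #c ≥ (η² / 2) g`. -/
def S_LARGE2 : Prop :=
  ∀ (V : Type) [Fintype V] [Nonempty V] (G : SimpleGraph V) (col : V → Bool)
    (D η κ γ τ e : ℝ) (M : ℕ) (χ : V → Fin M) (W S : Finset V),
    0 < D → 0 < η → η ≤ 1 → 0 < γ → 0 < τ → Ex G D η →
    (∀ h : V → ℝ, (∀ v, 0 ≤ h v ∧ h v ≤ 1) → γ * Fintype.card V ≤ ∑ v, h v →
      γ * Fintype.card V ≤ ∑ v, (1 - h v) →
      κ * D * Fintype.card V ≤ fm G h (fun v => 1 - h v)) →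
    WR G χ e → WRF G χ e →
    (∀ (a : Fin M) (b : Bool), |((W ∩ univ.filter (fun v => χ v = a ∧ col v = b)).card : ℝ) -
      ∑ v ∈ univ.filter (fun v => χ v = a ∧ col v = b), η * dg G v / (2 * D)| ≤
        τ * Fintype.card V) →
    S ⊆ W → (γ + 2 * M * τ) * Fintype.card V ≤ S.card →
    (γ + 2 * M * τ) * Fintype.card V ≤ (W \ S).card →
    η ^ 4 / 4 * ((κ - 4 * M * τ / η) * D * Fintype.card V) - 2 * e ≤ ee G S (W \ S)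

/-- XR-FFAC. Factors with prescribed degrees: the same proof as RFAC (`RFAC.lean`), with `f x` and
`f y` in place of `r`. -/
def S_FFAC : Prop :=
  ∀ (V : Type) [Fintype V] (G : SimpleGraph V) (X Y : Finset V) (f : V → ℕ), Disjoint X Y →
    ∑ x ∈ X, f x = ∑ y ∈ Y, f y →
    (∀ S ⊆ X, ∀ T ⊆ Y, ∑ x ∈ S, f x + ∑ y ∈ T, f y ≤ ee G S T + ∑ x ∈ X, f x) →
    ∃ H : SimpleGraph V, H ≤ G ∧
      (∀ x y, H.Adj x y → (x ∈ X ∧ y ∈ Y) ∨ (x ∈ Y ∧ y ∈ X)) ∧ ∀ x ∈ X ∪ Y, dg H x = f x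

/-- XR-RANDF. Random sparse subgraph: keep each edge with probability `q` (`S_MGF` / `S_TAIL` with
the edge set, e.g. the type `G.edgeSet`, in place of `V`, `p = q` constant). For nonempty `S ⊆ Z`,
`2 #S ≤ #Z`, the set `C` of the edges between `S` and `Z \ S` has `#C ≥ h #S`, so fewer than
`q h #S / 4` of them are kept with probability at most `exp (-3 q h #S / 10)`; the sum over `S` is at
most `(1 + x) ^ N - 1 ≤ exp (N x) - 1 ≤ exp (1 / 4) - 1 < 1 / 2` with `x = exp (-3 q h / 10)`. For the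
edges at `v` (`≤ Δ` of them): the probability that more than `4 q Δ` are kept is at most
`exp (q Δ (e - 1) - 4 q Δ) ≤ exp (- q Δ)` (`S_MGF` with `z = exp 1`). -/
def S_RANDF : Prop :=
  ∀ (V : Type) [Fintype V] (G : SimpleGraph V) (Z : Finset V) (q h Δ : ℝ), 0 < q → q ≤ 1 →
    0 < h → (∀ v, (dg G v : ℝ) ≤ Δ) → Xp G Z h →
    Fintype.card V * Real.exp (-(3 * q * h / 10)) ≤ 1 / 4 →
    Fintype.card V * Real.exp (-(q * Δ)) ≤ 1 / 4 →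
    ∃ F : SimpleGraph V, F ≤ G ∧ (∀ v, (dg F v : ℝ) ≤ 4 * q * Δ) ∧ Xp F Z (q * h / 4)

/-- XR-EXF. From the strong Hall condition and expansion to exactly regular expanders. Let `G₀` be
the subgraph of the edges between `X` and `Y`, `q = η t ρ / 16`, `Δ = D / η`, `h = ρ D`; for large
`N` (`D ≥ N ^ α`) RANDF gives `F ≤ G₀`, `dg F ≤ 4 q D / η = t ρ D / 4 ≤ t d / 2` (as `d ≥ ρ D / 2`),
with `Xp F (X ∪ Y) (q ρ D / 4)`. Let `f v = d - dg F v ∈ [(1 - t) d, d]`; `∑_X f = ∑_Y f`. Let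
`m = #X`. FFAC for `G₀ \ F`: if `∑_S f + ∑_T f > ∑_X f` then `(1 - t) m < #S + #T`,
`#(Y \ T) ≤ 2 #S`, `#(X \ S) ≤ 2 #T` (as `t ≤ 1 / 2`), so by SH `ee G₀ S T ≥ 2 ρ D min(#S, #T)`,
`ee F S T ≤ t d min(#S, #T)`, hence `ee (G₀ \ F) S T ≥ (2 ρ D - t d) min ≥ d min(#S, #T) ≥
∑_S f + ∑_T f - ∑_X f` (because `∑_T f ≤ ∑_Y f = ∑_X f` and `∑_S f ≤ ∑_X f`). Take `H = F ⊔ H₂`,
`ρ' = q / 4` (`Xp` is monotone in the graph; `ρ' d ≤ q ρ D / 4`). -/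
def S_EXF : Prop :=
  ∀ (α η ρ t : ℝ), 0 < α → 0 < η → η ≤ 1 → 0 < ρ → ρ ≤ 1 → 0 < t → t ≤ 1 / 2 →
    ∃ (ρ' : ℝ) (N₁ : ℕ), 0 < ρ' ∧ ∀ (V : Type) [Fintype V] (G : SimpleGraph V)
      (X Y : Finset V) (D : ℝ), N₁ ≤ Fintype.card V → ((Fintype.card V : ℕ) : ℝ) ^ α ≤ D →
      (∀ v, η * (dg G v : ℝ) ≤ D) → Disjoint X Y → X.card = Y.card →
      (∀ x y, G.Adj x y → ¬ (x ∈ X ∧ y ∈ X) ∧ ¬ (x ∈ Y ∧ y ∈ Y)) →
      SH G X Y t (2 * ρ * D) → Xp G (X ∪ Y) (ρ * D) →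
      ∀ d : ℕ, ρ * D / 2 ≤ d → (d : ℝ) ≤ ρ * D → ∃ H : SimpleGraph V, H ≤ G ∧
        (∀ x y, H.Adj x y → (x ∈ X ∧ y ∈ Y) ∨ (x ∈ Y ∧ y ∈ X)) ∧
        (∀ x ∈ X ∪ Y, dg H x = d) ∧ Xp H (X ∪ Y) (ρ' * d)

/-- XR-CORE2 (variant of CORE, `CORE.lean`; the same `W`, `X`, `Y`). Constants as in CORE but
`δ = η³ / 8`, `γ` with `2 M₀ (3 γ) ^ α * 3 ≤ δ / 2`..., `γ' = γ / 8`, `t ≤ ζ η² / 32`, also
`4 t / η ≤ κ / 2` (for LARGE2), `t ≤ 1 / 2`, `s₀ = 6 t`.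
`SH`: let `S ⊆ X`, `T ⊆ Y` as there. If `#S ≤ γ N`: `#(Y \ T) ≤ 2 #S`, so `ee G S T ≥ δ D #S -
M₀ (3 #S) ^ (1 + α) ≥ δ D #S / 2` (`3 #S (3 γ N) ^ α ≤ 3 #S (3 γ) ^ α D`); the same for `#T ≤ γ N`
(`ee` is symmetric). Otherwise LARGE for `S ∩ W`, `T ∩ W`:
`#(S ∩ W) + #(T ∩ W) ≥ (1 - t) #X - 4 t N ≥ m₀ - 6 t N` (`#X ≤ N`), so `ee G S T ≥
(η⁴ κ / 8) D N ≥ (η⁴ κ / 8) D min(#S, #T)`.
`Xp`: let `S ⊆ X ∪ Y`, `2 #S ≤ #(X ∪ Y)`. If `#S ≤ γ N`: every vertex of `X ∪ Y` has at least `δ D`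
neighbours in `W ⊆ X ∪ Y`, so `ee G S ((X ∪ Y) \ S) ≥ δ D #S - ee G S S ≥ δ D #S -
M₀ (2 #S) ^ (1 + α) ≥ δ D #S / 2`. Otherwise LARGE2 for `S ∩ W` (`#(S ∩ W) ≥ γ N - 4 t N`, and
`#(W \ S) ≥ #((X ∪ Y) \ S) - 4 t N ≥ #S - 4 t N`): `ee G S ((X ∪ Y) \ S) ≥ (η⁴ κ / 16) D N`.
Take `ρ` small. (`W` is contained in `X ∪ Y` since every vertex has colour `true` or `false`.) -/
def S_CORE2 : Prop :=
  ∀ (α M₀ η : ℝ) (R : ℝ → ℕ), 0 < α → 0 < M₀ → 0 < η → η ≤ 1 → ∃ (ρ t : ℝ) (N₀ : ℕ), 0 < ρ ∧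
    ρ ≤ 1 ∧ 0 < t ∧ t ≤ 1 / 2 ∧
    ∀ (V : Type) [Fintype V] (G : SimpleGraph V) (col : V → Bool) (D : ℝ),
      N₀ ≤ Fintype.card V → ((Fintype.card V : ℕ) : ℝ) ^ α ≤ D → Ex G D η → Bp G col →
      (∀ S T : Finset V, (ee G S T : ℝ) ≤ M₀ * ((S.card : ℝ) + T.card) ^ (1 + α)) →
      (∀ ε : ℝ, 0 < ε → ∃ χ : V → Fin (R ε),
        WR G χ (ε * ((Fintype.card V : ℕ) : ℝ) ^ (1 + α))) →
      ∃ X Y : Finset V, (∀ x ∈ X, col x = true) ∧ (∀ y ∈ Y, col y = false) ∧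
        X.card = Y.card ∧ ρ * Fintype.card V ≤ X.card ∧
        SH G X Y t (2 * ρ * D) ∧ Xp G (X ∪ Y) (ρ * D)

end Pool.Agent.H35.XR
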