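import Pool.Agent.H35.XR.Dec2
import Pool.Agent.H35.XR.Stm3

/-! Assembly of part 2: exactly regular bipartite expanders. -/

set_option autoImplicit false
set_option linter.unusedSectionVars false

open Finset
open scoped Classical

namespace Pool.Agent.H35.XR

open Pool.Agent.H35.RD

/-- `H` is an `r`-regular bipartite graph between the disjoint sets `X` and `Y`, of the same size,
and every set of at most half of the vertices sends at least `σ r #S` edges out. -/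
def RBX {n : ℕ} (σ : ℝ) (H : SimpleGraph (Fin n)) (X Y : Finset (Fin n)) (r : ℕ) : Prop :=
  RB H X Y r ∧ ∀ S ⊆ X ∪ Y, 2 * S.card ≤ (X ∪ Y).card →
    σ * r * S.card ≤ ∑ x ∈ S, ((H.neighborSet x \ (S : Set (Fin n))).ncard : ℝ)

theorem ee_map {V W : Type} [Fintype V] [Fintype W] (F : SimpleGraph V) (ι : V ↪ W)
    (S T : Finset V) : ee (F.map ι) (S.map ι) (T.map ι) = ee F S T := by
  unfold ee
  rw [← card_map (ι.prodMap ι)]
  congr 1
  ext ⟨x, y⟩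
  simp only [mem_filter, mem_product, mem_map, SimpleGraph.map_adj, Prod.exists,
    Function.Embedding.coe_prodMap, Prod.map_apply, Prod.mk.injEq]
  constructor
  · rintro ⟨⟨⟨a, ha, rfl⟩, ⟨b, hb, rfl⟩⟩, u, v, huv, hu, hv⟩
    refine ⟨a, b, ⟨⟨ha, hb⟩, ?_⟩, rfl, rfl⟩
    rw [← ι.injective hu, ← ι.injective hv]
    exact huv
  · rintro ⟨a, b, ⟨⟨ha, hb⟩, hab⟩, rfl, rfl⟩
    exact ⟨⟨⟨a, ha, rfl⟩, ⟨b, hb, rfl⟩⟩, a, b, hab, rfl, rfl⟩

theorem map_reg {V : Type} [Fintype V] {n : ℕ} (F : SimpleGraph V) (ι : V ↪ Fin n)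
    (X Y : Finset V) (d : ℕ) (hF3 : ∀ x ∈ X ∪ Y, dg F x = d) :
    ∀ x ∈ X.map ι ∪ Y.map ι, ((F.map ι).neighborSet x).ncard = d := by
  intro x hx
  rw [← map_union] at hx
  obtain ⟨a, ha, rfl⟩ := mem_map.1 hx
  have h3 : (F.map ι).neighborSet (ι a) = ι '' (F.neighborSet a) := by
    ext y
    simp only [SimpleGraph.mem_neighborSet, Set.mem_image, SimpleGraph.map_adj]
    constructor
    · rintro ⟨u, v, huv, hu, hv⟩
      have := ι.injective hu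
      subst this
      exact ⟨v, huv, hv⟩
    · rintro ⟨v, huv, hv⟩
      exact ⟨a, v, huv, rfl, hv⟩
  have h5 : dg F a = d := hF3 a ha
  rw [h3, Set.ncard_image_of_injective _ ι.injective, dg_ncard, h5]

theorem map_xp {V : Type} [Fintype V] {n : ℕ} (F : SimpleGraph V) (ι : V ↪ Fin n)
    (X Y : Finset V) (h : ℝ) (hF4 : Xp F (X ∪ Y) h) :
    ∀ S ⊆ X.map ι ∪ Y.map ι, 2 * S.card ≤ (X.map ι ∪ Y.map ι).card →
      h * S.card ≤ ∑ x ∈ S, (((F.map ι).neighborSet x \ (S : Set (Fin n))).ncard : ℝ) := by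
  intro S hS hS2
  rw [← map_union] at hS hS2
  obtain ⟨S', hS', rfl⟩ := subset_map_iff.1 hS
  rw [card_map, card_map] at hS2
  have h1 : h * S'.card ≤ ee F S' ((X ∪ Y) \ S') := hF4 S' hS' hS2
  have h3 : ((ee F S' ((X ∪ Y) \ S') : ℕ) : ℝ) ≤
      ∑ x ∈ S'.map ι, (((F.map ι).neighborSet x \ ((S'.map ι : Finset (Fin n)) : Set (Fin n))).ncard : ℝ) := by
    rw [← ee_compl]
    norm_cast
    rw [← ee_map F ι]
    apply ee_mono _ (subset_refl _)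
    intro x hx
    obtain ⟨a, ha, rfl⟩ := mem_map.1 hx
    have hx' : ι a ∉ S'.map ι := by
      rw [mem_map']
      exact (mem_sdiff.1 ha).2
    exact (@Finset.mem_compl (Fin n) (S'.map ι) _ (fun a b => Classical.propDecidable (a = b))
      (ι a)).2 hx'
  rw [card_map]
  exact h1.trans h3

theorem main4 (hcore : S_CORE2) (hexf : S_EXF) (k : ℕ) (hk : 2 ≤ k) (c : ℝ)
    (hc : 0 < c) : ∃ (ρ σ : ℝ) (N₀ : ℕ), 0 < ρ ∧ 0 < σ ∧ ∀ n : ℕ, N₀ ≤ n → 1 ≤ n ∧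
      2 ≤ ρ * (n : ℝ) ^ (1 / (k : ℝ)) ∧
      ∀ G : SimpleGraph (Fin n), (SimpleGraph.cycleGraph (2 * k)).Free G →
      c * (n : ℝ) ^ (1 + 1 / (k : ℝ)) ≤ (G.edgeSet.ncard : ℝ) →
      ∃ (X Y : Finset (Fin n)), σ * n ≤ X.card ∧
        ∀ d : ℕ, ρ * (n : ℝ) ^ (1 / (k : ℝ)) / 2 ≤ d → (d : ℝ) ≤ ρ * (n : ℝ) ^ (1 / (k : ℝ)) →
          ∃ H : SimpleGraph (Fin n), H ≤ G ∧ RBX σ H X Y d := by
  have hkpos : (0 : ℝ) < k := by
    have : 0 < k := by omega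
    exact_mod_cast this
  have hα : (0 : ℝ) < 1 / (k : ℝ) := by positivity
  obtain ⟨η, hη, hη1, hstep⟩ := step1 k hk (2 * c) (by positivity)
  obtain ⟨M, hM, hbs⟩ := bs k hk
  let R : ℝ → ℕ := fun ε => if h : 0 < ε then (wreg k hk ε h).choose else 0
  have hR : ∀ ε : ℝ, 0 < ε → ∀ (V : Type) [Fintype V] (G : SimpleGraph V),
      (SimpleGraph.cycleGraph (2 * k)).Free G →
      ∃ χ : V → Fin (R ε), WR G χ (ε * ((Fintype.card V : ℕ) : ℝ) ^ (1 + 1 / (k : ℝ))) := by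
    intro ε hε V _ G hG
    have h1 : R ε = (wreg k hk ε hε).choose := dif_pos hε
    rw [h1]
    exact (wreg k hk ε hε).choose_spec V G hG
  obtain ⟨ρ, t, N₀, hρ, hρ1, ht, ht2, hmain⟩ := hcore (1 / (k : ℝ)) M η R hα hM hη hη1
  obtain ⟨ρ', N₁, hρ', hexf⟩ := hexf (1 / (k : ℝ)) η ρ t hα hη hη1 hρ hρ1 ht ht2
  refine ⟨ρ, min ρ' (ρ * η), ⌈(N₀ + N₁ + 1 : ℝ) / η⌉₊ + ⌈(2 / ρ) ^ k⌉₊, hρ, by positivity, ?_⟩
  intro n hn
  have hn' : ⌈(N₀ + N₁ + 1 : ℝ) / η⌉₊ ≤ n := by omega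
  have hn'' : ⌈(2 / ρ) ^ k⌉₊ ≤ n := by omega
  have hnη : (N₀ + N₁ + 1 : ℝ) / η ≤ n := (Nat.le_ceil _).trans (by exact_mod_cast hn')
  have hn2 : (2 / ρ) ^ k ≤ (n : ℝ) := (Nat.le_ceil _).trans (by exact_mod_cast hn'')
  rw [div_le_iff₀ hη] at hnη
  have hN00 : (0 : ℝ) ≤ N₀ := Nat.cast_nonneg _
  have hN10 : (0 : ℝ) ≤ N₁ := Nat.cast_nonneg _
  have hn0 : (0 : ℝ) < n := by
    by_contra h
    have : (n : ℝ) ≤ 0 := not_lt.1 h
    nlinarith
  have hn1 : 1 ≤ n := by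
    have : 0 < n := by exact_mod_cast hn0
    omega
  have hD2 : 2 ≤ ρ * (n : ℝ) ^ (1 / (k : ℝ)) := by
    have h1 : 2 / ρ ≤ (n : ℝ) ^ (1 / (k : ℝ)) := by
      calc 2 / ρ = ((2 / ρ) ^ k) ^ (1 / (k : ℝ)) := by
            rw [← Real.rpow_natCast, ← Real.rpow_mul (by positivity),
              mul_one_div_cancel hkpos.ne', Real.rpow_one]
        _ ≤ _ := Real.rpow_le_rpow (by positivity) hn2 hα.le
    rw [div_le_iff₀ hρ] at h1
    linarith
  refine ⟨hn1, hD2, ?_⟩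
  intro G hfree hsize
  obtain ⟨U, H, col, hHG, hbp, hU, hex⟩ := hstep n G hn1 hfree (by
    rw [prs_ncard]; push_cast; linarith)
  have hcU : Fintype.card U = U.card := Fintype.card_coe U
  have hHfree : (SimpleGraph.cycleGraph (2 * k)).Free H := by
    intro hcon
    apply hfree
    refine hcon.trans ⟨⟨⟨fun u => u.1, fun {a b} h => hHG a b h⟩, ?_⟩⟩
    intro a b h
    exact Subtype.ext h
  have hUN : ((Fintype.card U : ℕ) : ℝ) ^ (1 / (k : ℝ)) ≤ (n : ℝ) ^ (1 / (k : ℝ)) := by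
    rw [hcU]
    apply Real.rpow_le_rpow (Nat.cast_nonneg _) _ hα.le
    have := card_le_univ U
    rw [Fintype.card_fin] at this
    exact_mod_cast this
  obtain ⟨X, Y, hXc, hYc, hXY, hXn, hSH, hXp⟩ := hmain U H col ((n : ℝ) ^ (1 / (k : ℝ)))
    (by
      rw [hcU]
      have h1 : (N₀ : ℝ) ≤ U.card := by nlinarith
      exact_mod_cast h1)
    hUN hex hbp (hbs U H hHfree) (fun ε hε => hR ε hε U H hHfree)
  have hdisj : Disjoint X Y := by
    rw [disjoint_left]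
    intro x h1 h2
    have h3 := hXc x h1
    have h4 := hYc x h2
    rw [h3] at h4
    simp at h4
  let ι : U ↪ Fin n := Function.Embedding.subtype _
  refine ⟨X.map ι, Y.map ι, ?_, ?_⟩
  · rw [hcU] at hXn
    rw [card_map]
    have h1 : ρ * (η * n) ≤ ρ * U.card := mul_le_mul_of_nonneg_left hU hρ.le
    have h2 : min ρ' (ρ * η) * n ≤ ρ * η * n :=
      mul_le_mul_of_nonneg_right (min_le_right _ _) hn0.le
    nlinarith
  intro d hd1 hd2
  obtain ⟨F, hF1, hF2, hF3, hF4⟩ := hexf U H X Y ((n : ℝ) ^ (1 / (k : ℝ)))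
    (by
      rw [hcU]
      have h1 : (N₁ : ℝ) ≤ U.card := by nlinarith
      exact_mod_cast h1)
    hUN hex.hi hdisj hXY (by
      intro x y hxy
      have h1 := hbp x y hxy
      refine ⟨fun h2 => h1 ?_, fun h2 => h1 ?_⟩
      · rw [hXc x h2.1, hXc y h2.2]
      · rw [hYc x h2.1, hYc y h2.2]) hSH hXp d hd1 hd2
  refine ⟨F.map ι, ?_, ⟨⟨?_, ?_, ?_, ?_⟩, ?_⟩⟩
  · rintro x y ⟨-, hxy⟩
    obtain ⟨a, b, hab, rfl, rfl⟩ := hxy
    exact hHG a b (hF1 hab)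
  · exact (disjoint_map ι).2 hdisj
  · rw [card_map, card_map, hXY]
  · rintro x y ⟨-, hxy⟩
    obtain ⟨a, b, hab, rfl, rfl⟩ := hxy
    rcases hF2 a b hab with ⟨h1, h2⟩ | ⟨h1, h2⟩
    · exact Or.inl ⟨mem_map_of_mem ι h1, mem_map_of_mem ι h2⟩
    · exact Or.inr ⟨mem_map_of_mem ι h1, mem_map_of_mem ι h2⟩
  · exact map_reg F ι X Y d hF3
  · intro S hS hS2
    have h1 := map_xp F ι X Y (ρ' * d) hF4 S hS hS2
    refine le_trans ?_ h1
    apply mul_le_mul_of_nonneg_right _ (Nat.cast_nonneg _)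
    exact mul_le_mul_of_nonneg_right (min_le_left _ _) (Nat.cast_nonneg _)

end Pool.Agent.H35.XR
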