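import Pool.Agent.H35.XR.Fin3
import Pool.Agent.H35.XR.Fin2

/-! Final statements of part 2. -/

set_option autoImplicit false
set_option linter.unusedSectionVars false

open Finset
open scoped Classical

namespace Pool.Agent.H35.XR

open Pool.Agent.H35.RD Pool.Agent.Q115.GY Pool.Agent.Q115.GW Pool.Agent.Q115.GV

theorem deco_indX {n : ℕ} (P : SimpleGraph (Fin n) → Prop) (hP : ∀ G H, H ≤ G → P G → P H)
    (Q : SimpleGraph (Fin n) → Finset (Fin n) → Finset (Fin n) → ℕ → Prop)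
    (e w : ℝ) (h : ∀ G, P G → e ≤ (G.edgeSet.ncard : ℝ) →
      ∃ (H : SimpleGraph (Fin n)) (X Y : Finset (Fin n)) (r : ℕ), H ≤ G ∧ Q H X Y r ∧
        w ≤ (H.edgeSet.ncard : ℝ)) (s : ℕ) :
    ∀ G, P G → (G.edgeSet.ncard : ℝ) ≤ e + s * w → ∃ t ≤ s,
      ∃ (H : Fin t → SimpleGraph (Fin n)) (X Y : Fin t → Finset (Fin n)) (r : Fin t → ℕ),
        (∀ i, H i ≤ G) ∧ (∀ i j, i ≠ j → Disjoint (H i).edgeSet (H j).edgeSet) ∧
        (∀ i, Q (H i) (X i) (Y i) (r i)) ∧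
        ((G.edgeSet \ ⋃ i, (H i).edgeSet).ncard : ℝ) ≤ e := by
  induction s with
  | zero =>
    intro G hG hs
    refine ⟨0, le_rfl, fun i => i.elim0, fun i => i.elim0, fun i => i.elim0, fun i => i.elim0,
      fun i => i.elim0, fun i => i.elim0, fun i => i.elim0, ?_⟩
    simp only [Set.iUnion_of_empty, Set.sdiff_empty]
    simpa using hs
  | succ s ih =>
    intro G hG hs
    by_cases hle : (G.edgeSet.ncard : ℝ) ≤ e
    · refine ⟨0, Nat.zero_le _, fun i => i.elim0, fun i => i.elim0, fun i => i.elim0,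
        fun i => i.elim0, fun i => i.elim0, fun i => i.elim0, fun i => i.elim0, ?_⟩
      simp only [Set.iUnion_of_empty, Set.sdiff_empty]
      exact hle
    · obtain ⟨H₀, X₀, Y₀, r₀, h1, h2, h5⟩ := h G hG (not_le.1 hle).le
      have hG' : (G \ H₀).edgeSet = G.edgeSet \ H₀.edgeSet := SimpleGraph.edgeSet_sdiff G H₀
      have hsub : H₀.edgeSet ⊆ G.edgeSet := SimpleGraph.edgeSet_mono h1
      have hc : ((G \ H₀).edgeSet.ncard : ℝ) ≤ e + s * w := by
        have h6 : (G \ H₀).edgeSet.ncard + H₀.edgeSet.ncard = G.edgeSet.ncard := by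
          rw [hG']
          exact Set.ncard_sdiff_add_ncard_of_subset hsub (Set.toFinite _)
        have h7 : ((G \ H₀).edgeSet.ncard : ℝ) + (H₀.edgeSet.ncard : ℝ) = G.edgeSet.ncard := by
          exact_mod_cast h6
        push_cast at hs
        linarith
      obtain ⟨t, ht, H, X, Y, r, g1, g2, g3, g4⟩ := ih (G \ H₀) (hP G _ sdiff_le hG) hc
      have hd : ∀ i, Disjoint H₀.edgeSet (H i).edgeSet := by
        intro i
        have h6 : (H i).edgeSet ⊆ G.edgeSet \ H₀.edgeSet := by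
          rw [← hG']
          exact SimpleGraph.edgeSet_mono (g1 i)
        exact Set.disjoint_left.2 (fun x hx hx' => (h6 hx').2 hx)
      refine ⟨t + 1, Nat.succ_le_succ ht, Fin.cons H₀ H, Fin.cons X₀ X, Fin.cons Y₀ Y,
        Fin.cons r₀ r, ?_, ?_, ?_, ?_⟩
      · intro i
        refine Fin.cases ?_ (fun i => ?_) i
        · exact h1
        · exact (g1 i).trans sdiff_le
      · intro i j
        refine Fin.cases ?_ (fun i => ?_) i <;> refine Fin.cases ?_ (fun j => ?_) j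
        · intro h6; exact absurd rfl h6
        · intro _
          simpa using hd j
        · intro _
          simpa using (hd i).symm
        · intro h6
          simpa using g2 i j (fun h7 => h6 (by rw [h7]))
      · intro i
        refine Fin.cases ?_ (fun i => ?_) i
        · exact h2
        · exact g3 i
      · refine le_trans (le_of_eq ?_) g4
        congr 2
        rw [hG']
        ext x
        simp only [Set.mem_sdiff, Set.mem_iUnion, Fin.exists_fin_succ, Fin.cons_zero,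
          Fin.cons_succ]
        tauto

theorem floor_half {x : ℝ} (hx : 2 ≤ x) : x / 2 ≤ (⌊x⌋₊ : ℝ) ∧ (⌊x⌋₊ : ℝ) ≤ x := by
  have h1 := Nat.lt_floor_add_one x
  have h2 := Nat.floor_le (by linarith : 0 ≤ x)
  constructor <;> linarith

/-- the decomposition into exactly regular bipartite expanders -/
theorem main6 (hcore : S_CORE2) (hexf : S_EXF) (k : ℕ) (hk : 2 ≤ k) (ε : ℝ) (hε : 0 < ε) :
    ∃ (σ : ℝ) (K N₀ : ℕ), 0 < σ ∧ ∀ n : ℕ, N₀ ≤ n → ∀ G : SimpleGraph (Fin n),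
      (SimpleGraph.cycleGraph (2 * k)).Free G → ∃ t ≤ K,
      ∃ (H : Fin t → SimpleGraph (Fin n)) (X Y : Fin t → Finset (Fin n)) (r : Fin t → ℕ),
        (∀ i, H i ≤ G) ∧ (∀ i j, i ≠ j → Disjoint (H i).edgeSet (H j).edgeSet) ∧
        (∀ i, RBX σ (H i) (X i) (Y i) (r i) ∧ σ * (n : ℝ) ^ (1 / (k : ℝ)) ≤ r i ∧
          σ * n ≤ (X i).card) ∧
        ((G.edgeSet \ ⋃ i, (H i).edgeSet).ncard : ℝ) ≤ ε * (n : ℝ) ^ (1 + 1 / (k : ℝ)) := by
  have hkpos : (0 : ℝ) < k := by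
    have : 0 < k := by omega
    exact_mod_cast this
  have hα : (0 : ℝ) < 1 / (k : ℝ) := by positivity
  obtain ⟨ρ, σ, N₀, hρ, hσ, hmain⟩ := main4 hcore hexf k hk ε hε
  obtain ⟨M, hM, hbs⟩ := bs k hk
  set σ' : ℝ := min σ (ρ / 2) with hσ'
  have hσ'0 : 0 < σ' := by positivity
  obtain ⟨K, hK⟩ := exists_nat_ge (M * 2 ^ (1 + 1 / (k : ℝ)) / (σ' * σ'))
  refine ⟨σ', K, N₀, hσ'0, fun n hn G hfree => ?_⟩
  obtain ⟨hn1, hD2, hmain⟩ := hmain n hn
  have hn0 : (0 : ℝ) < n := by exact_mod_cast hn1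
  have hrp : (n : ℝ) ^ (1 + 1 / (k : ℝ)) = n * (n : ℝ) ^ (1 / (k : ℝ)) := by
    rw [Real.rpow_add hn0, Real.rpow_one]
  refine deco_indX (fun G => (SimpleGraph.cycleGraph (2 * k)).Free G)
    (fun G H hHG hG hcon => hG (hcon.trans (SimpleGraph.IsContained.of_le hHG)))
    (fun H X Y r => RBX σ' H X Y r ∧ σ' * (n : ℝ) ^ (1 / (k : ℝ)) ≤ r ∧ σ' * n ≤ X.card)
    _ (σ' * σ' * (n : ℝ) ^ (1 + 1 / (k : ℝ))) ?_ K G hfree ?_
  · intro G hG hsize
    obtain ⟨X, Y, hX, hd⟩ := hmain G hG hsize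
    obtain ⟨hf1, hf2⟩ := floor_half hD2
    obtain ⟨H, h1, h2, h3⟩ := hd ⌊ρ * (n : ℝ) ^ (1 / (k : ℝ))⌋₊ hf1 hf2
    have h4 : σ' * (n : ℝ) ^ (1 / (k : ℝ)) ≤ (⌊ρ * (n : ℝ) ^ (1 / (k : ℝ))⌋₊ : ℝ) := by
      refine le_trans ?_ hf1
      have := mul_le_mul_of_nonneg_right (min_le_right σ (ρ / 2))
        (by positivity : (0 : ℝ) ≤ (n : ℝ) ^ (1 / (k : ℝ)))
      linarith
    have h5 : σ' * n ≤ X.card :=
      (mul_le_mul_of_nonneg_right (min_le_left _ _) hn0.le).trans hX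
    refine ⟨H, X, Y, _, h1, ⟨⟨h2, ?_⟩, h4, h5⟩, ?_⟩
    · intro S hS hS2
      refine le_trans ?_ (h3 S hS hS2)
      apply mul_le_mul_of_nonneg_right _ (Nat.cast_nonneg _)
      exact mul_le_mul_of_nonneg_right (min_le_left _ _) (Nat.cast_nonneg _)
    · have h6 : ((⌊ρ * (n : ℝ) ^ (1 / (k : ℝ))⌋₊ * X.card : ℕ) : ℝ) ≤ (H.edgeSet.ncard : ℝ) := by
        exact_mod_cast rb_edges h2
      refine le_trans ?_ h6
      push_cast
      rw [hrp]
      calc σ' * σ' * (n * (n : ℝ) ^ (1 / (k : ℝ)))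
          = (σ' * (n : ℝ) ^ (1 / (k : ℝ))) * (σ' * n) := by ring
        _ ≤ _ := mul_le_mul h4 h5 (by positivity) (by positivity)
  · have h1 := hbs (Fin n) G hfree univ univ
    have h2 : ee G univ univ = prs G := by
      unfold ee prs
      rw [univ_product_univ]
    rw [h2, prs_ncard, card_univ, Fintype.card_fin] at h1
    push_cast at h1
    have h3 : ((n : ℝ) + n) ^ (1 + 1 / (k : ℝ)) =
        2 ^ (1 + 1 / (k : ℝ)) * (n : ℝ) ^ (1 + 1 / (k : ℝ)) := by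
      rw [← two_mul, Real.mul_rpow (by norm_num) hn0.le]
    rw [h3] at h1
    have h4 : M * 2 ^ (1 + 1 / (k : ℝ)) ≤ K * (σ' * σ') := by
      rwa [div_le_iff₀ (by positivity)] at hK
    have h5 : 0 < (n : ℝ) ^ (1 + 1 / (k : ℝ)) := by positivity
    have h6 : (0 : ℝ) ≤ (G.edgeSet.ncard : ℝ) := Nat.cast_nonneg _
    have h7 : M * 2 ^ (1 + 1 / (k : ℝ)) * (n : ℝ) ^ (1 + 1 / (k : ℝ)) ≤
        K * (σ' * σ') * (n : ℝ) ^ (1 + 1 / (k : ℝ)) := mul_le_mul_of_nonneg_right h4 h5.le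
    have h8 : 0 < ε * (n : ℝ) ^ (1 + 1 / (k : ℝ)) := by positivity
    nlinarith

theorem transport2 {n : ℕ} (H : SimpleGraph (Fin n)) (X Y : Finset (Fin n)) (d : ℕ) (σ : ℝ)
    (h : RBX σ H X Y d) : ∃ (K : SimpleGraph (Fin (X ∪ Y).card)) (_ : DecidableRel K.Adj),
      K.IsRegularOfDegree d ∧ K.Colorable 2 ∧ K.IsContained H ∧
      ∀ S : Finset (Fin (X ∪ Y).card), 2 * S.card ≤ (X ∪ Y).card →
        σ * d * S.card ≤ ∑ x ∈ S, ((K.neighborSet x \ (S : Set (Fin (X ∪ Y).card))).ncard : ℝ) := by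
  obtain ⟨⟨h1, h2, h3, h4⟩, h5⟩ := h
  let e : Fin (X ∪ Y).card ≃ (X ∪ Y : Finset (Fin n)) :=
    (Fintype.equivFinOfCardEq (Fintype.card_coe (X ∪ Y))).symm
  let ψ : Fin (X ∪ Y).card ↪ Fin n :=
    ⟨fun i => (e i : Fin n), fun i j hij => e.injective (Subtype.ext hij)⟩
  have hψ : ∀ i, ψ i ∈ X ∪ Y := fun i => (e i).2
  have hrange : ∀ v ∈ X ∪ Y, ∃ i, ψ i = v := by
    intro v hv
    exact ⟨e.symm ⟨v, hv⟩, by show ((e (e.symm ⟨v, hv⟩) : (X ∪ Y : Finset (Fin n))) : Fin n) = v; simp⟩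
  have hn : ∀ v, H.neighborSet (ψ v) = ψ '' ((H.comap ψ).neighborSet v) := by
    intro v
    ext w
    simp only [SimpleGraph.mem_neighborSet, Set.mem_image, SimpleGraph.comap_adj]
    constructor
    · intro hw
      have hw2 : w ∈ X ∪ Y := by
        rcases h3 _ _ hw with ⟨g1, g2⟩ | ⟨g1, g2⟩
        · exact mem_union_right _ g2
        · exact mem_union_left _ g2
      obtain ⟨i, rfl⟩ := hrange w hw2
      exact ⟨i, hw, rfl⟩
    · rintro ⟨i, hi, rfl⟩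
      exact hi
  refine ⟨H.comap ψ, Classical.decRel _, ?_, ?_, ?_, ?_⟩
  · intro v
    rw [← SimpleGraph.card_neighborFinset_eq_degree, ← Set.ncard_coe_finset,
      SimpleGraph.coe_neighborFinset, ← Set.ncard_image_of_injective _ ψ.injective, ← hn]
    exact h4 _ (hψ v)
  · refine ⟨SimpleGraph.Coloring.mk (fun v => if ψ v ∈ X then (0 : Fin 2) else 1) ?_⟩
    intro v w hvw
    rcases h3 _ _ hvw with ⟨g1, g2⟩ | ⟨g1, g2⟩
    · have g3 : ψ w ∉ X := fun g => disjoint_left.1 h1 g g2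
      simp [g1, g3]
    · have g3 : ψ v ∉ X := fun g => disjoint_left.1 h1 g g1
      simp [g2, g3]
  · refine ⟨⟨⟨ψ, fun {a b} hab => hab⟩, ψ.injective⟩⟩
  · intro S hS
    have g1 := h5 (S.map ψ) (by
      intro x hx
      obtain ⟨i, -, rfl⟩ := mem_map.1 hx
      exact hψ i) (by rw [card_map]; exact hS)
    rw [card_map, sum_map] at g1
    refine g1.trans (le_of_eq ?_)
    apply sum_congr rfl
    intro x _
    congr 1
    rw [hn, coe_map, ← Set.image_sdiff ψ.injective, Set.ncard_image_of_injective _ ψ.injective]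

/-- the equivalent form with expansion -/
theorem main7 (hcore : S_CORE2) (hexf : S_EXF) (k : ℕ) (hk : 2 ≤ k) :
    (∃ c : ℝ, 0 < c ∧ ∃ N : ℕ, ∀ n : ℕ, N ≤ n → c * (n : ℝ) ^ (1 + 1 / (k : ℝ)) ≤
      ((SimpleGraph.extremalNumber n (SimpleGraph.cycleGraph (2 * k)) : ℕ) : ℝ)) ↔
    ∃ (C : ℝ) (d₀ : ℕ), ∀ d : ℕ, d₀ ≤ d →
      ∃ (m : ℕ) (G : SimpleGraph (Fin m)) (_ : DecidableRel G.Adj),
      0 < m ∧ (m : ℝ) ≤ C * (d : ℝ) ^ k ∧ G.IsRegularOfDegree d ∧ G.Colorable 2 ∧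
        (SimpleGraph.cycleGraph (2 * k)).Free G ∧
        ∀ S : Finset (Fin m), 2 * S.card ≤ m →
          (d : ℝ) * S.card ≤ C * ∑ x ∈ S, ((G.neighborSet x \ (S : Set (Fin m))).ncard : ℝ) := by
  have hkpos : (0 : ℝ) < k := by
    have : 0 < k := by omega
    exact_mod_cast this
  have hα : (0 : ℝ) < 1 / (k : ℝ) := by positivity
  constructor
  · rintro ⟨c, hc, N, hN⟩
    obtain ⟨ρ, σ, N₀, hρ, hσ, hmain⟩ := main4 hcore hexf k hk (c / 2) (by positivity)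
    refine ⟨(2 / ρ) ^ k + 1 / σ, ⌈ρ * (N + N₀ + 1)⌉₊ + 1, fun d hd => ?_⟩
    have hd' : ρ * (N + N₀ + 1) ≤ d := by
      have h1 : ρ * (N + N₀ + 1) ≤ (⌈ρ * (N + N₀ + 1)⌉₊ : ℝ) := Nat.le_ceil _
      have h2 : ((⌈ρ * (N + N₀ + 1 : ℝ)⌉₊ + 1 : ℕ) : ℝ) ≤ d := by exact_mod_cast hd
      push_cast at h2
      linarith
    have hN0 : (0 : ℝ) ≤ N := Nat.cast_nonneg _
    have hN00 : (0 : ℝ) ≤ N₀ := Nat.cast_nonneg _
    have hd1 : (N + N₀ + 1 : ℝ) ≤ d / ρ := by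
      rw [le_div_iff₀ hρ]; linarith
    have hdρ : 1 ≤ (d : ℝ) / ρ := by linarith
    have hd0 : (0 : ℝ) < d := by
      by_contra hcon
      have : (d : ℝ) / ρ ≤ 0 := div_nonpos_of_nonpos_of_nonneg (not_lt.1 hcon) hρ.le
      linarith
    have hdk : (d : ℝ) / ρ ≤ ((d : ℝ) / ρ) ^ k := le_self_pow₀ hdρ (by omega)
    have hdk1 : 1 ≤ ((d : ℝ) / ρ) ^ k := hdρ.trans hdk
    set n : ℕ := ⌈((d : ℝ) / ρ) ^ k⌉₊ with hn
    have hn1 : ((d : ℝ) / ρ) ^ k ≤ n := Nat.le_ceil _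
    have hn2 : (n : ℝ) ≤ ((2 * d : ℝ) / ρ) ^ k := by
      have h1 : (n : ℝ) < ((d : ℝ) / ρ) ^ k + 1 := Nat.ceil_lt_add_one (by positivity)
      have h2 : ((2 * d : ℝ) / ρ) ^ k = 2 ^ k * ((d : ℝ) / ρ) ^ k := by
        rw [← mul_pow]; congr 1; ring
      have h3 : (2 : ℝ) ≤ 2 ^ k := le_self_pow₀ (by norm_num) (by omega)
      rw [h2]
      nlinarith
    have hnN : (N + N₀ + 1 : ℝ) ≤ n := by linarith
    have hnN' : N + N₀ + 1 ≤ n := by exact_mod_cast hnN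
    have hnpos : (0 : ℝ) < n := by linarith
    have hex : c / 2 * (n : ℝ) ^ (1 + 1 / (k : ℝ)) <
        (SimpleGraph.extremalNumber (Fintype.card (Fin n)) (SimpleGraph.cycleGraph (2 * k)) : ℝ) := by
      rw [Fintype.card_fin]
      have h1 := hN n (by omega)
      have h2 : 0 < c * (n : ℝ) ^ (1 + 1 / (k : ℝ)) := by positivity
      linarith
    obtain ⟨G, hdec, hG, hE⟩ := (SimpleGraph.lt_extremalNumber_iff_of_nonneg
      (SimpleGraph.cycleGraph (2 * k)) (by positivity)).1 hex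
    obtain ⟨-, -, hmain⟩ := hmain n (by omega)
    obtain ⟨X, Y, hX, hd3⟩ := hmain G hG (by
      rw [← SimpleGraph.coe_edgeFinset, Set.ncard_coe_finset]
      exact hE.le)
    have hroot : ∀ x : ℝ, 0 ≤ x → (x ^ k) ^ (1 / (k : ℝ)) = x := by
      intro x hx
      rw [← Real.rpow_natCast, ← Real.rpow_mul hx, mul_one_div_cancel hkpos.ne', Real.rpow_one]
    have hA : (d : ℝ) ≤ ρ * (n : ℝ) ^ (1 / (k : ℝ)) := by
      have h1 : (d : ℝ) / ρ ≤ (n : ℝ) ^ (1 / (k : ℝ)) := by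
        rw [← hroot ((d : ℝ) / ρ) (by positivity)]
        exact Real.rpow_le_rpow (by positivity) hn1 hα.le
      rw [div_le_iff₀ hρ] at h1
      linarith
    have hB : ρ * (n : ℝ) ^ (1 / (k : ℝ)) / 2 ≤ d := by
      have h1 : (n : ℝ) ^ (1 / (k : ℝ)) ≤ (2 * d : ℝ) / ρ := by
        rw [← hroot ((2 * d : ℝ) / ρ) (by positivity)]
        exact Real.rpow_le_rpow (by positivity) hn2 hα.le
      rw [le_div_iff₀ hρ] at h1
      linarith
    obtain ⟨H, hHG, hH⟩ := hd3 d hB hA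
    obtain ⟨K, hKdec, k1, k2, k3, k4⟩ := transport2 H X Y d σ hH
    have hcardXY : (X ∪ Y).card ≤ n := by
      have := card_le_univ (X ∪ Y)
      rwa [Fintype.card_fin] at this
    refine ⟨(X ∪ Y).card, K, hKdec, ?_, ?_, k1, k2,
      fun hcon => hG (hcon.trans (k3.trans (SimpleGraph.IsContained.of_le hHG))), ?_⟩
    · have h1 : (0 : ℝ) < X.card := lt_of_lt_of_le (by positivity) hX
      have h2 : 0 < X.card := by exact_mod_cast h1
      exact lt_of_lt_of_le h2 (card_le_card subset_union_left)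
    · have h1 : ((X ∪ Y).card : ℝ) ≤ n := by exact_mod_cast hcardXY
      have h2 : ((2 * d : ℝ) / ρ) ^ k = (2 / ρ) ^ k * (d : ℝ) ^ k := by
        rw [← mul_pow]; congr 1; ring
      have h3 : 0 ≤ 1 / σ * (d : ℝ) ^ k := by positivity
      rw [add_mul]
      linarith
    · intro S hS
      have h1 := k4 S hS
      have h2 : (0 : ℝ) ≤ ∑ x ∈ S, ((K.neighborSet x \ (S : Set (Fin (X ∪ Y).card))).ncard : ℝ) :=
        sum_nonneg fun _ _ => Nat.cast_nonneg _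
      have h3 : (d : ℝ) * S.card = 1 / σ * (σ * d * S.card) := by
        field_simp
      rw [h3, add_mul]
      have h4 := mul_le_mul_of_nonneg_left h1 (by positivity : 0 ≤ 1 / σ)
      have h5 : 0 ≤ (2 / ρ) ^ k *
          ∑ x ∈ S, ((K.neighborSet x \ (S : Set (Fin (X ∪ Y).card))).ncard : ℝ) := by positivity
      linarith
  · rintro ⟨C, d₀, hC⟩
    obtain ⟨M, hM, hgood⟩ := good_even k hk
    have h := lower_of_reg (SimpleGraph.cycleGraph (2 * k)) (by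
      intro v
      obtain ⟨n, hn⟩ : ∃ n, 2 * k = n + 2 := ⟨2 * k - 2, by omega⟩
      revert v
      rw [hn]
      intro v
      refine ⟨v + 1, ?_⟩
      rw [SimpleGraph.cycleGraph_adj]
      right
      simp) (1 / (k : ℝ)) M k _ hα hM hgood ⟨|C| * ((d₀ : ℝ) + 1) ^ k, fun d hd => by
        obtain ⟨m, G, hdec, h1, h2, h3, -, h5, -⟩ := hC (max d d₀) (le_max_right _ _)
        have hd1 : (1 : ℝ) ≤ d := by exact_mod_cast hd
        have hd00 : (0 : ℝ) ≤ d₀ := Nat.cast_nonneg _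
        refine ⟨m, G, h1, ?_, h5, fun x => ?_⟩
        · rw [one_div_one_div, Real.rpow_natCast, mul_assoc, ← mul_pow]
          have h6 : ((max d d₀ : ℕ) : ℝ) ≤ ((d₀ : ℝ) + 1) * d := by
            rw [Nat.cast_max]
            apply max_le
            · nlinarith
            · nlinarith
          calc (m : ℝ) ≤ C * ((max d d₀ : ℕ) : ℝ) ^ k := h2
            _ ≤ |C| * ((max d d₀ : ℕ) : ℝ) ^ k :=
              mul_le_mul_of_nonneg_right (le_abs_self C) (by positivity)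
            _ ≤ _ := mul_le_mul_of_nonneg_left
              (pow_le_pow_left₀ (Nat.cast_nonneg _) h6 k) (abs_nonneg C)
        · have h7 : (d : ℝ) ≤ ((max d d₀ : ℕ) : ℝ) := by exact_mod_cast le_max_left d d₀
          refine h7.trans (le_of_eq ?_)
          rw [← h3 x, ← SimpleGraph.card_neighborFinset_eq_degree, ← Set.ncard_coe_finset,
            SimpleGraph.coe_neighborFinset]⟩
    obtain ⟨c, hc, h⟩ := h
    obtain ⟨N, hN⟩ := Filter.eventually_atTop.1 h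
    exact ⟨c, hc, N, fun n hn => hN n hn⟩

end Pool.Agent.H35.XR
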