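import Pool.Agent.H35.RD.Stm

/-!
# Exactly regular subgraphs of near-extremal graphs without `C_{2k}`

Definitions and the statements of the steps (project XR, helper35, MP_046af7_co).
Theorem: for all `k ≥ 2` and `c > 0` every graph on `n ≥ N` vertices without `C_{2k}` and with at
least `c n ^ (1 + 1 / k)` edges contains an exactly `r`-regular bipartite subgraph with
`r ≥ ρ n ^ (1 / k)` on at least `ρ n` vertices. Hence Q1 for `k` is equivalent to: for every `d`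
there is a `d`-regular bipartite graph without `C_{2k}` with at most `C d ^ k` vertices.

Idea: take a bipartite expander inside the graph, choose its vertices `v` at random with
probability proportional to the degree of `v`, and verify Hall's condition for regular factors:
for small sets by the bound of Bondy and Simonovits (no dense small pairs), for large sets by the
expansion, transferred to the random set by the weak regularity lemma.
-/

set_option autoImplicit false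
set_option linter.unusedSectionVars false

open Finset
open scoped Classical

namespace Pool.Agent.H35.XR

open Pool.Agent.H35.RD

section
variable {V : Type} [Fintype V]

/-- the number of pairs `(x, y)` of adjacent vertices with `x ∈ S` and `y ∈ T` -/
noncomputable def ee (G : SimpleGraph V) (S T : Finset V) : ℕ :=
  ((S ×ˢ T).filter (fun z : V × V => G.Adj z.1 z.2)).card

/-- the sum of `f x * g y` over the ordered pairs of adjacent vertices -/
noncomputable def fm (G : SimpleGraph V) (f g : V → ℝ) : ℝ :=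
  ∑ x, ∑ y, if G.Adj x y then f x * g y else 0

/-- expander at the scale `D` -/
structure Ex (G : SimpleGraph V) (D η : ℝ) : Prop where
  lo : ∀ v, η * D ≤ dg G v
  hi : ∀ v, η * (dg G v : ℝ) ≤ D
  ex : ∀ S : Finset V, 2 * S.card ≤ Fintype.card V → η * D * S.card ≤ ee G S Sᶜ

/-- all edges are between the two colour classes -/
def Bp (G : SimpleGraph V) (col : V → Bool) : Prop := ∀ x y, G.Adj x y → col x ≠ col y

/-- the density between two classes of a partition (`0` if a class is empty) -/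
noncomputable def dn (G : SimpleGraph V) {M : ℕ} (χ : V → Fin M) (a b : Fin M) : ℝ :=
  (ee G (univ.filter (fun x => χ x = a)) (univ.filter (fun x => χ x = b)) : ℝ) /
    (((univ.filter (fun x => χ x = a)).card : ℝ) * ((univ.filter (fun x => χ x = b)).card : ℝ))

/-- the partition `χ` is weakly regular with error `e` -/
def WR (G : SimpleGraph V) {M : ℕ} (χ : V → Fin M) (e : ℝ) : Prop :=
  ∀ S T : Finset V, |(ee G S T : ℝ) - ∑ a : Fin M, ∑ b : Fin M,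
    dn G χ a b * ((S.filter (fun x => χ x = a)).card : ℝ) *
      ((T.filter (fun x => χ x = b)).card : ℝ)| ≤ e

/-- the same for functions with values in `[0, 1]` -/
def WRF (G : SimpleGraph V) {M : ℕ} (χ : V → Fin M) (e : ℝ) : Prop :=
  ∀ F H : V → ℝ, (∀ v, 0 ≤ F v ∧ F v ≤ 1) → (∀ v, 0 ≤ H v ∧ H v ≤ 1) →
    |fm G F H - ∑ a : Fin M, ∑ b : Fin M,
      dn G χ a b * (∑ x ∈ univ.filter (fun x => χ x = a), F x) *
        (∑ x ∈ univ.filter (fun x => χ x = b), H x)| ≤ e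

end

/-- XR-EXT. From sets to functions. The difference `Φ (F, H)` is bilinear; for fixed `H` the linear
function `F ↦ Φ (F, H) = ∑ x, F x * c x` on `[0,1]^V` is at most its value at the indicator
function of `{c > 0}` and at least that at the indicator function of `{c < 0}`; the same for `H`. -/
def S_EXT : Prop :=
  ∀ (V : Type) [Fintype V] (G : SimpleGraph V) (M : ℕ) (χ : V → Fin M) (e : ℝ),
    WR G χ e → WRF G χ e

/-- XR-ISO. `L¹` Poincaré inequality. Take `θ` a median of `h` (`#{h > θ} ≤ N / 2`,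
`#{h < θ} ≤ N / 2`, `θ = h v₀`). For `u = max (h - θ) 0` the level sets `{u > t}`, `t ≥ 0`, have at
most `N / 2` elements, so (layer cake / induction on the number of values of `u`)
`2 η D ∑ u ≤ ∑_{x ~ y} |u x - u y|` (ordered pairs; each edge between `{u > t}` and its complement
is counted twice), the same for `w = max (θ - h) 0`, and `|h x - h y| = |u x - u y| + |w x - w y|`.
(For the layer cake without integrals: for `u ≥ 0` with support of at most `N / 2` elements, let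
`t > 0` be the smallest positive value of `u` and `S` the support; replace `u` by `u - t 1_S`.
Strong induction on `#S`.) -/
def S_ISO : Prop :=
  ∀ (V : Type) [Fintype V] [Nonempty V] (G : SimpleGraph V) (D η : ℝ),
    (∀ S : Finset V, 2 * S.card ≤ Fintype.card V → η * D * S.card ≤ ee G S Sᶜ) →
    ∀ h : V → ℝ, ∃ v₀, 2 * (η * D) * ∑ v, |h v - h v₀| ≤
      ∑ x, ∑ y, if G.Adj x y then |h x - h y| else 0

/-- XR-NH. Robust Hall condition for fractional sets of degree sum nearly half of the total.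
Let `A = {col = true}`, `B = {col = false}`, `N = card V`, `E = prs G / 2` (number of edges),
`z₀ = γ η³ / 16`, `ζ = γ η⁴ / 32 = η z₀ / 2`, `κ = γ η³ / 64 = z₀ / 4`. Put `h = f` on `A` and
`h = 1 - g` on `B`, `Z = ∑_{edges ab} |h a - h b|` (half of the ordered sum). Since
`∑_{ab} (h a - h b) = ∑_A f deg - ∑_B (1 - g) deg = ∑ (f + g) deg - E ≥ - ζ E`, the sum `P` of the
positive parts of `h a - h b` (`a ∈ A`) is at least `(Z - ζ E) / 2`. Moreover
`fm G f g = ∑_{ab} h a (1 - h b) ≥ P` as `h a (1 - h b) ≥ max (h a - h b) 0`.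
Case `Z ≥ z₀ D N`: `E ≤ N D / (2 η)`, so `P ≥ (3 / 8) z₀ D N ≥ κ D N`.
Case `Z < z₀ D N`: by ISO, with `θ = h v₀ ∈ [0, 1]`, `∑ |h - θ| ≤ Z / (η D) ≤ (z₀ / η) N`, hence
`γ N ≤ ∑ f ≤ θ N + (z₀ / η) N`, so `θ ≥ γ / 2`, in the same way `1 - θ ≥ γ / 2`, so
`θ (1 - θ) ≥ γ / 4`, and `fm G f g ≥ θ (1 - θ) E - ∑ deg v |h v - θ| ≥ (γ / 4) (η D N / 2) -
(D / η) (z₀ / η) N = γ η D N / 16 ≥ κ D N`. -/
def S_NH : Prop :=
  ∀ (V : Type) [Fintype V] [Nonempty V] (G : SimpleGraph V) (col : V → Bool) (D η γ : ℝ),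
    0 < D → 0 < η → η ≤ 1 → 0 < γ → γ ≤ 1 → Ex G D η → Bp G col →
    ∀ f g : V → ℝ, (∀ v, 0 ≤ f v ∧ f v ≤ 1) → (∀ v, 0 ≤ g v ∧ g v ≤ 1) →
      (∀ v, col v = false → f v = 0) → (∀ v, col v = true → g v = 0) →
      γ * Fintype.card V ≤ ∑ v, f v → γ * Fintype.card V ≤ ∑ v, g v →
      (1 - γ * η ^ 4 / 32) * (prs G / 2) ≤ ∑ v, (f v + g v) * dg G v →
      γ * η ^ 3 / 64 * D * Fintype.card V ≤ fm G f g

/-- XR-MGF. Finite product measure on the subsets of `V`: `v` is chosen with probability `p v`,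
weight `w S = ∏_{v ∈ S} p v * ∏_{v ∉ S} (1 - p v)`. (`Finset.prod_add` / `Finset.prod_add'`:
`∏ v, (a v + b v) = ∑ S ∈ univ.powerset, ∏_{S} a v * ∏_{univ \ S} b v`, with `a v = p v * z` for
`v ∈ C`, `a v = p v` for `v ∉ C`, `b v = 1 - p v`.) -/
def S_MGF : Prop :=
  ∀ (V : Type) [Fintype V] (p : V → ℝ) (C : Finset V) (z : ℝ),
    ∑ S : Finset V, ((∏ v ∈ S, p v) * ∏ v ∈ univ \ S, (1 - p v)) * z ^ (S ∩ C).card =
      ∏ v ∈ C, (1 + p v * (z - 1))

/-- XR-TAIL. Tail bounds, with the weights of `S_MGF` (assume `S_MGF`): Markov's inequality for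
`z ^ X`, `X = #(S ∩ C)`, `ξ = ∑_C p ≤ N`, `1 + p (z - 1) ≤ exp (p (z - 1))`.
(1) `z = exp (τ / 2)`: `exp θ - 1 ≤ θ + θ²` for `0 ≤ θ ≤ 1`.
(2) `z = exp (- τ / 2)`: `exp (-θ) - 1 ≤ - θ + θ² / 2`... (`≤ - θ + θ²` suffices).
(3) `z = 1 / 2`: `2 ^ (μ / 4) exp (- μ / 2) ≤ exp (- 3 μ / 10)` as `log 2 ≤ 0.7`, hence
`1 / 2 - log 2 / 4 ≥ 3 / 10`. -/
def S_TAIL : Prop :=
  ∀ (V : Type) [Fintype V] (p : V → ℝ), (∀ v, 0 ≤ p v ∧ p v ≤ 1) → ∀ (C : Finset V) (τ μ : ℝ),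
    0 < τ → τ ≤ 1 → 0 ≤ μ →
    (∑ S ∈ univ.filter (fun S : Finset V => ∑ v ∈ C, p v + τ * Fintype.card V < (S ∩ C).card),
      ((∏ v ∈ S, p v) * ∏ v ∈ univ \ S, (1 - p v)) ≤
        Real.exp (-(τ ^ 2 * Fintype.card V / 4))) ∧
    (∑ S ∈ univ.filter (fun S : Finset V =>
        ((S ∩ C).card : ℝ) < ∑ v ∈ C, p v - τ * Fintype.card V),
      ((∏ v ∈ S, p v) * ∏ v ∈ univ \ S, (1 - p v)) ≤
        Real.exp (-(τ ^ 2 * Fintype.card V / 4))) ∧
    (μ ≤ ∑ v ∈ C, p v →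
      ∑ S ∈ univ.filter (fun S : Finset V => ((S ∩ C).card : ℝ) < μ / 4),
        ((∏ v ∈ S, p v) * ∏ v ∈ univ \ S, (1 - p v)) ≤ Real.exp (-(3 * μ / 10)))

/-- XR-SAMP. Union bound, from `S_TAIL` and `S_MGF` with `C = ∅` (total weight `1`). -/
def S_SAMP : Prop :=
  ∀ (V : Type) [Fintype V] (p : V → ℝ), (∀ v, 0 ≤ p v ∧ p v ≤ 1) →
    ∀ (m : ℕ) (C : Fin m → Finset V) (Q : V → Finset V) (τ μ : ℝ), 0 < τ → τ ≤ 1 → 0 ≤ μ →
      (∀ v, μ ≤ ∑ u ∈ Q v, p u) →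
      2 * m * Real.exp (-(τ ^ 2 * Fintype.card V / 4)) +
        Fintype.card V * Real.exp (-(3 * μ / 10)) < 1 →
      ∃ W : Finset V, (∀ i, |((W ∩ C i).card : ℝ) - ∑ v ∈ C i, p v| ≤ τ * Fintype.card V) ∧
        ∀ v, μ / 4 ≤ ((W ∩ Q v).card : ℝ)

/-- XR-LARGE. Many edges between large subsets of a sample `W`. With `N = card V`,
`p v = η deg v / (2 D) ∈ [η² / 2, 1 / 2]`, cells `{v | χ v = a ∧ col v = b}`. Let `s a = #(S ∩
cell a true)`, `ξ a = ∑_{cell a true} p`, `f v = min 1 (s (χ v) / ξ (χ v))` for `col v = true` and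
`0` otherwise, `g` in the same way from `T` and `col v = false`. As `s a ≤ ξ a + τ N`,
`∑ f p = ∑_a min (ξ a) (s a) ≥ #S - M τ N`, also `∑ f ≥ ∑ f p ≥ γ N` and the same for `g`. So
`∑ (f + g) p ≥ #S + #T - 2 M τ N ≥ η prs / (4 D) - (s₀ + 2 M τ) N`; multiply by `2 D / η`:
`∑ (f + g) deg ≥ E - (2 D / η) (s₀ + 2 M τ) N ≥ (1 - ζ) E`, because `E = prs / 2 ≥ η D N / 2` and
`4 (s₀ + 2 M τ) ≤ ζ η²`. By `hNH`, `κ D N ≤ fm G f g`. Let `F v = s (χ v) / #(cell (χ v) true)` for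
`col v = true`, `0` otherwise, `H` in the same way; these have values in `[0, 1]`, and
`∑_{χ = a} F = s a = #(S.filter (χ = a))` (all elements of `S` have colour `true`). `WR` for
`S, T` and `WRF` for `F, H` give `ee G S T ≥ fm G F H - 2 e`. Finally `F ≥ (η² / 2) f`,
`H ≥ (η² / 2) g` because `ξ a ≥ (η² / 2) #cell`, so `fm G F H ≥ (η⁴ / 4) fm G f g`. -/
def S_LARGE : Prop :=
  ∀ (V : Type) [Fintype V] [Nonempty V] (G : SimpleGraph V) (col : V → Bool)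
    (D η κ ζ γ τ s₀ e : ℝ) (M : ℕ) (χ : V → Fin M) (W S T : Finset V),
    0 < D → 0 < η → η ≤ 1 → 0 < γ → 0 < τ → 0 ≤ s₀ → Ex G D η → Bp G col →
    (∀ f g : V → ℝ, (∀ v, 0 ≤ f v ∧ f v ≤ 1) → (∀ v, 0 ≤ g v ∧ g v ≤ 1) →
      (∀ v, col v = false → f v = 0) → (∀ v, col v = true → g v = 0) →
      γ * Fintype.card V ≤ ∑ v, f v → γ * Fintype.card V ≤ ∑ v, g v →
      (1 - ζ) * (prs G / 2) ≤ ∑ v, (f v + g v) * dg G v →
      κ * D * Fintype.card V ≤ fm G f g) →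
    WR G χ e → WRF G χ e →
    (∀ (a : Fin M) (b : Bool), ((W ∩ univ.filter (fun v => χ v = a ∧ col v = b)).card : ℝ) ≤
      ∑ v ∈ univ.filter (fun v => χ v = a ∧ col v = b), η * dg G v / (2 * D) +
        τ * Fintype.card V) →
    S ⊆ W → T ⊆ W → (∀ v ∈ S, col v = true) → (∀ v ∈ T, col v = false) →
    (γ + M * τ) * Fintype.card V ≤ S.card → (γ + M * τ) * Fintype.card V ≤ T.card →
    η * prs G / (4 * D) - s₀ * Fintype.card V ≤ (S.card : ℝ) + T.card →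
    4 * (s₀ + 2 * M * τ) ≤ ζ * η ^ 2 →
    η ^ 4 / 4 * (κ * D * Fintype.card V) - 2 * e ≤ ee G S T

/-- XR-SMALL. The case of small sets, by the local sparsity. If `#S + #T ≤ #X` it is trivial.
Otherwise let `#S ≤ γ N` (the other case is symmetric, `ee G S T = ee G T S`). Then
`#(Y \ T) = #X - #T ≤ #S`, and `ee G S T = ee G S Y - ee G S (Y \ T) ≥ δ D #S - M₀ (2 #S) ^ (1 + α)`,
`(2 #S) ^ (1 + α) = 2 #S (2 #S) ^ α ≤ 2 #S (2 γ) ^ α N ^ α ≤ 2 #S (2 γ) ^ α D`, so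
`ee G S T ≥ δ D #S / 2 ≥ r #S ≥ r (#S + #T - #X)`. -/
def S_SMALL : Prop :=
  ∀ (V : Type) [Fintype V] (G : SimpleGraph V) (X Y S T : Finset V) (α M₀ D δ γ : ℝ) (r : ℕ),
    0 < α → 0 < M₀ → 0 < D → 0 < δ → 0 < γ → ((Fintype.card V : ℕ) : ℝ) ^ α ≤ D →
    (∀ S T : Finset V, (ee G S T : ℝ) ≤ M₀ * ((S.card : ℝ) + T.card) ^ (1 + α)) →
    (∀ x ∈ X, δ * D ≤ ee G {x} Y) → (∀ y ∈ Y, δ * D ≤ ee G {y} X) → X.card = Y.card →
    S ⊆ X → T ⊆ Y → (S.card : ℝ) ≤ γ * Fintype.card V ∨ (T.card : ℝ) ≤ γ * Fintype.card V →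
    4 * M₀ * (2 * γ) ^ α ≤ δ → (r : ℝ) ≤ δ * D / 2 →
    r * (S.card + T.card) ≤ ee G S T + r * X.card

/-- XR-BAL. Enlarging the two halves of the sample to the same size. Let `m` be the larger one of
`#(W ∩ A)`, `#(W ∩ B)`; `Finset.exists_superset_card_eq`-type lemma (add elements of `A \ W`). -/
def S_BAL : Prop :=
  ∀ (V : Type) [Fintype V] (A B W : Finset V) (m₀ t : ℝ), 0 ≤ t → t ≤ m₀ →
    2 * m₀ ≤ A.card → 2 * m₀ ≤ B.card → |((W ∩ A).card : ℝ) - m₀| ≤ t →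
    |((W ∩ B).card : ℝ) - m₀| ≤ t →
    ∃ X Y : Finset V, W ∩ A ⊆ X ∧ X ⊆ A ∧ W ∩ B ⊆ Y ∧ Y ⊆ B ∧ X.card = Y.card ∧
      m₀ - t ≤ X.card ∧ ((X \ W).card : ℝ) ≤ 2 * t ∧ ((Y \ W).card : ℝ) ≤ 2 * t

/-- XR-RFAC (Ore, Ryser). A regular factor from Hall's condition. Let `E` be the set of the pairs
`(x, y)`, `x ∈ X`, `y ∈ Y`, adjacent, `d x`, `d y` the degrees in this bipartite graph. The
condition with `S = {x}`, `T = Y` gives `d x ≥ r`. Hall's theorem
(`Finset.all_card_le_biUnion_card_iff_exists_injective` or `Fintype` version) for the left vertices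
`(x, i)`, `i < d x - r`, and `e ∈ E` (call it `e''`) and the right vertices `e ∈ E` (call it `e'`)
and `(y, j)`, `j < d y - r`: `(x, i)` is joined to the `e'` with `e ∋ x`; `e''` to `e'` and to the
`(y, j)` with `y ∈ e`. For left sets consisting of copies of the `x ∈ S` and of `Q ⊆ E`, with `Y_Q`
the set of the ends in `Y` of `Q`, the condition is
`∑_S (d x - r) + #Q ≤ #(E_S ∪ Q) + ∑_{Y_Q} (d y - r)`, where `E_S` is the set of the edges at `S`;
as `#(E_S ∪ Q) - #Q = #(E_S \ Q) ≥ e (S, Y \ Y_Q)` it follows from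
`r (#(X \ S) + #Y_Q) ≤ e (X \ S, Y_Q) + r #X`. The matching is perfect (both sides have
`∑_X d + #E - r #X` elements). The edges `e` for which `e'` is matched to `e''` form the factor: the
others are matched to the `d x - r` copies of `x`, and their `e''` to the `d y - r` copies of `y`.
(Any other proof is welcome, e.g. by augmenting paths for a maximal subgraph of degrees `≤ r`.) -/
def S_RFAC : Prop :=
  ∀ (V : Type) [Fintype V] (G : SimpleGraph V) (X Y : Finset V) (r : ℕ), Disjoint X Y →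
    X.card = Y.card →
    (∀ S ⊆ X, ∀ T ⊆ Y, r * (S.card + T.card) ≤ ee G S T + r * X.card) →
    ∃ H : SimpleGraph V, H ≤ G ∧
      (∀ x y, H.Adj x y → (x ∈ X ∧ y ∈ Y) ∨ (x ∈ Y ∧ y ∈ X)) ∧
      (∀ x ∈ X, dg H x = r) ∧ ∀ y ∈ Y, dg H y = r

/-- XR-CORE: assembly, choice of the constants. Let `δ = η³ / 8`; `γ ≤ 1` with
`4 M₀ (2 γ) ^ α ≤ δ`; `γ' = γ / 4`, `κ = γ' η³ / 64`, `ζ = γ' η⁴ / 32` (as in `S_NH` for `γ'`);
`e = ε D N` with `ε = η⁴ κ / 16`, `M = R ε`, `1 ≤ M`; `t = min (ζ η² / 28) (min (γ / 8) (η² / 8))`,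
`τ = t / M` (`≤ 1`). `S_SAMP` with `p v = η deg v / (2 D)`, `Q v` the neighbours of `v`
(`∑_{Q v} p ≥ η D · η² / 2 = η³ D / 2 = μ`, so `#(W ∩ Q v) ≥ μ / 4 = δ D`) and the `2 M` cells
`{χ = a, col = b}` gives `W` for large `N` (`D ≥ N ^ α`). Summing over the cells,
`|#(W ∩ A) - m₀| ≤ M τ N = t N`, `m₀ = ∑_A p = η E / (2 D) = η prs / (4 D) = ∑_B p`,
`η² N / 4 ≤ m₀ ≤ #A / 2, #B / 2`. `S_BAL` gives `X, Y`; `#X ≥ m₀ - t N ≥ η² N / 8`. Degrees:
`ee G {x} Y ≥ #(W ∩ Q x) ≥ δ D` for `x ∈ X` (the neighbours of `x` have colour `false`). If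
`R ε = 0` there is no `χ` for nonempty `V`; use `τ = t / (M + 1)` to avoid the case distinction.
Let `r = ⌊min (δ / 2) (η⁴ κ / 8) * D⌋`. Sets `S ⊆ X`, `T ⊆ Y` with `#S ≤ γ N` or `#T ≤ γ N`: `S_SMALL`.
Otherwise, if `#S + #T > #X`, apply `S_LARGE` to `S ∩ W`, `T ∩ W` with `γ'`, `s₀ = 5 t`:
`#(S ∩ W) ≥ γ N - 2 t N ≥ (γ' + t) N`, `#(S ∩ W) + #(T ∩ W) ≥ #X - 4 t N ≥ m₀ - 5 t N`,
`4 (5 t + 2 t) ≤ ζ η²`; so `ee G S T ≥ (η⁴ κ / 4 - 2 ε) D N = (η⁴ κ / 8) D N ≥ r N ≥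
r (#S + #T - #X)`. -/
def S_CORE : Prop :=
  ∀ (α M₀ η : ℝ) (R : ℝ → ℕ), 0 < α → 0 < M₀ → 0 < η → η ≤ 1 → ∃ (ρ : ℝ) (N₀ : ℕ), 0 < ρ ∧
    ∀ (V : Type) [Fintype V] (G : SimpleGraph V) (col : V → Bool) (D : ℝ),
      N₀ ≤ Fintype.card V → ((Fintype.card V : ℕ) : ℝ) ^ α ≤ D → Ex G D η → Bp G col →
      (∀ S T : Finset V, (ee G S T : ℝ) ≤ M₀ * ((S.card : ℝ) + T.card) ^ (1 + α)) →
      (∀ ε : ℝ, 0 < ε → ∃ χ : V → Fin (R ε),
        WR G χ (ε * ((Fintype.card V : ℕ) : ℝ) ^ (1 + α))) →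
      ∃ (X Y : Finset V) (r : ℕ), (∀ x ∈ X, col x = true) ∧ (∀ y ∈ Y, col y = false) ∧
        X.card = Y.card ∧ ρ * Fintype.card V ≤ X.card ∧ ρ * D ≤ r ∧
        ∀ S ⊆ X, ∀ T ⊆ Y, r * (S.card + T.card) ≤ ee G S T + r * X.card

end Pool.Agent.H35.XR
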