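import Pool.Agent.H35.XL.Q115_GV4
import Pool.Agent.H35.XR.Stm
import Pool.Agent.H35.RD.BIP

/-! Step 1: a bipartite expander inside a near-extremal graph without `C_{2k}` (library). -/

set_option autoImplicit false
set_option linter.unusedSectionVars false

open Finset
open scoped Classical

namespace Pool.Agent.H35.XR

open Pool.Agent.H35.RD Pool.Agent.Q115.GY Pool.Agent.Q115.GW Pool.Agent.Q115.GV

theorem dg_ncard {V : Type} [Fintype V] (G : SimpleGraph V) (v : V) :
    (G.neighborSet v).ncard = dg G v := by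
  unfold dg
  rw [← Set.ncard_coe_finset]
  congr 1
  ext w
  simp

theorem ee_compl {V : Type} [Fintype V] (G : SimpleGraph V) (S : Finset V) :
    ((ee G S Sᶜ : ℕ) : ℝ) = ∑ x ∈ S, ((G.neighborSet x \ (S : Set V)).ncard : ℝ) := by
  have h : ee G S Sᶜ = ∑ x ∈ S, (univ.filter (fun y => y ∉ S ∧ G.Adj x y)).card := by
    unfold ee
    rw [card_filter, sum_product]
    apply sum_congr rfl
    intro x _
    rw [card_filter, ← sum_filter_add_sum_filter_not univ (fun y => y ∈ S)]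
    have h1 : ∑ y ∈ univ.filter (fun y => y ∈ S), (if y ∉ S ∧ G.Adj x y then 1 else 0) = 0 := by
      apply sum_eq_zero
      intro y hy
      simp only [mem_filter, mem_univ, true_and] at hy
      simp [hy]
    rw [h1, zero_add]
    have h2 : (Sᶜ : Finset V) = univ.filter (fun y => ¬ y ∈ S) := by ext y; simp
    rw [h2]
    apply sum_congr rfl
    intro y hy
    simp only [mem_filter, mem_univ, true_and] at hy
    simp [hy]
  rw [h]
  push_cast
  apply sum_congr rfl
  intro x _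
  congr 1
  rw [← Set.ncard_coe_finset]
  congr 1
  ext y
  simp only [coe_filter, mem_univ, true_and, Set.mem_diff, SimpleGraph.mem_neighborSet, mem_coe]
  constructor
  · rintro ⟨h1, h2⟩; exact ⟨h2, h1⟩
  · rintro ⟨h1, h2⟩; exact ⟨h2, h1⟩

theorem step1 (k : ℕ) (hk : 2 ≤ k) (c : ℝ) (hc : 0 < c) : ∃ η : ℝ, 0 < η ∧ η ≤ 1 ∧
    ∀ (n : ℕ) (G : SimpleGraph (Fin n)), 1 ≤ n → (SimpleGraph.cycleGraph (2 * k)).Free G →
      c * (n : ℝ) ^ (1 + 1 / (k : ℝ)) ≤ prs G →
      ∃ (U : Finset (Fin n)) (H : SimpleGraph U) (col : U → Bool),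
        (∀ x y : U, H.Adj x y → G.Adj x y) ∧ Bp H col ∧ η * n ≤ U.card ∧
          Ex H ((n : ℝ) ^ (1 / (k : ℝ))) η := by
  obtain ⟨M, hM, hgood⟩ := good_even k hk
  have hkpos : (0 : ℝ) < k := by
    have : 0 < k := by omega
    exact_mod_cast this
  have hα : (0 : ℝ) < 1 / (k : ℝ) := by positivity
  have hQ : ∀ K : ℝ, 0 < K → 0 < (fun K : ℝ => (4 * (k : ℝ) ^ 2) ^ (k - 1) * K ^ k) K := by
    intro K hK
    show 0 < (4 * (k : ℝ) ^ 2) ^ (k - 1) * K ^ k
    positivity
  obtain ⟨η, L, hη, hdec⟩ := decomp_free (SimpleGraph.cycleGraph (2 * k)) (1 / (k : ℝ)) M k _ hα hM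
    (by omega) hQ hgood (c / 4) (1 / 2) (by positivity) (by norm_num)
  refine ⟨min η 1, by positivity, min_le_right _ _, ?_⟩
  intro n G hn hfree hsize
  have hn0 : (0 : ℝ) < n := by exact_mod_cast hn
  obtain ⟨S, hS⟩ := bip (Fin n) G
  let G₁ : SimpleGraph (Fin n) :=
    { Adj := fun x y => G.Adj x y ∧ ¬ (x ∈ S ↔ y ∈ S)
      symm := ⟨fun x y h => ⟨h.1.symm, fun h' => h.2 h'.symm⟩⟩
      loopless := ⟨fun x h => h.2 Iff.rfl⟩ }
  have hle : G₁ ≤ G := fun x y h => h.1
  have hfree1 : (SimpleGraph.cycleGraph (2 * k)).Free G₁ :=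
    fun h => hfree (h.trans (SimpleGraph.IsContained.of_le hle))
  have hcard : prs G ≤ 4 * G₁.edgeFinset.card := by
    refine hS.trans (Nat.mul_le_mul_left 4 ?_)
    apply card_le_card_of_injOn (fun z : Fin n × Fin n => s(z.1, z.2))
    · intro z hz
      simp only [coe_filter, mem_univ, true_and, Set.mem_ofPred_eq] at hz
      simp only [SimpleGraph.coe_edgeFinset, SimpleGraph.mem_edgeSet]
      refine ⟨hz.2.2, fun h => hz.2.1 (h.1 hz.1)⟩
    · intro z hz w hw h
      simp only [coe_filter, mem_univ, true_and, Set.mem_ofPred_eq] at hz hw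
      simp only [Sym2.eq_iff] at h
      rcases h with ⟨h1, h2⟩ | ⟨h1, h2⟩
      · exact Prod.ext h1 h2
      · exact absurd (h1 ▸ hz.1) hw.2.1
  have hsz : c / 4 * (n : ℝ) ^ (1 + 1 / (k : ℝ)) ≤ (G₁.edgeFinset.card : ℝ) := by
    have h1 : (prs G : ℝ) ≤ 4 * (G₁.edgeFinset.card : ℝ) := by exact_mod_cast hcard
    linarith
  obtain ⟨Ps, -, hsum, hPs⟩ := hdec (Fin n) G₁ hfree1 (by rw [Fintype.card_fin]; exact hsz)
  have hpos : (0 : ℝ) < (G₁.edgeFinset.card : ℝ) := lt_of_lt_of_le (by positivity) hsz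
  have hne : Ps.Nonempty := by
    rw [nonempty_iff_ne_empty]
    rintro rfl
    rw [sum_empty] at hsum
    linarith
  obtain ⟨U, hU⟩ := hne
  obtain ⟨h1, h2, h3, hb1, hb2, -, -⟩ := hPs U hU
  rw [Fintype.card_fin] at h1 hb1 hb2
  have hD : (0 : ℝ) ≤ (n : ℝ) ^ (1 / (k : ℝ)) := by positivity
  refine ⟨U, G₁.comap (Subtype.val : U → Fin n), fun u => decide (u.1 ∈ S), ?_, ?_, ?_, ?_⟩
  · intro x y h
    exact h.1
  · intro x y h he
    apply h.2
    simpa using he
  · exact (mul_le_mul_of_nonneg_right (min_le_left _ _) hn0.le).trans h1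
  · constructor
    · intro v
      rw [← dg_ncard]
      exact (mul_le_mul_of_nonneg_right (min_le_left _ _) hD).trans (hb1 v).1
    · intro v
      rw [← dg_ncard]
      have h5 := (hb1 v).2
      calc min η 1 * ((SimpleGraph.neighborSet (G₁.comap (Subtype.val : U → Fin n)) v).ncard : ℝ)
          ≤ η * (η⁻¹ * (n : ℝ) ^ (1 / (k : ℝ))) :=
            mul_le_mul (min_le_left _ _) h5 (by positivity) hη.le
        _ = _ := by field_simp
    · intro T hT
      rw [ee_compl]
      refine le_trans ?_ (hb2 T hT)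
      apply mul_le_mul_of_nonneg_right _ (Nat.cast_nonneg _)
      exact mul_le_mul_of_nonneg_right (min_le_left _ _) hD

theorem ee_mono {V : Type} [Fintype V] (G : SimpleGraph V) {S S' T T' : Finset V} (h : S ⊆ S')
    (h' : T ⊆ T') : ee G S T ≤ ee G S' T' :=
  card_le_card (filter_subset_filter _ (product_subset_product h h'))

theorem ee_self {V : Type} [Fintype V] (G : SimpleGraph V) (X : Finset V) :
    ((ee G X X : ℕ) : ℝ) = ∑ x ∈ X, ((X.filter (fun y => G.Adj x y)).card : ℝ) := by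
  unfold ee
  rw [card_filter, sum_product]
  push_cast
  apply sum_congr rfl
  intro x _
  rw [card_filter]
  push_cast
  rfl

/-- Bondy and Simonovits, for pairs of sets -/
theorem bs (k : ℕ) (hk : 2 ≤ k) : ∃ M : ℝ, 0 < M ∧ ∀ (V : Type) [Fintype V] (G : SimpleGraph V),
    (SimpleGraph.cycleGraph (2 * k)).Free G → ∀ S T : Finset V,
      (ee G S T : ℝ) ≤ M * ((S.card : ℝ) + T.card) ^ (1 + 1 / (k : ℝ)) := by
  obtain ⟨M, hM, hgood⟩ := good_even k hk
  refine ⟨M, hM, fun V _ G hfree S T => ?_⟩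
  have h1 := hgood.1 V G hfree (S ∪ T)
  rw [← ee_self] at h1
  have h2 : (ee G S T : ℝ) ≤ ee G (S ∪ T) (S ∪ T) := by
    exact_mod_cast ee_mono G subset_union_left subset_union_right
  refine h2.trans (h1.trans ?_)
  apply mul_le_mul_of_nonneg_left _ hM.le
  apply Real.rpow_le_rpow (by positivity)
  · exact_mod_cast card_union_le S T
  · positivity

/-- weak regularity -/
theorem wreg (k : ℕ) (hk : 2 ≤ k) (ε : ℝ) (hε : 0 < ε) : ∃ M : ℕ, ∀ (V : Type) [Fintype V]
    (G : SimpleGraph V), (SimpleGraph.cycleGraph (2 * k)).Free G →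
      ∃ χ : V → Fin M, WR G χ (ε * ((Fintype.card V : ℕ) : ℝ) ^ (1 + 1 / (k : ℝ))) := by
  obtain ⟨M, h⟩ := weak_reg k hk ε hε
  refine ⟨M, fun V _ G hfree => ?_⟩
  obtain ⟨χ, hχ⟩ := h V G hfree
  refine ⟨χ, fun S T => ?_⟩
  refine le_trans (le_of_eq ?_) (hχ S T)
  congr 2
  apply sum_congr rfl
  intro a _
  apply sum_congr rfl
  intro b _
  unfold dn
  have : ∀ S T : Finset V, ee G S T = (G.interedges S T).card := fun S T => rfl
  rw [this]
  ring

end Pool.Agent.H35.XR
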